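import Pool.Agent.N224.Bary.Vertex

set_option autoImplicit false

open Topology Set Filter ComplexConjugate

namespace Pool.Agent.N224.Bary

/-! ### signs -/

theorem mm_pos {p : Pil} (h : sg p * vd p ≠ 0) : 0 < mm p := by
  have h1 : sg p ≠ 0 := left_ne_zero_of_mul h
  have h2 : vd p ≠ 0 := right_ne_zero_of_mul h
  have hc := (cc_pos_iff p).2 h1
  unfold vd at h2
  have n13 : x1 p ≠ x3 p := sub_ne_zero.1 (right_ne_zero_of_mul h2)
  have h3 := left_ne_zero_of_mul h2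
  have n12 : x1 p ≠ x2 p := sub_ne_zero.1 (left_ne_zero_of_mul h3)
  have n23 : x2 p ≠ x3 p := sub_ne_zero.1 (right_ne_zero_of_mul h3)
  have key : cc p < cb p ∧ cb p < ca p := by
    rcases sorted p with ⟨k1, k2, k3, k4, k5⟩ | ⟨k1, k2, k3, k4, k5⟩ | ⟨k1, k2, k3, k4, k5⟩ |
      ⟨k1, k2, k3, k4, k5⟩ | ⟨k1, k2, k3, k4, k5⟩ | ⟨k1, k2, k3, k4, k5⟩ <;> rw [k3, k4, k5]
    · exact ⟨lt_of_le_of_ne k1 n23.symm, lt_of_le_of_ne k2 n12.symm⟩
    · exact ⟨lt_of_le_of_ne k1 n23, lt_of_le_of_ne k2 n13.symm⟩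
    · exact ⟨lt_of_le_of_ne k1 n13.symm, lt_of_le_of_ne k2 n12⟩
    · exact ⟨lt_of_le_of_ne k1 n13, lt_of_le_of_ne k2 n23.symm⟩
    · exact ⟨lt_of_le_of_ne k1 n12.symm, lt_of_le_of_ne k2 n13⟩
    · exact ⟨lt_of_le_of_ne k1 n12, lt_of_le_of_ne k2 n23⟩
  exact lt_min (by linarith [key.2]) (lt_min (by linarith [key.1]) (by linarith))

theorem ms_nonneg {p : Pil} (h : 0 ≤ sg p * vd p) : 0 ≤ ms p := by
  unfold ms
  rw [if_pos h]
  exact mm_nonneg p

theorem ms_nonpos {p : Pil} (h : sg p * vd p ≤ 0) : ms p ≤ 0 := by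
  unfold ms
  rcases h.eq_or_lt with h0 | h0
  · rw [if_pos h0.ge, mm_eq_zero_of_vd h0]
  · rw [if_neg (not_le.2 h0)]
    linarith [mm_nonneg p]

/-! ### symmetry of the map -/

theorem ca_rot (p : Pil) : ca (rot p) = ca p := by
  unfold ca mx
  rw [x1_rot, x2_rot, x3_rot, max_comm (x3 p) (x1 p), ← max_assoc, max_comm (x2 p) (x1 p), max_assoc]

theorem cc_rot (p : Pil) : cc (rot p) = cc p := by
  rw [← abs_sg', ← abs_sg', sg_rot]

theorem vd_rot (p : Pil) : vd (rot p) = vd p := by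
  unfold vd
  rw [x1_rot, x2_rot, x3_rot]
  ring

theorem bf_rot (p : Pil) : bf (rot p) = bf p := by
  have h1 : cb (rot p) = cb p := by unfold cb; rw [ca_rot, cc_rot]
  have h2 : mm (rot p) = mm p := by unfold mm; rw [ca_rot, h1, cc_rot]
  refine Pil.ext ?_ ?_ ?_
  · rw [x2_bf, x2_bf, h1, cc_rot]
  · rw [x3_bf, x3_bf, cc_rot]
  · rw [sg_bf, sg_bf]
    unfold ms
    rw [sg_rot, vd_rot, h2]

theorem ca_flip (p : Pil) : ca (flip p) = ca p := by
  unfold ca mx
  rw [x1_flip, x2_flip, x3_flip, max_comm (x3 p) (x2 p)]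

theorem cc_flip (p : Pil) : cc (flip p) = cc p := by
  rw [← abs_sg', ← abs_sg', sg_flip, abs_neg]

theorem bf_flip (p : Pil) : bf (flip p) = bf p := by
  have h1 : cb (flip p) = cb p := by unfold cb; rw [ca_flip, cc_flip]
  have h2 : mm (flip p) = mm p := by unfold mm; rw [ca_flip, h1, cc_flip]
  have h3 : sg (flip p) * vd (flip p) = sg p * vd p := by
    unfold vd
    rw [sg_flip, x1_flip, x2_flip, x3_flip]
    ring
  refine Pil.ext ?_ ?_ ?_
  · rw [x2_bf, x2_bf, h1, cc_flip]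
  · rw [x3_bf, x3_bf, cc_flip]
  · rw [sg_bf, sg_bf]
    unfold ms
    rw [h3, h2]

/-! ### the three kinds of stars -/

theorem eta_two : eta 2 = Complex.I := by
  unfold eta
  apply Complex.ext
  · simp
  · simp

theorem eta_three : eta 3 = ⟨1 / 2, √3 / 2⟩ := by
  unfold eta
  apply Complex.ext
  · simp
  · simp

theorem sq_aux {A B D s : ℝ} (h1 : A ^ 2 = D ^ 2) (h2 : B ^ 2 = s ^ 2) (h3 : A * B = D * s) :
    ((A : ℂ) + B * Complex.I) ^ 2 = ((D : ℂ) + s * Complex.I) ^ 2 := by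
  have e : ∀ x y : ℝ, ((x : ℂ) + y * Complex.I) ^ 2 =
      ((x ^ 2 - y ^ 2 : ℝ) : ℂ) + ((2 * (x * y) : ℝ) : ℂ) * Complex.I := by
    intro x y
    push_cast
    linear_combination (y : ℂ) ^ 2 * Complex.I_sq
  rw [e, e, h1, h2, h3]

/-- the chart at `e₁` -/
noncomputable def ps1 : OpenPartialHomeomorph Pil ℂ := rot.transOpenPartialHomeomorph (chv 2 2 3)

/-- the chart at `e₂` -/
noncomputable def ps2 : OpenPartialHomeomorph Pil ℂ :=
  rot.transOpenPartialHomeomorph (rot.transOpenPartialHomeomorph (chv 2 3 1))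

/-- the chart at `e₃` -/
noncomputable def ps3 : OpenPartialHomeomorph Pil ℂ := chv 3 1 2

theorem good_ps1 : Good ps1 := (good_chv le_rfl (by norm_num) (by norm_num)).rot

theorem good_ps2 : Good ps2 := (good_chv le_rfl (by norm_num) (by norm_num)).rot.rot

theorem good_ps3 : Good ps3 := good_chv (by norm_num) (by norm_num) (by norm_num)

theorem mem_ps1 {p : Pil} : p ∈ ps1.source ↔ 0 < x1 p := by
  change rot p ∈ (chv 2 2 3).source ↔ _
  rw [mem_chv le_rfl (by norm_num) (by norm_num), x3_rot]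

theorem mem_ps2 {p : Pil} : p ∈ ps2.source ↔ 0 < x2 p := by
  change rot (rot p) ∈ (chv 2 3 1).source ↔ _
  rw [mem_chv le_rfl (by norm_num) (by norm_num), x3_rot, x1_rot]

theorem mem_ps3 {p : Pil} : p ∈ ps3.source ↔ 0 < x3 p :=
  mem_chv (by norm_num) (by norm_num) (by norm_num)

theorem ps1_apply (p : Pil) : ps1 p = vf 2 2 3 (rot p) :=
  chv_apply le_rfl (by norm_num) (by norm_num) _

theorem ps2_apply (p : Pil) : ps2 p = vf 2 3 1 (rot (rot p)) :=
  chv_apply le_rfl (by norm_num) (by norm_num) _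

theorem ps3_apply (p : Pil) : ps3 p = vf 3 1 2 p :=
  chv_apply (by norm_num) (by norm_num) (by norm_num) _

theorem conj_aux (A B : ℝ) : conj ((A : ℂ) + B * Complex.I) = (A : ℂ) + ((-B : ℝ) : ℂ) * Complex.I := by
  rw [map_add, map_mul, Complex.conj_ofReal, Complex.conj_ofReal, Complex.conj_I]
  push_cast
  ring

theorem star_a {p : Pil} (h2 : x2 p < x1 p) (h3 : x3 p < x1 p) :
    bf p ∈ ps1.source ∧ ps1 (bf p) = cha p ^ 2 := by
  have h12 : 0 < x1 p - x2 p := by linarith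
  have h13 : 0 < x1 p - x3 p := by linarith
  have hvd : vd p = ((x1 p - x2 p) * (x1 p - x3 p)) * (x2 p - x3 p) := by unfold vd; ring
  have hpos : 0 < (x1 p - x2 p) * (x1 p - x3 p) := mul_pos h12 h13
  -- order of the coordinates
  have hco : ca p = x1 p ∧ (cb p - cc p) = |x2 p - x3 p| := by
    rcases sorted p with ⟨k1, k2, k3, k4, k5⟩ | ⟨k1, k2, k3, k4, k5⟩ | ⟨k1, k2, k3, k4, k5⟩ |
      ⟨k1, k2, k3, k4, k5⟩ | ⟨k1, k2, k3, k4, k5⟩ | ⟨k1, k2, k3, k4, k5⟩
    · exact ⟨k3, by rw [k4, k5, abs_of_nonneg (by linarith)]⟩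
    · exact ⟨k3, by rw [k4, k5, abs_of_nonpos (by linarith)]; ring⟩
    all_goals exfalso; linarith
  have hm : bf p ∈ ps1.source := by
    rw [mem_ps1, x1_bf, hco.1]
    have := (c_order p).2.1
    have h4 : cb p ≤ max (x2 p) (x3 p) := by
      rcases sorted p with ⟨k1, k2, k3, k4, k5⟩ | ⟨k1, k2, k3, k4, k5⟩ | ⟨k1, k2, k3, k4, k5⟩ |
        ⟨k1, k2, k3, k4, k5⟩ | ⟨k1, k2, k3, k4, k5⟩ | ⟨k1, k2, k3, k4, k5⟩
      · rw [k4]; exact le_max_left _ _
      · rw [k4]; exact le_max_right _ _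
      all_goals exfalso; linarith
    have h5 : max (x2 p) (x3 p) < x1 p := max_lt h2 h3
    linarith
  refine ⟨hm, ?_⟩
  rw [ps1_apply, cha_apply]
  have hzz : zz 2 2 3 (rot (bf p)) = ((cb p - cc p : ℝ) : ℂ) + (cc p : ℂ) * Complex.I := by
    unfold zz
    rw [x1_rot, x2_rot, x2_bf, x3_bf, eta_two, show 2 * (cb p - cc p) / 2 = cb p - cc p by ring,
      show 3 * cc p / 3 = cc p by ring]
  have hA : (cb p - cc p) ^ 2 = (x2 p - x3 p) ^ 2 := by rw [hco.2, sq_abs]
  have hB : (cc p) ^ 2 = (sg p) ^ 2 := by rw [← abs_sg', sq_abs]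
  have hAB : (cb p - cc p) * cc p = |(x2 p - x3 p) * sg p| := by rw [hco.2, ← abs_sg', abs_mul]
  rcases le_total 0 (sg p * vd p) with h | h
  · rw [vf_front (by rw [sg_rot, sg_bf]; exact ms_nonneg h), hzz]
    refine sq_aux hA hB ?_
    rw [hAB, abs_of_nonneg]
    rw [hvd] at h
    by_contra hcon
    push Not at hcon
    nlinarith
  · rw [vf_back (by rw [sg_rot, sg_bf]; exact ms_nonpos h) (by rw [x3_rot]; exact mem_ps1.1 hm) le_rfl
      (by norm_num) (by norm_num), hzz, map_pow, conj_aux]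
    refine sq_aux hA (by rw [neg_sq]; exact hB) ?_
    rw [mul_neg, hAB, abs_of_nonpos, neg_neg]
    rw [hvd] at h
    by_contra hcon
    push Not at hcon
    nlinarith

theorem star_b {p : Pil} (h1 : x3 p < x1 p) (h2 : x3 p < x2 p) :
    bf p ∈ ps2.source ∧ ps2 (bf p) = chb p ^ 2 := by
  have h13 : 0 < x1 p - x3 p := by linarith
  have h23 : 0 < x2 p - x3 p := by linarith
  have hvd : vd p = ((x2 p - x3 p) * (x1 p - x3 p)) * (x1 p - x2 p) := by unfold vd; ring
  have hpos : 0 < (x2 p - x3 p) * (x1 p - x3 p) := mul_pos h23 h13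
  have hco : cc p = x3 p ∧ x3 p < cb p ∧ (ca p - cb p) = |x1 p - x2 p| := by
    rcases sorted p with ⟨k1, k2, k3, k4, k5⟩ | ⟨k1, k2, k3, k4, k5⟩ | ⟨k1, k2, k3, k4, k5⟩ |
      ⟨k1, k2, k3, k4, k5⟩ | ⟨k1, k2, k3, k4, k5⟩ | ⟨k1, k2, k3, k4, k5⟩
    · exact ⟨k5, by linarith, by rw [k3, k4, abs_of_nonneg (by linarith)]⟩
    · exfalso; linarith
    · exact ⟨k5, by linarith, by rw [k3, k4, abs_of_nonpos (by linarith)]; ring⟩
    all_goals exfalso; linarith
  have hm : bf p ∈ ps2.source := by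
    rw [mem_ps2, x2_bf, hco.1]
    linarith [hco.2.1]
  refine ⟨hm, ?_⟩
  rw [ps2_apply, chb_apply]
  have hzz : zz 2 3 1 (rot (rot (bf p))) = (cc p : ℂ) + ((ca p - cb p : ℝ) : ℂ) * Complex.I := by
    unfold zz
    rw [x1_rot, x2_rot, x2_rot, x3_rot, x3_bf, x1_bf, eta_two, div_one,
      show 3 * cc p / 3 = cc p by ring]
  have hA : (cc p) ^ 2 = (sg p) ^ 2 := by rw [← abs_sg', sq_abs]
  have hB : (ca p - cb p) ^ 2 = (x1 p - x2 p) ^ 2 := by rw [hco.2.2, sq_abs]
  have hAB : cc p * (ca p - cb p) = |sg p * (x1 p - x2 p)| := by rw [hco.2.2, ← abs_sg', abs_mul]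
  rcases le_total 0 (sg p * vd p) with h | h
  · rw [vf_front (by rw [sg_rot, sg_rot, sg_bf]; exact ms_nonneg h), hzz]
    refine sq_aux hA hB ?_
    rw [hAB, abs_of_nonneg]
    rw [hvd] at h
    by_contra hcon
    push Not at hcon
    nlinarith
  · rw [vf_back (by rw [sg_rot, sg_rot, sg_bf]; exact ms_nonpos h)
      (by rw [x3_rot, x1_rot]; exact mem_ps2.1 hm) le_rfl
      (by norm_num) (by norm_num), hzz, map_pow, conj_aux]
    refine sq_aux hA (by rw [neg_sq]; exact hB) ?_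
    rw [mul_neg, hAB, abs_of_nonpos, neg_neg]
    rw [hvd] at h
    by_contra hcon
    push Not at hcon
    nlinarith

/-- the cube root of unity -/
noncomputable def om : ℂ := ⟨-1 / 2, √3 / 2⟩

theorem sqrt3 : √3 * √3 = 3 := Real.mul_self_sqrt (by norm_num)

theorem om_cube : om ^ 3 = 1 := by
  have h3 := sqrt3
  apply Complex.ext
  · simp only [om, pow_succ, pow_zero, one_mul, Complex.mul_re, Complex.mul_im, Complex.one_re]
    linear_combination (3 / 8) * h3
  · simp only [om, pow_succ, pow_zero, one_mul, Complex.mul_re, Complex.mul_im, Complex.one_im]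
    linear_combination (-√3 / 8) * h3

theorem cube_aux (z w : ℂ) (h : z = w ∨ z = om * w ∨ z = om ^ 2 * w) : z ^ 3 = w ^ 3 := by
  rcases h with h | h | h
  · rw [h]
  · rw [h, mul_pow, om_cube, one_mul]
  · rw [h, mul_pow, ← pow_mul, mul_comm 2 3, pow_mul, om_cube, one_pow, one_mul]

theorem star_c {p : Pil} (hs : 0 < sg p) : bf p ∈ ps3.source ∧ ps3 (bf p) = chc p ^ 3 := by
  have hcc : 0 < cc p := (cc_pos_iff p).2 hs.ne'
  have hm : bf p ∈ ps3.source := by
    rw [mem_ps3, x3_bf]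
    linarith
  refine ⟨hm, ?_⟩
  have h3 := sqrt3
  rw [ps3_apply, chc_apply]
  have hzz : zz 3 1 2 (bf p) = ((ca p - cb p : ℝ) : ℂ) + ((cb p - cc p : ℝ) : ℂ) * ⟨1 / 2, √3 / 2⟩ := by
    unfold zz
    rw [x1_bf, x2_bf, eta_three, div_one, show 2 * (cb p - cc p) / 2 = cb p - cc p by ring]
  have hfront : 0 ≤ vd p → vf 3 1 2 (bf p) = zz 3 1 2 (bf p) ^ 3 := fun h =>
    vf_front (by rw [sg_bf]; exact ms_nonneg (mul_nonneg hs.le h))
  have hback : vd p ≤ 0 → vf 3 1 2 (bf p) = conj (zz 3 1 2 (bf p)) ^ 3 := fun h => by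
    rw [vf_back (by rw [sg_bf]; exact ms_nonpos (mul_nonpos_of_nonneg_of_nonpos hs.le h))
      (mem_ps3.1 hm) (by norm_num) (by norm_num) (by norm_num), map_pow]
  have hx1 : x1 p = 1 - x2 p - x3 p := by linarith [sum_eq p]
  rcases sorted p with ⟨k1, k2, k3, k4, k5⟩ | ⟨k1, k2, k3, k4, k5⟩ | ⟨k1, k2, k3, k4, k5⟩ |
      ⟨k1, k2, k3, k4, k5⟩ | ⟨k1, k2, k3, k4, k5⟩ | ⟨k1, k2, k3, k4, k5⟩
  · rw [hfront (by
      unfold vd
      exact mul_nonneg (mul_nonneg (by linarith) (by linarith)) (by linarith)), hzz, k3, k4, k5, hx1]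
    refine cube_aux _ _ (Or.inl ?_)
    apply Complex.ext
    · simp; ring
    · simp; ring
  · rw [hback (by
      unfold vd
      have : 0 ≤ (x1 p - x2 p) * (x3 p - x2 p) * (x1 p - x3 p) :=
        mul_nonneg (mul_nonneg (by linarith) (by linarith)) (by linarith)
      linarith), hzz, k3, k4, k5, hx1]
    refine cube_aux _ _ (Or.inl ?_)
    apply Complex.ext
    · simp; ring
    · simp; ring
  · rw [hback (by
      unfold vd
      have : 0 ≤ (x2 p - x1 p) * (x2 p - x3 p) * (x1 p - x3 p) :=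
        mul_nonneg (mul_nonneg (by linarith) (by linarith)) (by linarith)
      linarith), hzz, k3, k4, k5, hx1]
    refine cube_aux _ _ (Or.inr (Or.inr ?_))
    apply Complex.ext
    · simp [om, pow_succ]; linear_combination (1 / 4 - 5 / 8 * x2 p - 1 / 8 * x3 p) * h3
    · simp [om, pow_succ]; linear_combination (√3 * (x2 p - x3 p) / 8) * h3
  · rw [hfront (by
      unfold vd
      have : 0 ≤ (x3 p - x1 p) * (x2 p - x3 p) * (x2 p - x1 p) :=
        mul_nonneg (mul_nonneg (by linarith) (by linarith)) (by linarith)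
      have : 0 ≤ (x2 p - x1 p) * (x2 p - x3 p) * (x3 p - x1 p) :=
        mul_nonneg (mul_nonneg (by linarith) (by linarith)) (by linarith)
      linarith), hzz, k3, k4, k5, hx1]
    refine cube_aux _ _ (Or.inr (Or.inr ?_))
    apply Complex.ext
    · simp [om, pow_succ]; linear_combination (1 / 4 - 5 / 8 * x2 p - 1 / 8 * x3 p) * h3
    · simp [om, pow_succ]; linear_combination (√3 * (x2 p - x3 p) / 8) * h3
  · rw [hfront (by
      unfold vd
      have : 0 ≤ (x1 p - x2 p) * (x3 p - x2 p) * (x3 p - x1 p) :=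
        mul_nonneg (mul_nonneg (by linarith) (by linarith)) (by linarith)
      linarith), hzz, k3, k4, k5, hx1]
    refine cube_aux _ _ (Or.inr (Or.inl ?_))
    apply Complex.ext
    · simp [om]; linear_combination ((x2 p - x3 p) / 4) * h3
    · simp [om]; ring
  · rw [hback (by
      unfold vd
      have : 0 ≤ (x2 p - x1 p) * (x3 p - x2 p) * (x3 p - x1 p) :=
        mul_nonneg (mul_nonneg (by linarith) (by linarith)) (by linarith)
      linarith), hzz, k3, k4, k5, hx1]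
    refine cube_aux _ _ (Or.inr (Or.inl ?_))
    apply Complex.ext
    · simp [om]; linear_combination ((x2 p - x3 p) / 4) * h3
    · simp [om]; ring

end Pool.Agent.N224.Bary
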