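import Pool.Agent.N224.Bary.Good

set_option autoImplicit false

open Topology Set Filter ComplexConjugate

namespace Pool.Agent.N224.Bary

/-! ### small facts -/

theorem cc_eq_x1 {p : Pil} (h : x1 p ≤ x2 p) (h' : x1 p ≤ x3 p) : cc p = x1 p := by
  unfold cc mn
  rw [min_eq_left (le_min h h')]

theorem cc_eq_x2 {p : Pil} (h : x2 p ≤ x1 p) (h' : x2 p ≤ x3 p) : cc p = x2 p := by
  unfold cc mn
  rw [min_eq_left h', min_eq_right h]

theorem cc_eq_x3 {p : Pil} (h : x3 p ≤ x1 p) (h' : x3 p ≤ x2 p) : cc p = x3 p := by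
  unfold cc mn
  rw [min_eq_right h', min_eq_right h]

theorem sg_eq_cc {p : Pil} (h : 0 < sg p) : sg p = cc p := by
  rw [← abs_sg', abs_of_pos h]

theorem sg_eq_neg_cc {p : Pil} (h : sg p < 0) : sg p = -cc p := by
  rw [← abs_sg', abs_of_neg h, neg_neg]

theorem cc_eq_of_sg {p q : Pil} (h : sg p = sg q) : cc p = cc q := by
  rw [← abs_sg', ← abs_sg', h]

/-! ### the star of a vertex -/

theorem exists_cha : ∃ φ : OpenPartialHomeomorph Pil ℂ, φ.source = {p | x2 p < x1 p ∧ x3 p < x1 p} ∧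
    φ.target = {w | 3 * |w.im| + 2 * |w.re| < 1} ∧
    ∀ p, φ p = ((x2 p - x3 p : ℝ) : ℂ) + sg p * Complex.I := by
  have hF : Continuous fun p : Pil => ((x2 p - x3 p : ℝ) : ℂ) + sg p * Complex.I := by fun_prop
  have hre : ∀ p : Pil, (((x2 p - x3 p : ℝ) : ℂ) + sg p * Complex.I).re = x2 p - x3 p :=
    fun p => re_add_im_aux _ _
  have him : ∀ p : Pil, (((x2 p - x3 p : ℝ) : ℂ) + sg p * Complex.I).im = sg p :=
    fun p => im_add_im_aux _ _
  have hcc : ∀ p : Pil, x2 p ≤ x1 p → x3 p ≤ x1 p →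
      (cc p = x2 p ∧ |x2 p - x3 p| = x3 p - x2 p) ∨ (cc p = x3 p ∧ |x2 p - x3 p| = x2 p - x3 p) := by
    intro p h1 h2
    rcases le_total (x2 p) (x3 p) with h | h
    · exact Or.inl ⟨cc_eq_x2 h1 h, by rw [abs_of_nonpos (by linarith)]; ring⟩
    · exact Or.inr ⟨cc_eq_x3 h2 h, abs_of_nonneg (by linarith)⟩
  have key : ∀ p ∈ {p : Pil | x2 p ≤ x1 p ∧ x3 p ≤ x1 p},
      (((x2 p - x3 p : ℝ) : ℂ) + sg p * Complex.I) ∈ {w : ℂ | 3 * |w.im| + 2 * |w.re| < 1} →
      p ∈ {p : Pil | x2 p < x1 p ∧ x3 p < x1 p} := by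
    rintro p ⟨h1, h2⟩ h3
    rw [mem_ofPred_eq, hre, him, abs_sg'] at h3
    have hs := sum_eq p
    have h6 := abs_nonneg (x2 p - x3 p)
    rcases hcc p h1 h2 with ⟨h4, h5⟩ | ⟨h4, h5⟩ <;> rw [h4, h5] at h3 <;> rw [h5] at h6 <;>
      exact ⟨by linarith, by linarith⟩
  refine exists_chart (F := fun p => ((x2 p - x3 p : ℝ) : ℂ) + sg p * Complex.I)
    (F₁ := fun p => ((x2 p - x3 p : ℝ) : ℂ) + sg p * Complex.I)
    (F₂ := fun p => ((x2 p - x3 p : ℝ) : ℂ) + sg p * Complex.I)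
    (K₁ := {p | x2 p ≤ x1 p ∧ x3 p ≤ x1 p}) (K₂ := {p | x2 p ≤ x1 p ∧ x3 p ≤ x1 p})
    ((isOpen_lt continuous_x2 continuous_x1).inter (isOpen_lt continuous_x3 continuous_x1))
    (isOpen_lt (by fun_prop) continuous_const)
    ((isClosed_le continuous_x2 continuous_x1).inter (isClosed_le continuous_x3 continuous_x1))
    ((isClosed_le continuous_x2 continuous_x1).inter (isClosed_le continuous_x3 continuous_x1))
    ?_ hF.continuousOn hF.continuousOn (fun _ _ => rfl) (fun _ _ => rfl) ?_ ?_ ?_ key key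
  · rintro p ⟨h1, h2⟩
    exact Or.inl ⟨h1.le, h2.le⟩
  · rintro p ⟨hp1, hp2⟩ q ⟨hq1, hq2⟩ h
    have h1 := congrArg Complex.re h
    have h2 := congrArg Complex.im h
    simp only [hre, him] at h1 h2
    have h3 := cc_eq_of_sg h2
    refine Pil.ext ?_ ?_ h2 <;>
    rcases hcc p hp1.le hp2.le with ⟨a1, a2⟩ | ⟨a1, a2⟩ <;>
    rcases hcc q hq1.le hq2.le with ⟨b1, b2⟩ | ⟨b1, b2⟩ <;>
    rw [h1] at a2 <;> linarith
  · rintro p ⟨h1, h2⟩
    simp only [mem_ofPred_eq]
    rw [hre, him, abs_sg']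
    have hs := sum_eq p
    rcases hcc p h1.le h2.le with ⟨h4, h5⟩ | ⟨h4, h5⟩ <;> rw [h4, h5] <;> linarith
  · intro w hw
    have hw' : 3 * |w.im| + 2 * |w.re| < 1 := hw
    have n1 := abs_nonneg w.im
    have n2 := abs_nonneg w.re
    rcases le_total 0 w.re with h | h
    · rw [abs_of_nonneg h] at hw' n2
      refine ⟨mkP (1 - 2 * |w.im| - w.re) (|w.im| + w.re) |w.im| w.im (by ring) ?_, ?_, ?_⟩
      · unfold mn
        rw [min_eq_right (by linarith : |w.im| ≤ |w.im| + w.re), min_eq_right (by linarith)]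
      · change x2 _ < x1 _ ∧ x3 _ < x1 _
        rw [x1_mkP, x2_mkP, x3_mkP]
        exact ⟨by linarith, by linarith⟩
      · simp only [x2_mkP, x3_mkP, sg_mkP]
        rw [show |w.im| + w.re - |w.im| = w.re by ring]
        exact Complex.re_add_im w
    · rw [abs_of_nonpos h] at hw' n2
      refine ⟨mkP (1 - 2 * |w.im| + w.re) |w.im| (|w.im| - w.re) w.im (by ring) ?_, ?_, ?_⟩
      · unfold mn
        rw [min_eq_left (by linarith : |w.im| ≤ |w.im| - w.re), min_eq_right (by linarith)]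
      · change x2 _ < x1 _ ∧ x3 _ < x1 _
        rw [x1_mkP, x2_mkP, x3_mkP]
        exact ⟨by linarith, by linarith⟩
      · simp only [x2_mkP, x3_mkP, sg_mkP]
        rw [show |w.im| - (|w.im| - w.re) = w.re by ring]
        exact Complex.re_add_im w

noncomputable def cha : OpenPartialHomeomorph Pil ℂ := exists_cha.choose

theorem mem_cha {p : Pil} : p ∈ cha.source ↔ x2 p < x1 p ∧ x3 p < x1 p := by
  have := exists_cha.choose_spec.1
  change p ∈ exists_cha.choose.source ↔ _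
  rw [this]
  rfl

theorem cha_apply (p : Pil) : cha p = ((x2 p - x3 p : ℝ) : ℂ) + sg p * Complex.I :=
  exists_cha.choose_spec.2.2 p

theorem good_cha : Good cha := by
  intro p hp hO
  rw [mem_cha] at hp
  have hne : x2 p ≠ x3 p := hO.2.2.1
  have hV1 : x2 p < x3 p → {q : Pil | x2 q < x3 q ∧ x2 q < x1 q} ∈ 𝓝 p := fun h =>
    ((isOpen_lt continuous_x2 continuous_x3).inter
      (isOpen_lt continuous_x2 continuous_x1)).mem_nhds ⟨h, hp.1⟩
  have hV2 : x3 p < x2 p → {q : Pil | x3 q < x2 q ∧ x3 q < x1 q} ∈ 𝓝 p := fun h =>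
    ((isOpen_lt continuous_x3 continuous_x2).inter
      (isOpen_lt continuous_x3 continuous_x1)).mem_nhds ⟨h, hp.2⟩
  constructor
  · intro hk
    rcases lt_or_gt_of_ne hne with h | h
    · refine posAt_of hk (hV1 h) (hasFDerivAt_lin 0 (1 + Complex.I) (-1) _) ?_ ?_
      · rw [jac_lin]; simp
      · rintro q ⟨h1, h2⟩ hq
        rw [cha_apply, kap_apply, lin_apply, re_add_im_aux, im_add_im_aux, sg_eq_cc (mem_kap.1 hq),
          cc_eq_x2 h2.le h1.le]
        push_cast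
        ring
    · refine posAt_of hk (hV2 h) (hasFDerivAt_lin 0 1 (-1 + Complex.I) _) ?_ ?_
      · rw [jac_lin]; simp
      · rintro q ⟨h1, h2⟩ hq
        rw [cha_apply, kap_apply, lin_apply, re_add_im_aux, im_add_im_aux, sg_eq_cc (mem_kap.1 hq),
          cc_eq_x3 h2.le h1.le]
        push_cast
        ring
  · intro hk
    rcases lt_or_gt_of_ne hne with h | h
    · refine posAt_of hk (hV1 h) (hasFDerivAt_lin 0 (-1) (1 - Complex.I) _) ?_ ?_
      · rw [jac_lin]; simp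
      · rintro q ⟨h1, h2⟩ hq
        rw [cha_apply, kapm_apply, lin_apply, re_add_im_aux, im_add_im_aux,
          sg_eq_neg_cc (mem_kapm.1 hq), cc_eq_x2 h2.le h1.le]
        push_cast
        ring
    · refine posAt_of hk (hV2 h) (hasFDerivAt_lin 0 (-1 - Complex.I) 1 _) ?_ ?_
      · rw [jac_lin]; simp
      · rintro q ⟨h1, h2⟩ hq
        rw [cha_apply, kapm_apply, lin_apply, re_add_im_aux, im_add_im_aux,
          sg_eq_neg_cc (mem_kapm.1 hq), cc_eq_x3 h2.le h1.le]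
        push_cast
        ring

/-! ### the star of the midpoint of an edge -/

theorem exists_chb : ∃ φ : OpenPartialHomeomorph Pil ℂ, φ.source = {p | x3 p < x1 p ∧ x3 p < x2 p} ∧
    φ.target = {w | 3 * |w.re| + |w.im| < 1} ∧
    ∀ p, φ p = (sg p : ℂ) + ((x1 p - x2 p : ℝ) : ℂ) * Complex.I := by
  have hF : Continuous fun p : Pil => (sg p : ℂ) + ((x1 p - x2 p : ℝ) : ℂ) * Complex.I := by fun_prop
  have hre : ∀ p : Pil, ((sg p : ℂ) + ((x1 p - x2 p : ℝ) : ℂ) * Complex.I).re = sg p :=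
    fun p => re_add_im_aux _ _
  have him : ∀ p : Pil, ((sg p : ℂ) + ((x1 p - x2 p : ℝ) : ℂ) * Complex.I).im = x1 p - x2 p :=
    fun p => im_add_im_aux _ _
  have key : ∀ p ∈ {p : Pil | x3 p ≤ x1 p ∧ x3 p ≤ x2 p},
      ((sg p : ℂ) + ((x1 p - x2 p : ℝ) : ℂ) * Complex.I) ∈ {w : ℂ | 3 * |w.re| + |w.im| < 1} →
      p ∈ {p : Pil | x3 p < x1 p ∧ x3 p < x2 p} := by
    rintro p ⟨h1, h2⟩ h3
    rw [mem_ofPred_eq, hre, him, abs_sg', cc_eq_x3 h1 h2] at h3
    have hs := sum_eq p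
    have h4 := le_abs_self (x1 p - x2 p)
    have h5 := neg_abs_le (x1 p - x2 p)
    exact ⟨by linarith, by linarith⟩
  refine exists_chart (F := fun p => (sg p : ℂ) + ((x1 p - x2 p : ℝ) : ℂ) * Complex.I)
    (F₁ := fun p => (sg p : ℂ) + ((x1 p - x2 p : ℝ) : ℂ) * Complex.I)
    (F₂ := fun p => (sg p : ℂ) + ((x1 p - x2 p : ℝ) : ℂ) * Complex.I)
    (K₁ := {p | x3 p ≤ x1 p ∧ x3 p ≤ x2 p}) (K₂ := {p | x3 p ≤ x1 p ∧ x3 p ≤ x2 p})
    ((isOpen_lt continuous_x3 continuous_x1).inter (isOpen_lt continuous_x3 continuous_x2))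
    (isOpen_lt (by fun_prop) continuous_const)
    ((isClosed_le continuous_x3 continuous_x1).inter (isClosed_le continuous_x3 continuous_x2))
    ((isClosed_le continuous_x3 continuous_x1).inter (isClosed_le continuous_x3 continuous_x2))
    ?_ hF.continuousOn hF.continuousOn (fun _ _ => rfl) (fun _ _ => rfl) ?_ ?_ ?_ key key
  · rintro p ⟨h1, h2⟩
    exact Or.inl ⟨h1.le, h2.le⟩
  · rintro p ⟨hp1, hp2⟩ q ⟨hq1, hq2⟩ h
    have h1 := congrArg Complex.re h
    have h2 := congrArg Complex.im h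
    simp only [hre, him] at h1 h2
    have h3 := cc_eq_of_sg h1
    rw [cc_eq_x3 hp1.le hp2.le, cc_eq_x3 hq1.le hq2.le] at h3
    refine Pil.ext ?_ h3 h1
    linarith [sum_eq p, sum_eq q]
  · rintro p ⟨h1, h2⟩
    simp only [mem_ofPred_eq]
    rw [hre, him, abs_sg', cc_eq_x3 h1.le h2.le]
    have hs := sum_eq p
    rcases abs_cases (x1 p - x2 p) with ⟨h, -⟩ | ⟨h, -⟩ <;> rw [h] <;> linarith
  · intro w hw
    have hw' : 3 * |w.re| + |w.im| < 1 := hw
    have n1 := abs_nonneg w.re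
    have h4 := le_abs_self w.im
    have h5 := neg_abs_le w.im
    refine ⟨mkP ((1 - |w.re| + w.im) / 2) ((1 - |w.re| - w.im) / 2) |w.re| w.re (by ring) ?_, ?_, ?_⟩
    · unfold mn
      rw [min_eq_right (by linarith : |w.re| ≤ (1 - |w.re| - w.im) / 2), min_eq_right (by linarith)]
    · change x3 _ < x1 _ ∧ x3 _ < x2 _
      rw [x1_mkP, x2_mkP, x3_mkP]
      exact ⟨by linarith, by linarith⟩
    · simp only [x1_mkP, x2_mkP, sg_mkP]
      rw [show (1 - |w.re| + w.im) / 2 - (1 - |w.re| - w.im) / 2 = w.im by ring]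
      exact Complex.re_add_im w

noncomputable def chb : OpenPartialHomeomorph Pil ℂ := exists_chb.choose

theorem mem_chb {p : Pil} : p ∈ chb.source ↔ x3 p < x1 p ∧ x3 p < x2 p := by
  have := exists_chb.choose_spec.1
  change p ∈ exists_chb.choose.source ↔ _
  rw [this]
  rfl

theorem chb_apply (p : Pil) : chb p = (sg p : ℂ) + ((x1 p - x2 p : ℝ) : ℂ) * Complex.I :=
  exists_chb.choose_spec.2.2 p

theorem good_chb : Good chb := by
  intro p hp _
  have hV : chb.source ∈ 𝓝 p := chb.open_source.mem_nhds hp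
  constructor
  · intro hk
    refine posAt_of hk hV (hasFDerivAt_lin Complex.I (-2 * Complex.I) (1 - Complex.I) _) ?_ ?_
    · rw [jac_lin]; simp
    · rintro q h1 hq
      rw [mem_chb] at h1
      rw [chb_apply, kap_apply, lin_apply, re_add_im_aux, im_add_im_aux, sg_eq_cc (mem_kap.1 hq),
        cc_eq_x3 h1.1.le h1.2.le, show x1 q = 1 - x2 q - x3 q by linarith [sum_eq q]]
      push_cast
      ring
  · intro hk
    refine posAt_of hk hV (hasFDerivAt_lin Complex.I (-1 - Complex.I) (-2 * Complex.I) _) ?_ ?_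
    · rw [jac_lin]; simp
    · rintro q h1 hq
      rw [mem_chb] at h1
      rw [chb_apply, kapm_apply, lin_apply, re_add_im_aux, im_add_im_aux,
        sg_eq_neg_cc (mem_kapm.1 hq), cc_eq_x3 h1.1.le h1.2.le,
        show x1 q = 1 - x2 q - x3 q by linarith [sum_eq q]]
      push_cast
      ring

/-! ### the star of a barycentre -/

theorem exists_chc : ∃ φ : OpenPartialHomeomorph Pil ℂ, φ.source = {p | 0 < sg p} ∧
    φ.target = {w | 0 < 1 + 2 * w.re ∧ 0 < 1 - w.re + √3 * w.im ∧ 0 < 1 - w.re - √3 * w.im} ∧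
    ∀ p, φ p = ((1 - 3 / 2 * x2 p - 3 / 2 * x3 p : ℝ) : ℂ) +
      ((√3 / 2 * (x2 p - x3 p) : ℝ) : ℂ) * Complex.I := by
  have h3 : √3 * √3 = 3 := Real.mul_self_sqrt (by norm_num)
  set F : Pil → ℂ := fun p => ((1 - 3 / 2 * x2 p - 3 / 2 * x3 p : ℝ) : ℂ) +
      ((√3 / 2 * (x2 p - x3 p) : ℝ) : ℂ) * Complex.I with hFdef
  have hF : Continuous F := by rw [hFdef]; fun_prop
  have hre : ∀ p : Pil, (F p).re = 1 - 3 / 2 * x2 p - 3 / 2 * x3 p := fun p => re_add_im_aux _ _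
  have him : ∀ p : Pil, (F p).im = √3 / 2 * (x2 p - x3 p) := fun p => im_add_im_aux _ _
  have e1 : ∀ p : Pil, 1 + 2 * (F p).re = 3 * x1 p := by
    intro p; rw [hre]; linarith [sum_eq p]
  have e2 : ∀ p : Pil, 1 - (F p).re + √3 * (F p).im = 3 * x2 p := by
    intro p; rw [hre, him]; linear_combination (x2 p - x3 p) / 2 * h3
  have e3 : ∀ p : Pil, 1 - (F p).re - √3 * (F p).im = 3 * x3 p := by
    intro p; rw [hre, him]; linear_combination -(x2 p - x3 p) / 2 * h3
  have hT : IsOpen {w : ℂ | 0 < 1 + 2 * w.re ∧ 0 < 1 - w.re + √3 * w.im ∧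
      0 < 1 - w.re - √3 * w.im} :=
    (isOpen_lt (f := fun _ => (0 : ℝ)) (g := fun w : ℂ => 1 + 2 * w.re) continuous_const
      (by fun_prop)).inter ((isOpen_lt (f := fun _ => (0 : ℝ))
        (g := fun w : ℂ => 1 - w.re + √3 * w.im) continuous_const (by fun_prop)).inter
        (isOpen_lt (f := fun _ => (0 : ℝ)) (g := fun w : ℂ => 1 - w.re - √3 * w.im)
          continuous_const (by fun_prop)))
  have key : ∀ p ∈ {p : Pil | 0 ≤ sg p}, F p ∈ {w : ℂ | 0 < 1 + 2 * w.re ∧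
      0 < 1 - w.re + √3 * w.im ∧ 0 < 1 - w.re - √3 * w.im} → p ∈ {p : Pil | 0 < sg p} := by
    rintro p hp ⟨k1, k2, k3⟩
    rw [e1] at k1
    rw [e2] at k2
    rw [e3] at k3
    have h4 : 0 < cc p := lt_min (by linarith) (lt_min (by linarith) (by linarith))
    exact lt_of_le_of_ne hp ((cc_pos_iff p).1 h4).symm
  refine exists_chart (F := F) (F₁ := F) (F₂ := F) (K₁ := {p | 0 ≤ sg p}) (K₂ := {p | 0 ≤ sg p})
    (isOpen_lt continuous_const continuous_sg)
    hT
    (isClosed_le continuous_const continuous_sg) (isClosed_le continuous_const continuous_sg)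
    ?_ hF.continuousOn hF.continuousOn (fun _ _ => rfl) (fun _ _ => rfl) ?_ ?_ ?_ key key
  · intro p hp
    exact Or.inl (le_of_lt (show 0 < sg p from hp))
  · intro p hp q hq h
    have k2 := e2 p
    have k3 := e3 p
    rw [h, e2] at k2
    rw [h, e3] at k3
    have h1 : x2 p = x2 q := by linarith
    have h2 : x3 p = x3 q := by linarith
    refine Pil.ext h1 h2 ?_
    have hp' : 0 < sg p := hp
    have hq' : 0 < sg q := hq
    rw [sg_eq_cc hp', sg_eq_cc hq']
    unfold cc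
    rw [h1, h2, show x1 p = x1 q by linarith [sum_eq p, sum_eq q]]
  · intro p hp
    have h4 : 0 < cc p := (cc_pos_iff p).2 (ne_of_gt (show 0 < sg p from hp))
    obtain ⟨h1, h2, h3⟩ := mn_le (x1 p) (x2 p) (x3 p)
    change cc p ≤ _ at h1 h2 h3
    refine ⟨?_, ?_, ?_⟩
    · rw [e1]; linarith
    · rw [e2]; linarith
    · rw [e3]; linarith
  · rintro w ⟨k1, k2, k3⟩
    have h4 : 0 < mn ((1 + 2 * w.re) / 3) ((1 - w.re + √3 * w.im) / 3) ((1 - w.re - √3 * w.im) / 3) :=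
      lt_min (by linarith) (lt_min (by linarith) (by linarith))
    refine ⟨mkP ((1 + 2 * w.re) / 3) ((1 - w.re + √3 * w.im) / 3) ((1 - w.re - √3 * w.im) / 3)
      _ (by ring) (abs_of_pos h4), h4, ?_⟩
    apply Complex.ext
    · rw [hre, x2_mkP, x3_mkP]; ring
    · rw [him, x2_mkP, x3_mkP]
      linear_combination w.im / 3 * h3

noncomputable def chc : OpenPartialHomeomorph Pil ℂ := exists_chc.choose

theorem mem_chc {p : Pil} : p ∈ chc.source ↔ 0 < sg p := by
  have := exists_chc.choose_spec.1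
  change p ∈ exists_chc.choose.source ↔ _
  rw [this]
  rfl

theorem chc_apply (p : Pil) : chc p = ((1 - 3 / 2 * x2 p - 3 / 2 * x3 p : ℝ) : ℂ) +
      ((√3 / 2 * (x2 p - x3 p) : ℝ) : ℂ) * Complex.I :=
  exists_chc.choose_spec.2.2 p

theorem good_chc : Good chc := by
  intro p hp _
  rw [mem_chc] at hp
  constructor
  · intro hk
    refine posAt_of hk univ_mem (hasFDerivAt_lin 1 ⟨-3 / 2, √3 / 2⟩ ⟨-3 / 2, -(√3 / 2)⟩ _) ?_ ?_
    · rw [jac_lin]
      have : 0 < √3 := Real.sqrt_pos.2 (by norm_num)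
      simp only
      nlinarith
    · rintro q _ hq
      rw [chc_apply, kap_apply, lin_apply, re_add_im_aux, im_add_im_aux]
      apply Complex.ext <;> simp <;> ring
  · intro hk
    rw [mem_kapm] at hk
    linarith

end Pool.Agent.N224.Bary
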