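import Mathlib

/-!
# Thurston maps on oriented topological spheres
-/

set_option autoImplicit false

open Topology Set Filter

namespace Pool.Agent.N224.Bary

/-- The loop `t ↦ γ t`, `0 ≤ t ≤ 1`, in the plane winds once around `0`, counterclockwise: there is a
continuous logarithm of `γ` which increases by `2 π i`. -/
def WindsOnce (γ : ℝ → ℂ) : Prop :=
  ∃ Λ : ℝ → ℂ, ContinuousOn Λ (Icc 0 1) ∧ (∀ t ∈ Icc (0 : ℝ) 1, Complex.exp (Λ t) = γ t) ∧
    Λ 1 = Λ 0 + 2 * Real.pi * Complex.I

/-- The map `τ` preserves the orientation at `z`: the images of all small circles around `z` wind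
once around `τ z`. -/
def OrientedAt (τ : ℂ → ℂ) (z : ℂ) : Prop :=
  ∀ᶠ r : ℝ in 𝓝[>] 0,
    WindsOnce fun t => τ (z + r * Complex.exp (2 * Real.pi * t * Complex.I)) - τ z

/-- The homeomorphism `τ` between open subsets of the plane preserves the orientation. -/
def OrientationPreserving (τ : OpenPartialHomeomorph ℂ ℂ) : Prop :=
  ∀ z ∈ τ.source, OrientedAt τ z

/-- An orientation of the topological surface `S`: charts (homeomorphisms of open subsets of `S` onto
open subsets of the plane) which cover `S` and whose transition maps preserve the orientation. -/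
structure Orientation (S : Type*) [TopologicalSpace S] where
  charts : Set (OpenPartialHomeomorph S ℂ)
  cover : ∀ p : S, ∃ φ ∈ charts, p ∈ φ.source
  oriented : ∀ φ ∈ charts, ∀ ψ ∈ charts, OrientationPreserving (φ.symm.trans ψ)

variable {S : Type*}

/-- The homeomorphism `φ` of an open subset of the oriented surface `S` onto an open subset of the
plane preserves the orientation. -/
def Orientation.Positive [TopologicalSpace S] (𝒜 : Orientation S) (φ : OpenPartialHomeomorph S ℂ) :
    Prop :=
  ∀ ψ ∈ 𝒜.charts, OrientationPreserving (ψ.symm.trans φ)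

/-- `f` is a branched covering map: for each `p` there are `d ≥ 1` and orientation preserving
homeomorphisms `φ`, `ψ` of neighbourhoods of `p` and `f p` onto neighbourhoods of `0` in the plane,
mapping `p` and `f p` to `0`, such that `ψ ∘ f ∘ φ⁻¹` is `z ↦ z ^ d`. -/
def IsBranchedCovering [TopologicalSpace S] (𝒜 : Orientation S) (f : S → S) : Prop :=
  Continuous f ∧ ∀ p : S, ∃ (d : ℕ) (φ ψ : OpenPartialHomeomorph S ℂ), 1 ≤ d ∧
    𝒜.Positive φ ∧ 𝒜.Positive ψ ∧ p ∈ φ.source ∧ f p ∈ ψ.source ∧ φ p = 0 ∧ ψ (f p) = 0 ∧
      MapsTo f φ.source ψ.source ∧ ∀ x ∈ φ.source, ψ (f x) = φ x ^ d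

/-- The critical points: the points near which `f` is not injective, i.e. those of local degree at
least two. -/
def crit [TopologicalSpace S] (f : S → S) : Set S := {p | ∀ U ∈ 𝓝 p, ¬ InjOn f U}

/-- The postcritical set. -/
def post [TopologicalSpace S] (f : S → S) : Set S := ⋃ n ∈ Ici 1, f^[n] '' crit f

/-- The topological degree of a branched covering map: the largest number of preimages of a
point. -/
noncomputable def degree (f : S → S) : ℕ∞ := ⨆ y, (f ⁻¹' {y}).encard

/-- `f` is a Thurston map. -/
structure IsThurstonMap [TopologicalSpace S] (𝒜 : Orientation S) (f : S → S) : Prop where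
  branched : IsBranchedCovering 𝒜 f
  degree : 2 ≤ degree f
  post : (post f).Finite

/-- `C` is a Jordan curve. -/
def IsJordanCurve [TopologicalSpace S] (C : Set S) : Prop :=
  ∃ γ : Circle → S, Continuous γ ∧ Function.Injective γ ∧ range γ = C

/-- The supremum of the diameters of the connected components of `f⁻ⁿ (S ∖ C)`. -/
noncomputable def mesh [MetricSpace S] (f : S → S) (n : ℕ) (C : Set S) : ENNReal :=
  ⨆ x ∈ f^[n] ⁻¹' Cᶜ, Metric.ediam (connectedComponentIn (f^[n] ⁻¹' Cᶜ) x)

/-- `f` is expanding: for some Jordan curve which contains the postcritical set the mesh tends to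
`0`. -/
def IsExpanding [MetricSpace S] (f : S → S) : Prop :=
  ∃ C : Set S, IsJordanCurve C ∧ post f ⊆ C ∧ Tendsto (fun n => mesh f n C) atTop (𝓝 0)

end Pool.Agent.N224.Bary
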