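import Pool.Agent.N224.Bary.Sector

set_option autoImplicit false

open Topology Set Filter

namespace Pool.Agent.N224.Bary

/-! ### symmetries -/

theorem mn_rot (x y z : ℝ) : mn y z x = mn x y z := by
  simp only [mn]
  rw [min_comm z x, ← min_assoc, min_comm y x, min_assoc]

theorem mn_flip (x y z : ℝ) : mn x z y = mn x y z := by
  simp only [mn]
  rw [min_comm z y]

/-- the rotation of the triangle -/
def rot : Pil ≃ₜ Pil where
  toFun p := mkP (x2 p) (x3 p) (x1 p) (sg p) (by linarith [sum_eq p])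
    (by rw [abs_sg]; exact (mn_rot _ _ _).symm)
  invFun p := mkP (x3 p) (x1 p) (x2 p) (sg p) (by linarith [sum_eq p])
    (by rw [abs_sg, mn_rot (x3 p)])
  left_inv p := Pil.ext (by simp) (by simp) (by simp)
  right_inv p := Pil.ext (by simp) (by simp) (by simp)
  continuous_toFun := by
    refine Continuous.subtype_mk ?_ _
    fun_prop
  continuous_invFun := by
    refine Continuous.subtype_mk ?_ _
    fun_prop

@[simp] theorem x1_rot (p : Pil) : x1 (rot p) = x2 p := by
  change 1 - x3 p - x1 p = x2 p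
  linarith [sum_eq p]
@[simp] theorem x2_rot (p : Pil) : x2 (rot p) = x3 p := rfl
@[simp] theorem x3_rot (p : Pil) : x3 (rot p) = x1 p := rfl
@[simp] theorem sg_rot (p : Pil) : sg (rot p) = sg p := rfl

/-- the reflection of the triangle which interchanges the sides -/
def flip : Pil ≃ₜ Pil where
  toFun p := mkP (x1 p) (x3 p) (x2 p) (-sg p) (by linarith [sum_eq p])
    (by rw [abs_neg, abs_sg, mn_flip])
  invFun p := mkP (x1 p) (x3 p) (x2 p) (-sg p) (by linarith [sum_eq p])
    (by rw [abs_neg, abs_sg, mn_flip])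
  left_inv p := Pil.ext (by simp) (by simp) (by simp)
  right_inv p := Pil.ext (by simp) (by simp) (by simp)
  continuous_toFun := by
    refine Continuous.subtype_mk ?_ _
    fun_prop
  continuous_invFun := by
    refine Continuous.subtype_mk ?_ _
    fun_prop

@[simp] theorem x1_flip (p : Pil) : x1 (flip p) = x1 p := by
  change 1 - x3 p - x2 p = x1 p
  linarith [sum_eq p]
@[simp] theorem x2_flip (p : Pil) : x2 (flip p) = x3 p := rfl
@[simp] theorem x3_flip (p : Pil) : x3 (flip p) = x2 p := rfl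
@[simp] theorem sg_flip (p : Pil) : sg (flip p) = -sg p := rfl

@[simp] theorem flip_flip (p : Pil) : flip (flip p) = p := flip.left_inv p

/-! ### the affine coordinates on the faces -/

instance : Nonempty Pil := ⟨mkP 1 0 0 0 (by norm_num) (by norm_num [mn])⟩

theorem cc_pos_iff (p : Pil) : 0 < cc p ↔ sg p ≠ 0 := by
  rw [← abs_sg', abs_pos]

theorem exists_kap : ∃ φ : OpenPartialHomeomorph Pil ℂ, φ.source = {p | 0 < sg p} ∧
    φ.target = {w | 0 < w.re ∧ 0 < w.im ∧ w.re + w.im < 1} ∧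
    ∀ p, φ p = (x2 p : ℂ) + x3 p * Complex.I := by
  have hT : IsOpen {w : ℂ | 0 < w.re ∧ 0 < w.im ∧ w.re + w.im < 1} :=
    (isOpen_lt continuous_const Complex.continuous_re).inter
      ((isOpen_lt continuous_const Complex.continuous_im).inter
        (isOpen_lt (Complex.continuous_re.add Complex.continuous_im) continuous_const))
  have hF : Continuous fun p : Pil => (x2 p : ℂ) + x3 p * Complex.I := by fun_prop
  have hre : ∀ p : Pil, ((x2 p : ℂ) + x3 p * Complex.I).re = x2 p := fun p => re_add_im_aux _ _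
  have him : ∀ p : Pil, ((x2 p : ℂ) + x3 p * Complex.I).im = x3 p := fun p => im_add_im_aux _ _
  have key : ∀ p : Pil, 0 ≤ sg p → ((x2 p : ℂ) + x3 p * Complex.I) ∈
      {w : ℂ | 0 < w.re ∧ 0 < w.im ∧ w.re + w.im < 1} → 0 < sg p := by
    intro p hp h
    obtain ⟨h1, h2, h3⟩ := h
    rw [hre] at h1 h3
    rw [him] at h2 h3
    have h4 : 0 < cc p := lt_min (by linarith [sum_eq p]) (lt_min h1 h2)
    exact lt_of_le_of_ne hp ((cc_pos_iff p).1 h4).symm
  refine exists_chart (F := fun p => (x2 p : ℂ) + x3 p * Complex.I)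
    (F₁ := fun p => (x2 p : ℂ) + x3 p * Complex.I) (F₂ := fun p => (x2 p : ℂ) + x3 p * Complex.I)
    (K₁ := {p | 0 ≤ sg p}) (K₂ := {p | 0 ≤ sg p}) (isOpen_lt continuous_const continuous_sg) hT
    (isClosed_le continuous_const continuous_sg) (isClosed_le continuous_const continuous_sg)
    ?_ hF.continuousOn hF.continuousOn (fun _ _ => rfl) (fun _ _ => rfl) ?_ ?_ ?_
    (fun p hp h => key p hp h) (fun p hp h => key p hp h)
  · intro p hp
    exact Or.inl (le_of_lt (show 0 < sg p from hp))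
  · intro p hp q hq h
    have h1 := congrArg Complex.re h
    have h2 := congrArg Complex.im h
    simp only [hre, him] at h1 h2
    refine Pil.ext h1 h2 ?_
    have hp' : 0 < sg p := hp
    have hq' : 0 < sg q := hq
    have h3 := abs_sg p
    have h4 := abs_sg q
    rw [abs_of_pos hp'] at h3
    rw [abs_of_pos hq'] at h4
    rw [h3, h4, h1, h2, show x1 p = x1 q by linarith [sum_eq p, sum_eq q]]
  · intro p hp
    have h4 : 0 < cc p := (cc_pos_iff p).2 (ne_of_gt (show 0 < sg p from hp))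
    obtain ⟨h1, h2, h3⟩ := mn_le (x1 p) (x2 p) (x3 p)
    change cc p ≤ _ at h1 h2 h3
    refine ⟨?_, ?_, ?_⟩
    · rw [hre]; linarith
    · rw [him]; linarith
    · rw [hre, him]; linarith [sum_eq p]
  · rintro w ⟨h1, h2, h3⟩
    have h4 : 0 < mn (1 - w.re - w.im) w.re w.im := lt_min (by linarith) (lt_min h1 h2)
    refine ⟨mkP (1 - w.re - w.im) w.re w.im (mn (1 - w.re - w.im) w.re w.im) (by ring)
      (abs_of_pos h4), h4, ?_⟩
    simp only [x2_mkP, x3_mkP]
    exact Complex.re_add_im w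

/-- the affine coordinate on the front face -/
noncomputable def kap : OpenPartialHomeomorph Pil ℂ := exists_kap.choose

theorem mem_kap {p : Pil} : p ∈ kap.source ↔ 0 < sg p := by
  have := exists_kap.choose_spec.1
  change p ∈ exists_kap.choose.source ↔ _
  rw [this]
  rfl

theorem kap_apply (p : Pil) : kap p = (x2 p : ℂ) + x3 p * Complex.I :=
  exists_kap.choose_spec.2.2 p

/-- the affine coordinate on the back face -/
noncomputable def kapm : OpenPartialHomeomorph Pil ℂ := flip.transOpenPartialHomeomorph kap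

theorem mem_kapm {p : Pil} : p ∈ kapm.source ↔ sg p < 0 := by
  change flip p ∈ kap.source ↔ _
  rw [mem_kap, sg_flip, neg_pos]

theorem kapm_apply (p : Pil) : kapm p = (x3 p : ℂ) + x2 p * Complex.I := kap_apply (flip p)

/-! ### linear maps -/

/-- the real linear map with given values at `1` and `i` -/
noncomputable def lin (A B : ℂ) : ℂ →L[ℝ] ℂ :=
  Complex.reCLM.smulRight A + Complex.imCLM.smulRight B

theorem lin_apply (A B u : ℂ) : lin A B u = u.re * A + u.im * B := by simp [lin]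

theorem jac_lin (A B : ℂ) : jac (lin A B) = A.re * B.im - A.im * B.re := by
  simp [jac, lin_apply]

theorem hasFDerivAt_lin (c A B u : ℂ) : HasFDerivAt (fun v => c + lin A B v) (lin A B) u :=
  (lin A B).hasFDerivAt.const_add c

theorem jac_holo {d : ℂ} : jac ((ContinuousLinearMap.toSpanSingleton ℂ d).restrictScalars ℝ) =
    d.re ^ 2 + d.im ^ 2 := by
  simp [jac]
  ring

theorem jac_holo_pos {d : ℂ} (hd : d ≠ 0) :
    0 < jac ((ContinuousLinearMap.toSpanSingleton ℂ d).restrictScalars ℝ) := by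
  rw [jac_holo]
  have := Complex.normSq_pos.2 hd
  rw [Complex.normSq_apply] at this
  nlinarith

theorem hasFDerivAt_holo {h : ℂ → ℂ} {d z : ℂ} (hd : HasDerivAt h d z) :
    HasFDerivAt h ((ContinuousLinearMap.toSpanSingleton ℂ d).restrictScalars ℝ) z :=
  hd.hasFDerivAt.restrictScalars ℝ

theorem exists_pow_lin {m : ℕ} (hm : 1 ≤ m) {c A B u : ℂ} (h0 : c + lin A B u ≠ 0)
    (hJ : 0 < A.re * B.im - A.im * B.re) :
    ∃ L : ℂ →L[ℝ] ℂ, HasFDerivAt (fun v => (c + lin A B v) ^ m) L u ∧ 0 < jac L := by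
  have h1 := hasFDerivAt_holo (hasDerivAt_pow m (c + lin A B u))
  refine ⟨_, h1.comp u (hasFDerivAt_lin c A B u), ?_⟩
  rw [jac_comp, jac_lin]
  refine mul_pos (jac_holo_pos ?_) hJ
  have : (m : ℂ) ≠ 0 := by exact_mod_cast (by omega : m ≠ 0)
  exact mul_ne_zero this (pow_ne_zero _ h0)

/-! ### good charts -/

/-- the generic points -/
def Om : Set Pil := {p | sg p ≠ 0 ∧ x1 p ≠ x2 p ∧ x2 p ≠ x3 p ∧ x1 p ≠ x3 p}

def PosAt (κ φ : OpenPartialHomeomorph Pil ℂ) (p : Pil) : Prop :=
  ∃ L : ℂ →L[ℝ] ℂ, HasFDerivAt (fun u => φ (κ.symm u)) L (κ p) ∧ 0 < jac L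

/-- at the generic points the chart has positive Jacobian with respect to the affine coordinates of
the faces -/
def Good (φ : OpenPartialHomeomorph Pil ℂ) : Prop :=
  ∀ p ∈ φ.source, p ∈ Om → (p ∈ kap.source → PosAt kap φ p) ∧ (p ∈ kapm.source → PosAt kapm φ p)

theorem posAt_of {κ φ : OpenPartialHomeomorph Pil ℂ} {p : Pil} (hp : p ∈ κ.source) {V : Set Pil}
    (hV : V ∈ 𝓝 p) {G : ℂ → ℂ} {L : ℂ →L[ℝ] ℂ} (hG : HasFDerivAt G L (κ p)) (hJ : 0 < jac L)
    (h : ∀ q ∈ V, q ∈ κ.source → φ q = G (κ q)) : PosAt κ φ p := by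
  refine ⟨L, hG.congr_of_eventuallyEq ?_, hJ⟩
  have h1 : ∀ᶠ u in 𝓝 (κ p), u ∈ κ.target := κ.open_target.mem_nhds (κ.map_source hp)
  have h2 : ∀ᶠ u in 𝓝 (κ p), κ.symm u ∈ V := (κ.tendsto_symm hp) hV
  filter_upwards [h1, h2] with u hu hu'
  rw [h _ hu' (κ.map_target hu), κ.right_inv hu]

theorem mem_Om_rot {p : Pil} (h : p ∈ Om) : rot p ∈ Om :=
  ⟨h.1, by simpa using h.2.2.1, by simpa using h.2.2.2.symm, by simpa using h.2.1.symm⟩

theorem mem_Om_flip {p : Pil} (h : p ∈ Om) : flip p ∈ Om :=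
  ⟨neg_ne_zero.2 h.1, by simpa using h.2.2.2, by simpa using h.2.2.1.symm, by simpa using h.2.1⟩

theorem Good.rot {φ : OpenPartialHomeomorph Pil ℂ} (h : Good φ) :
    Good (rot.transOpenPartialHomeomorph φ) := by
  intro p hp hO
  have hp' : Bary.rot p ∈ φ.source := hp
  obtain ⟨h1, h2⟩ := h _ hp' (mem_Om_rot hO)
  constructor
  · intro hk
    have hk' : Bary.rot p ∈ kap.source := by rw [mem_kap] at hk ⊢; exact hk
    obtain ⟨L, hL, hJ⟩ := h1 hk'
    have e : ∀ q : Pil, kap (Bary.rot q) = Complex.I + lin (-Complex.I) (1 - Complex.I) (kap q) := by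
      intro q
      rw [kap_apply, kap_apply, lin_apply, re_add_im_aux, im_add_im_aux, x2_rot, x3_rot,
        show x1 q = 1 - x2 q - x3 q by linarith [sum_eq q]]
      push_cast
      ring
    rw [e p] at hL
    refine posAt_of hk univ_mem (hL.comp (kap p) (hasFDerivAt_lin _ _ _ _)) ?_ ?_
    · rw [jac_comp, jac_lin]
      refine mul_pos hJ ?_
      simp
    · intro q _ hq
      have hq' : Bary.rot q ∈ kap.source := by rw [mem_kap] at hq ⊢; exact hq
      change φ (Bary.rot q) = φ (kap.symm (_ + _))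
      rw [← e q, kap.left_inv hq']
  · intro hk
    have hk' : Bary.rot p ∈ kapm.source := by rw [mem_kapm] at hk ⊢; exact hk
    obtain ⟨L, hL, hJ⟩ := h2 hk'
    have e : ∀ q : Pil, kapm (Bary.rot q) = 1 + lin (-1 + Complex.I) (-1) (kapm q) := by
      intro q
      rw [kapm_apply, kapm_apply, lin_apply, re_add_im_aux, im_add_im_aux, x2_rot, x3_rot,
        show x1 q = 1 - x2 q - x3 q by linarith [sum_eq q]]
      push_cast
      ring
    rw [e p] at hL
    refine posAt_of hk univ_mem (hL.comp (kapm p) (hasFDerivAt_lin _ _ _ _)) ?_ ?_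
    · rw [jac_comp, jac_lin]
      refine mul_pos hJ ?_
      simp
    · intro q _ hq
      have hq' : Bary.rot q ∈ kapm.source := by rw [mem_kapm] at hq ⊢; exact hq
      change φ (Bary.rot q) = φ (kapm.symm (_ + _))
      rw [← e q, kapm.left_inv hq']

theorem Good.flip {φ : OpenPartialHomeomorph Pil ℂ} (h : Good φ) :
    Good (flip.transOpenPartialHomeomorph φ) := by
  intro p hp hO
  have hp' : Bary.flip p ∈ φ.source := hp
  obtain ⟨h1, h2⟩ := h _ hp' (mem_Om_flip hO)
  constructor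
  · intro hk
    have hk' : Bary.flip p ∈ kapm.source := by
      rw [mem_kap] at hk; rw [mem_kapm, sg_flip]; linarith
    obtain ⟨L, hL, hJ⟩ := h2 hk'
    have e : ∀ q : Pil, kapm (Bary.flip q) = kap q := by
      intro q
      rw [kapm_apply, kap_apply, x2_flip, x3_flip]
    rw [e p] at hL
    refine posAt_of hk univ_mem hL hJ ?_
    intro q _ hq
    have hq' : Bary.flip q ∈ kapm.source := by
      rw [mem_kap] at hq; rw [mem_kapm, sg_flip]; linarith
    change φ (Bary.flip q) = φ (kapm.symm (kap q))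
    rw [← e q, kapm.left_inv hq']
  · intro hk
    have hk' : Bary.flip p ∈ kap.source := by
      rw [mem_kapm] at hk; rw [mem_kap, sg_flip]; linarith
    obtain ⟨L, hL, hJ⟩ := h1 hk'
    have e : ∀ q : Pil, kap (Bary.flip q) = kapm q := by
      intro q
      rw [kapm_apply, kap_apply, x2_flip, x3_flip]
    rw [e p] at hL
    refine posAt_of hk univ_mem hL hJ ?_
    intro q _ hq
    have hq' : Bary.flip q ∈ kap.source := by
      rw [mem_kapm] at hq; rw [mem_kap, sg_flip]; linarith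
    change φ (Bary.flip q) = φ (kap.symm (kapm q))
    rw [← e q, kap.left_inv hq']

/-- composition with a holomorphic map -/
theorem Good.holo {φ : OpenPartialHomeomorph Pil ℂ} (hφ : Good φ) (h : OpenPartialHomeomorph ℂ ℂ)
    (hd : ∀ z ∈ h.source, ∃ d : ℂ, d ≠ 0 ∧ HasDerivAt h d z) : Good (φ.trans h) := by
  intro p hp hO
  have hp1 : p ∈ φ.source := hp.1
  have hp2 : φ p ∈ h.source := hp.2
  obtain ⟨d, hd0, hd'⟩ := hd _ hp2
  obtain ⟨h1, h2⟩ := hφ p hp1 hO
  have key : ∀ κ : OpenPartialHomeomorph Pil ℂ, p ∈ κ.source → PosAt κ φ p →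
      PosAt κ (φ.trans h) p := by
    intro κ hκ hpos
    obtain ⟨L, hL, hJ⟩ := hpos
    have h3 : φ (κ.symm (κ p)) = φ p := by rw [κ.left_inv hκ]
    have h4 : HasFDerivAt h ((ContinuousLinearMap.toSpanSingleton ℂ d).restrictScalars ℝ)
        (φ (κ.symm (κ p))) := by
      rw [h3]; exact hasFDerivAt_holo hd'
    have h5 := HasFDerivAt.comp (g := h) (f := fun u => φ (κ.symm u)) (κ p) h4 hL
    refine ⟨_, h5, ?_⟩
    rw [jac_comp]
    exact mul_pos (jac_holo_pos hd0) hJ
  exact ⟨fun hk => key _ hk (h1 hk), fun hk => key _ hk (h2 hk)⟩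

/-! ### generic points are dense -/

theorem exists_Om (p : Pil) {W : Set Pil} (hW : W ∈ 𝓝 p) : ∃ q ∈ W, q ∈ Om := by
  -- the side on which we move
  obtain ⟨σ, hσ, hσp⟩ : ∃ σ : ℝ, |σ| = 1 ∧ sg p = σ * cc p := by
    rcases le_total 0 (sg p) with h | h
    · exact ⟨1, by simp, by rw [← abs_sg', abs_of_nonneg h, one_mul]⟩
    · exact ⟨-1, by simp, by rw [← abs_sg', abs_of_nonpos h]; ring⟩
  obtain ⟨n1, n2, n3⟩ := x_nonneg p
  let a : ℝ → ℝ := fun t => (1 - t) * x1 p + t * (1 / 2)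
  let b : ℝ → ℝ := fun t => (1 - t) * x2 p + t * (1 / 3)
  let c : ℝ → ℝ := fun t => (1 - t) * x3 p + t * (1 / 6)
  have hsum : ∀ t, a t + b t + c t = 1 := by
    intro t
    simp only [a, b, c]
    linear_combination (1 - t) * sum_eq p
  have ha : Continuous a := by simp only [a]; fun_prop
  have hb : Continuous b := by simp only [b]; fun_prop
  have hc : Continuous c := by simp only [c]; fun_prop
  let r : ℝ → ℝ × ℝ × ℝ := fun t => (b t, c t, σ * mn (a t) (b t) (c t))
  have hr : Continuous r := by simp only [r]; fun_prop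
  have hr0 : r 0 = p.1 := by
    have e1 : a 0 = x1 p := by simp [a]
    have e2 : b 0 = x2 p := by simp [b]
    have e3 : c 0 = x3 p := by simp [c]
    simp only [r, e1, e2, e3]
    exact Prod.ext rfl (Prod.ext rfl hσp.symm)
  obtain ⟨W', hW', hWW⟩ := mem_nhds_subtype _ _ _ |>.1 hW
  have h1 : ∀ᶠ t : ℝ in 𝓝[>] 0, r t ∈ W' := by
    refine nhdsWithin_le_nhds (hr.continuousAt ?_)
    rw [hr0]
    exact hW'
  have h2 : ∀ᶠ t : ℝ in 𝓝[>] 0, 0 < t := self_mem_nhdsWithin
  have h3 : ∀ᶠ t : ℝ in 𝓝[>] 0, t < 1 := nhdsWithin_le_nhds (Iio_mem_nhds one_pos)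
  have hne : ∀ A B : ℝ, B ≠ 0 → ∀ᶠ t : ℝ in 𝓝[>] 0, (1 - t) * A + t * B ≠ 0 := by
    intro A B hB
    by_cases hA : A = 0
    · filter_upwards [h2] with t ht
      rw [hA, mul_zero, zero_add]
      exact mul_ne_zero ht.ne' hB
    · have hcont : Continuous fun t : ℝ => (1 - t) * A + t * B := by fun_prop
      have : (fun t : ℝ => (1 - t) * A + t * B) 0 ≠ 0 := by simpa using hA
      exact nhdsWithin_le_nhds (hcont.continuousAt.eventually_ne this)
  obtain ⟨t, ⟨⟨⟨⟨⟨k1, k2⟩, k3⟩, k4⟩, k5⟩, k6⟩⟩ :=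
    (((((h1.and h2).and h3).and (hne (x1 p - x2 p) (1 / 2 - 1 / 3) (by norm_num))).and
      (hne (x2 p - x3 p) (1 / 3 - 1 / 6) (by norm_num))).and
      (hne (x1 p - x3 p) (1 / 2 - 1 / 6) (by norm_num))).exists
  have ka : 0 < a t := by
    have : 0 ≤ (1 - t) * x1 p := mul_nonneg (by linarith) n1
    simp only [a]; linarith
  have kb : 0 < b t := by
    have : 0 ≤ (1 - t) * x2 p := mul_nonneg (by linarith) n2
    simp only [b]; linarith
  have kc : 0 < c t := by
    have : 0 ≤ (1 - t) * x3 p := mul_nonneg (by linarith) n3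
    simp only [c]; linarith
  have km : 0 < mn (a t) (b t) (c t) := lt_min ka (lt_min kb kc)
  have hσ0 : σ ≠ 0 := by rintro rfl; simp at hσ
  refine ⟨mkP (a t) (b t) (c t) (σ * mn (a t) (b t) (c t)) (hsum t) ?_, hWW ?_, ?_⟩
  · rw [abs_mul, hσ, one_mul, abs_of_pos km]
  · exact k1
  · refine ⟨?_, ?_, ?_, ?_⟩
    · rw [sg_mkP]; exact mul_ne_zero hσ0 km.ne'
    · rw [x1_mkP, x2_mkP]
      intro h
      apply k4
      simp only [a, b] at h
      linarith
    · rw [x2_mkP, x3_mkP]
      intro h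
      apply k5
      simp only [b, c] at h
      linarith
    · rw [x1_mkP, x3_mkP]
      intro h
      apply k6
      simp only [a, c] at h
      linarith

/-! ### transition maps -/

theorem exists_equiv_of_jac {L : ℂ →L[ℝ] ℂ} (hJ : 0 < jac L) :
    ∃ e : ℂ ≃L[ℝ] ℂ, (e : ℂ →L[ℝ] ℂ) = L := by
  have hinj : Function.Injective L := by
    rw [injective_iff_map_eq_zero]
    intro v hv
    rw [apply_eq] at hv
    have h1 := congrArg Complex.re hv
    have h2 := congrArg Complex.im hv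
    simp at h1 h2
    unfold jac at hJ
    have h3 : ((L 1).re * (L Complex.I).im - (L 1).im * (L Complex.I).re) * v.re = 0 := by
      linear_combination (L Complex.I).im * h1 - (L Complex.I).re * h2
    have h4 : ((L 1).re * (L Complex.I).im - (L 1).im * (L Complex.I).re) * v.im = 0 := by
      linear_combination (L 1).re * h2 - (L 1).im * h1
    exact Complex.ext ((mul_eq_zero.1 h3).resolve_left hJ.ne') ((mul_eq_zero.1 h4).resolve_left hJ.ne')
  refine ⟨(LinearEquiv.ofInjectiveEndo (L : ℂ →ₗ[ℝ] ℂ) hinj).toContinuousLinearEquiv, ?_⟩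
  refine ContinuousLinearMap.ext fun v => ?_
  rfl

theorem orientedAt_trans {κ φ ψ : OpenPartialHomeomorph Pil ℂ} {q : Pil} (hκ : q ∈ κ.source)
    (hφ : q ∈ φ.source) (hψ : q ∈ ψ.source) (h1 : PosAt κ φ q) (h2 : PosAt κ ψ q) :
    OrientedAt (φ.symm.trans ψ) (φ q) := by
  obtain ⟨L, hL, hJ⟩ := h1
  obtain ⟨M, hM, hJM⟩ := h2
  obtain ⟨e, he⟩ := exists_equiv_of_jac hJ
  let E : OpenPartialHomeomorph ℂ ℂ := κ.symm.trans φ
  have hE0 : κ q ∈ E.source := ⟨κ.map_source hκ, by
    change κ.symm (κ q) ∈ φ.source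
    rwa [κ.left_inv hκ]⟩
  have hE1 : E (κ q) = φ q := by
    change φ (κ.symm (κ q)) = φ q
    rw [κ.left_inv hκ]
  have hE2 : φ q ∈ E.target := by
    rw [← hE1]; exact E.map_source hE0
  have hE3 : E.symm (φ q) = κ q := by
    rw [← hE1]; exact E.left_inv hE0
  have hE4 : HasFDerivAt E.symm (e.symm : ℂ →L[ℝ] ℂ) (φ q) := by
    refine E.hasFDerivAt_symm hE2 ?_
    rw [hE3, he]
    exact hL
  have hM' : HasFDerivAt (fun u => ψ (κ.symm u)) M (E.symm (φ q)) := by rw [hE3]; exact hM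
  have h3 : HasFDerivAt (φ.symm.trans ψ) (M.comp (e.symm : ℂ →L[ℝ] ℂ)) (φ q) := by
    refine (hM'.comp (φ q) hE4).congr_of_eventuallyEq ?_
    filter_upwards [E.open_target.mem_nhds hE2] with v hv
    change ψ (φ.symm v) = ψ (κ.symm (κ (φ.symm v)))
    have h4 : φ.symm v ∈ κ.source := by
      have : v ∈ φ.target ∧ φ.symm v ∈ κ.symm.target := by
        have h5 := hv
        rw [OpenPartialHomeomorph.trans_target] at h5
        exact h5
      exact this.2
    rw [κ.left_inv h4]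
  refine orientedAt_of_jac h3 ?_ ?_
  · rw [jac_comp]
    refine mul_pos hJM ?_
    have h4 : jac L * jac (e.symm : ℂ →L[ℝ] ℂ) = 1 := by
      rw [← he, ← jac_comp, ← jac_id]
      congr 1
      ext v
      simp
    by_contra hcon
    push Not at hcon
    nlinarith
  · have h5 : φ q ∈ (φ.symm.trans ψ).source := ⟨φ.map_source hφ, by
      change φ.symm (φ q) ∈ ψ.source
      rwa [φ.left_inv hφ]⟩
    filter_upwards [(φ.symm.trans ψ).open_source.mem_nhds h5] with v hv
    exact (φ.symm.trans ψ).continuousAt hv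

theorem Good.orientationPreserving {φ ψ : OpenPartialHomeomorph Pil ℂ} (hφ : Good φ) (hψ : Good ψ) :
    OrientationPreserving (φ.symm.trans ψ) := by
  intro z hz
  refine orientedAt_of_dense (φ.symm.trans ψ).open_source (φ.symm.trans ψ).continuousOn
    (φ.symm.trans ψ).injOn ?_ hz
  intro z hz V hV
  have hz1 : z ∈ φ.target := hz.1
  have hz2 : φ.symm z ∈ ψ.source := hz.2
  have hp : φ.symm z ∈ φ.source := φ.map_target hz1
  have hφz : φ (φ.symm z) = z := φ.right_inv hz1
  have hW : φ.source ∩ φ ⁻¹' (V ∩ (φ.symm.trans ψ).source) ∈ 𝓝 (φ.symm z) := by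
    refine inter_mem (φ.open_source.mem_nhds hp) ((φ.continuousAt hp) ?_)
    rw [hφz]
    exact inter_mem hV ((φ.symm.trans ψ).open_source.mem_nhds hz)
  obtain ⟨q, ⟨hq1, hq2⟩, hqO⟩ := exists_Om _ hW
  refine ⟨φ q, hq2.1, hq2.2, ?_⟩
  have hqψ : q ∈ ψ.source := by
    have : φ.symm (φ q) ∈ ψ.source := hq2.2.2
    rwa [φ.left_inv hq1] at this
  obtain ⟨a1, a2⟩ := hφ q hq1 hqO
  obtain ⟨b1, b2⟩ := hψ q hqψ hqO
  rcases lt_or_gt_of_ne hqO.1 with h | h
  · have hk : q ∈ kapm.source := mem_kapm.2 h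
    exact orientedAt_trans hk hq1 hqψ (a2 hk) (b2 hk)
  · have hk : q ∈ kap.source := mem_kap.2 h
    exact orientedAt_trans hk hq1 hqψ (a1 hk) (b1 hk)

end Pool.Agent.N224.Bary
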