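import Pool.Agent.N224.Bary.Space

set_option autoImplicit false

open Topology Set Filter

namespace Pool.Agent.N224.Bary

/-- the largest of three numbers -/
def mx (x y z : ℝ) : ℝ := max x (max y z)

@[fun_prop]
theorem Continuous.mx {X : Type*} [TopologicalSpace X] {f g h : X → ℝ} (hf : Continuous f)
    (hg : Continuous g) (hh : Continuous h) : Continuous fun x => mx (f x) (g x) (h x) := by
  unfold Bary.mx; fun_prop

/-- largest, middle and smallest coordinate -/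
def ca (p : Pil) : ℝ := mx (x1 p) (x2 p) (x3 p)
def cc (p : Pil) : ℝ := mn (x1 p) (x2 p) (x3 p)
def cb (p : Pil) : ℝ := 1 - ca p - cc p

theorem continuous_ca : Continuous ca := by unfold ca; fun_prop
theorem continuous_cc : Continuous cc := by unfold cc; fun_prop
theorem continuous_cb : Continuous cb := by
  unfold cb
  exact (continuous_const.sub continuous_ca).sub continuous_cc

attribute [fun_prop] continuous_ca continuous_cb continuous_cc

theorem abs_sg' (p : Pil) : |sg p| = cc p := abs_sg p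

/-- the six orders -/
theorem sorted (p : Pil) :
    (x3 p ≤ x2 p ∧ x2 p ≤ x1 p ∧ ca p = x1 p ∧ cb p = x2 p ∧ cc p = x3 p) ∨
    (x2 p ≤ x3 p ∧ x3 p ≤ x1 p ∧ ca p = x1 p ∧ cb p = x3 p ∧ cc p = x2 p) ∨
    (x3 p ≤ x1 p ∧ x1 p ≤ x2 p ∧ ca p = x2 p ∧ cb p = x1 p ∧ cc p = x3 p) ∨
    (x1 p ≤ x3 p ∧ x3 p ≤ x2 p ∧ ca p = x2 p ∧ cb p = x3 p ∧ cc p = x1 p) ∨
    (x2 p ≤ x1 p ∧ x1 p ≤ x3 p ∧ ca p = x3 p ∧ cb p = x1 p ∧ cc p = x2 p) ∨
    (x1 p ≤ x2 p ∧ x2 p ≤ x3 p ∧ ca p = x3 p ∧ cb p = x2 p ∧ cc p = x1 p) := by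
  have hs := sum_eq p
  have key : ∀ {a b c A C : ℝ}, A = a → C = c → a + b + c = 1 → 1 - A - C = b := by
    intros; subst_vars; linarith
  rcases le_total (x1 p) (x2 p) with h12 | h12 <;> rcases le_total (x2 p) (x3 p) with h23 | h23 <;>
    rcases le_total (x1 p) (x3 p) with h13 | h13
  · have e1 : ca p = x3 p := by
      simp only [ca, mx]; rw [max_eq_right h23, max_eq_right h13]
    have e2 : cc p = x1 p := by
      simp only [cc, mn]; rw [min_eq_left h23, min_eq_left h12]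
    exact Or.inr (Or.inr (Or.inr (Or.inr (Or.inr ⟨h12, h23, e1, key e1 e2 (by linarith), e2⟩))))
  · have e1 : ca p = x3 p := by
      simp only [ca, mx]; rw [max_eq_right h23, max_eq_right (h12.trans h23)]
    have e2 : cc p = x1 p := by
      simp only [cc, mn]; rw [min_eq_left h23, min_eq_left h12]
    exact Or.inr (Or.inr (Or.inr (Or.inr (Or.inr ⟨h12, h23, e1, key e1 e2 (by linarith), e2⟩))))
  · have e1 : ca p = x2 p := by
      simp only [ca, mx]; rw [max_eq_left h23, max_eq_right h12]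
    have e2 : cc p = x1 p := by
      simp only [cc, mn]; rw [min_eq_right h23, min_eq_left h13]
    exact Or.inr (Or.inr (Or.inr (Or.inl ⟨h13, h23, e1, key e1 e2 (by linarith), e2⟩)))
  · have e1 : ca p = x2 p := by
      simp only [ca, mx]; rw [max_eq_left h23, max_eq_right h12]
    have e2 : cc p = x3 p := by
      simp only [cc, mn]; rw [min_eq_right h23, min_eq_right h13]
    exact Or.inr (Or.inr (Or.inl ⟨h13, h12, e1, key e1 e2 (by linarith), e2⟩))
  · have e1 : ca p = x3 p := by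
      simp only [ca, mx]; rw [max_eq_right h23, max_eq_right h13]
    have e2 : cc p = x2 p := by
      simp only [cc, mn]; rw [min_eq_left h23, min_eq_right h12]
    exact Or.inr (Or.inr (Or.inr (Or.inr (Or.inl ⟨h12, h13, e1, key e1 e2 (by linarith), e2⟩))))
  · have e1 : ca p = x1 p := by
      simp only [ca, mx]; rw [max_eq_right h23, max_eq_left h13]
    have e2 : cc p = x2 p := by
      simp only [cc, mn]; rw [min_eq_left h23, min_eq_right h12]
    exact Or.inr (Or.inl ⟨h23, h13, e1, key e1 e2 (by linarith), e2⟩)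
  · have e1 : ca p = x1 p := by
      simp only [ca, mx]; rw [max_eq_left h23, max_eq_left h12]
    have e2 : cc p = x3 p := by
      simp only [cc, mn]; rw [min_eq_right h23, min_eq_right (h23.trans h12)]
    exact Or.inl ⟨h23, h12, e1, key e1 e2 (by linarith), e2⟩
  · have e1 : ca p = x1 p := by
      simp only [ca, mx]; rw [max_eq_left h23, max_eq_left h12]
    have e2 : cc p = x3 p := by
      simp only [cc, mn]; rw [min_eq_right h23, min_eq_right (h23.trans h12)]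
    exact Or.inl ⟨h23, h12, e1, key e1 e2 (by linarith), e2⟩

theorem c_order (p : Pil) : 0 ≤ cc p ∧ cc p ≤ cb p ∧ cb p ≤ ca p := by
  obtain ⟨h1, h2, h3⟩ := x_nonneg p
  rcases sorted p with ⟨k1, k2, k3, k4, k5⟩ | ⟨k1, k2, k3, k4, k5⟩ | ⟨k1, k2, k3, k4, k5⟩ |
    ⟨k1, k2, k3, k4, k5⟩ | ⟨k1, k2, k3, k4, k5⟩ | ⟨k1, k2, k3, k4, k5⟩ <;>
  rw [k3, k4, k5] <;> exact ⟨by assumption, by assumption, by assumption⟩

/-- the Vandermonde product of the coordinates: its sign is the sign of the order -/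
def vd (p : Pil) : ℝ := (x1 p - x2 p) * (x2 p - x3 p) * (x1 p - x3 p)

theorem continuous_vd : Continuous vd := by unfold vd; fun_prop

attribute [fun_prop] continuous_vd

/-- the distance of the image from the curve -/
noncomputable def mm (p : Pil) : ℝ := mn (ca p - cb p) (2 * (cb p - cc p)) (3 * cc p)

theorem mm_nonneg (p : Pil) : 0 ≤ mm p := by
  obtain ⟨h1, h2, h3⟩ := c_order p
  exact le_min (by linarith) (le_min (by linarith) (by linarith))

theorem mm_eq_zero_of_vd {p : Pil} (h : sg p * vd p = 0) : mm p = 0 := by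
  refine le_antisymm ?_ (mm_nonneg p)
  obtain ⟨h1, h2, h3⟩ := mn_le (ca p - cb p) (2 * (cb p - cc p)) (3 * cc p)
  change mn (ca p - cb p) (2 * (cb p - cc p)) (3 * cc p) ≤ 0
  rcases mul_eq_zero.1 h with h0 | h0
  · have h4 := abs_sg' p
    rw [h0, abs_zero] at h4
    linarith
  · have h5 : (x1 p = x2 p ∨ x2 p = x3 p) ∨ x1 p = x3 p := by
      unfold vd at h0
      rcases mul_eq_zero.1 h0 with h6 | h6
      · rcases mul_eq_zero.1 h6 with h7 | h7
        · exact Or.inl (Or.inl (by linarith))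
        · exact Or.inl (Or.inr (by linarith))
      · exact Or.inr (by linarith)
    rcases sorted p with ⟨k1, k2, k3, k4, k5⟩ | ⟨k1, k2, k3, k4, k5⟩ | ⟨k1, k2, k3, k4, k5⟩ |
      ⟨k1, k2, k3, k4, k5⟩ | ⟨k1, k2, k3, k4, k5⟩ | ⟨k1, k2, k3, k4, k5⟩ <;>
    rcases h5 with (h5 | h5) | h5 <;> linarith

theorem continuous_mm : Continuous mm := by unfold mm; fun_prop

/-- the signed height of the image -/
noncomputable def ms (p : Pil) : ℝ := if 0 ≤ sg p * vd p then mm p else -mm p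

theorem abs_ms (p : Pil) : |ms p| = mm p := by
  unfold ms
  split_ifs
  · exact abs_of_nonneg (mm_nonneg p)
  · rw [abs_neg]; exact abs_of_nonneg (mm_nonneg p)

theorem continuous_ms : Continuous ms := by
  unfold ms
  refine Continuous.if_le continuous_mm continuous_mm.neg continuous_const (by fun_prop) ?_
  intro p hp
  rw [mm_eq_zero_of_vd hp.symm, neg_zero]

/-- The barycentric subdivision map: each of the twelve triangles of the barycentric subdivision of
the two faces is mapped affinely onto a face; the vertices `e₁, e₂, e₃` go to `e₁`, the midpoints of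
the edges to `e₂` and the barycentres to `e₃`. -/
noncomputable def bf (p : Pil) : Pil :=
  mkP (ca p - cb p) (2 * (cb p - cc p)) (3 * cc p) (ms p) (by unfold cb; ring) (abs_ms p)

@[simp] theorem x1_bf (p : Pil) : x1 (bf p) = ca p - cb p := x1_mkP _ _
@[simp] theorem x2_bf (p : Pil) : x2 (bf p) = 2 * (cb p - cc p) := rfl
@[simp] theorem x3_bf (p : Pil) : x3 (bf p) = 3 * cc p := rfl
@[simp] theorem sg_bf (p : Pil) : sg (bf p) = ms p := rfl

theorem continuous_bf : Continuous bf := by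
  refine Continuous.subtype_mk ?_ _
  exact (by fun_prop : Continuous fun p => 2 * (cb p - cc p)).prodMk
    ((by fun_prop : Continuous fun p => 3 * cc p).prodMk continuous_ms)

/-! ### the curve -/

theorem sg_bf_eq_zero {p : Pil} (h : sg p = 0) : sg (bf p) = 0 := by
  have h1 : mm p = 0 := mm_eq_zero_of_vd (by rw [h, zero_mul])
  have h2 := abs_ms p
  rw [h1] at h2
  exact abs_eq_zero.1 h2

theorem ms_ne_zero {p : Pil} (h : sg (bf p) ≠ 0) :
    sg p ≠ 0 ∧ x1 p ≠ x2 p ∧ x2 p ≠ x3 p ∧ x1 p ≠ x3 p := by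
  have h1 : sg p * vd p ≠ 0 := by
    intro h0
    apply h
    have h1 : mm p = 0 := mm_eq_zero_of_vd h0
    have h2 := abs_ms p
    rw [h1] at h2
    exact abs_eq_zero.1 h2
  have h2 : sg p ≠ 0 := left_ne_zero_of_mul h1
  have h3 : vd p ≠ 0 := right_ne_zero_of_mul h1
  unfold vd at h3
  have h4 := right_ne_zero_of_mul h3
  have h5 := left_ne_zero_of_mul h3
  exact ⟨h2, sub_ne_zero.1 (left_ne_zero_of_mul h5), sub_ne_zero.1 (right_ne_zero_of_mul h5),
    sub_ne_zero.1 h4⟩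

/-! ### contraction of the inverse branches -/

theorem contract {A B C : ℝ} (h : A + B + C = 0) :
    |A| + |B| + |C| ≤ 2 / 3 * (|A - B| + |2 * (B - C)| + |3 * C|) := by
  rcases abs_cases A with h1 | h1 <;> rcases abs_cases B with h2 | h2 <;>
    rcases abs_cases C with h3 | h3 <;> rcases abs_cases (A - B) with h4 | h4 <;>
    rcases abs_cases (2 * (B - C)) with h5 | h5 <;> rcases abs_cases (3 * C) with h6 | h6 <;>
    linarith

/-- the distance in the triangle -/
def dd (p q : Pil) : ℝ := |x1 p - x1 q| + |x2 p - x2 q| + |x3 p - x3 q|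

theorem dd_le_two (p q : Pil) : dd p q ≤ 2 := by
  unfold dd
  obtain ⟨h1, h2, h3⟩ := x_nonneg p
  obtain ⟨h1', h2', h3'⟩ := x_nonneg q
  have hs := sum_eq p
  have hs' := sum_eq q
  have k1 : |x1 p - x1 q| ≤ x1 p + x1 q := abs_le.2 ⟨by linarith, by linarith⟩
  have k2 : |x2 p - x2 q| ≤ x2 p + x2 q := abs_le.2 ⟨by linarith, by linarith⟩
  have k3 : |x3 p - x3 q| ≤ x3 p + x3 q := abs_le.2 ⟨by linarith, by linarith⟩
  linarith

theorem dd_contract {p q : Pil} (h12 : 0 < (x1 p - x2 p) * (x1 q - x2 q))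
    (h23 : 0 < (x2 p - x3 p) * (x2 q - x3 q)) (h13 : 0 < (x1 p - x3 p) * (x1 q - x3 q)) :
    dd p q ≤ 2 / 3 * dd (bf p) (bf q) := by
  have hs := sum_eq p
  have hs' := sum_eq q
  have c12 : (x1 p < x2 p → x1 q < x2 q) ∧ (x2 p < x1 p → x2 q < x1 q) := by
    constructor <;> intro h <;> by_contra hcon <;> nlinarith
  have c23 : (x2 p < x3 p → x2 q < x3 q) ∧ (x3 p < x2 p → x3 q < x2 q) := by
    constructor <;> intro h <;> by_contra hcon <;> nlinarith
  have c13 : (x1 p < x3 p → x1 q < x3 q) ∧ (x3 p < x1 p → x3 q < x1 q) := by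
    constructor <;> intro h <;> by_contra hcon <;> nlinarith
  have n12 : x1 p ≠ x2 p := by rintro h; rw [h] at h12; simp at h12
  have n23 : x2 p ≠ x3 p := by rintro h; rw [h] at h23; simp at h23
  have n13 : x1 p ≠ x3 p := by rintro h; rw [h] at h13; simp at h13
  unfold dd
  simp only [x1_bf, x2_bf, x3_bf]
  have e1 : ∀ b c b' c' : ℝ, 2 * (b - c) - 2 * (b' - c') = 2 * ((b - b') - (c - c')) := by
    intros; ring
  have e2 : ∀ c c' : ℝ, 3 * c - 3 * c' = 3 * (c - c') := by intros; ring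
  have e3 : ∀ a b a' b' : ℝ, a - b - (a' - b') = (a - a') - (b - b') := by intros; ring
  rw [e1, e2, e3]
  rcases sorted p with ⟨k1, k2, k3, k4, k5⟩ | ⟨k1, k2, k3, k4, k5⟩ | ⟨k1, k2, k3, k4, k5⟩ |
    ⟨k1, k2, k3, k4, k5⟩ | ⟨k1, k2, k3, k4, k5⟩ | ⟨k1, k2, k3, k4, k5⟩
  · have l1 := c23.2 (lt_of_le_of_ne k1 n23.symm)
    have l2 := c12.2 (lt_of_le_of_ne k2 n12.symm)
    rcases sorted q with ⟨m1, m2, m3, m4, m5⟩ | ⟨m1, m2, m3, m4, m5⟩ | ⟨m1, m2, m3, m4, m5⟩ |
      ⟨m1, m2, m3, m4, m5⟩ | ⟨m1, m2, m3, m4, m5⟩ | ⟨m1, m2, m3, m4, m5⟩ <;> try (exfalso; linarith)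
    rw [k3, k4, k5, m3, m4, m5]
    have := contract (A := x1 p - x1 q) (B := x2 p - x2 q) (C := x3 p - x3 q) (by linarith)
    linarith
  · have l1 := c23.1 (lt_of_le_of_ne k1 n23)
    have l2 := c13.2 (lt_of_le_of_ne k2 n13.symm)
    rcases sorted q with ⟨m1, m2, m3, m4, m5⟩ | ⟨m1, m2, m3, m4, m5⟩ | ⟨m1, m2, m3, m4, m5⟩ |
      ⟨m1, m2, m3, m4, m5⟩ | ⟨m1, m2, m3, m4, m5⟩ | ⟨m1, m2, m3, m4, m5⟩ <;> try (exfalso; linarith)
    rw [k3, k4, k5, m3, m4, m5]
    have := contract (A := x1 p - x1 q) (B := x3 p - x3 q) (C := x2 p - x2 q) (by linarith)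
    linarith
  · have l1 := c13.2 (lt_of_le_of_ne k1 n13.symm)
    have l2 := c12.1 (lt_of_le_of_ne k2 n12)
    rcases sorted q with ⟨m1, m2, m3, m4, m5⟩ | ⟨m1, m2, m3, m4, m5⟩ | ⟨m1, m2, m3, m4, m5⟩ |
      ⟨m1, m2, m3, m4, m5⟩ | ⟨m1, m2, m3, m4, m5⟩ | ⟨m1, m2, m3, m4, m5⟩ <;> try (exfalso; linarith)
    rw [k3, k4, k5, m3, m4, m5]
    have := contract (A := x2 p - x2 q) (B := x1 p - x1 q) (C := x3 p - x3 q) (by linarith)
    linarith
  · have l1 := c13.1 (lt_of_le_of_ne k1 n13)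
    have l2 := c23.2 (lt_of_le_of_ne k2 n23.symm)
    rcases sorted q with ⟨m1, m2, m3, m4, m5⟩ | ⟨m1, m2, m3, m4, m5⟩ | ⟨m1, m2, m3, m4, m5⟩ |
      ⟨m1, m2, m3, m4, m5⟩ | ⟨m1, m2, m3, m4, m5⟩ | ⟨m1, m2, m3, m4, m5⟩ <;> try (exfalso; linarith)
    rw [k3, k4, k5, m3, m4, m5]
    have := contract (A := x2 p - x2 q) (B := x3 p - x3 q) (C := x1 p - x1 q) (by linarith)
    linarith
  · have l1 := c12.2 (lt_of_le_of_ne k1 n12.symm)
    have l2 := c13.1 (lt_of_le_of_ne k2 n13)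
    rcases sorted q with ⟨m1, m2, m3, m4, m5⟩ | ⟨m1, m2, m3, m4, m5⟩ | ⟨m1, m2, m3, m4, m5⟩ |
      ⟨m1, m2, m3, m4, m5⟩ | ⟨m1, m2, m3, m4, m5⟩ | ⟨m1, m2, m3, m4, m5⟩ <;> try (exfalso; linarith)
    rw [k3, k4, k5, m3, m4, m5]
    have := contract (A := x3 p - x3 q) (B := x1 p - x1 q) (C := x2 p - x2 q) (by linarith)
    linarith
  · have l1 := c12.1 (lt_of_le_of_ne k1 n12)
    have l2 := c23.1 (lt_of_le_of_ne k2 n23)
    rcases sorted q with ⟨m1, m2, m3, m4, m5⟩ | ⟨m1, m2, m3, m4, m5⟩ | ⟨m1, m2, m3, m4, m5⟩ |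
      ⟨m1, m2, m3, m4, m5⟩ | ⟨m1, m2, m3, m4, m5⟩ | ⟨m1, m2, m3, m4, m5⟩ <;> try (exfalso; linarith)
    rw [k3, k4, k5, m3, m4, m5]
    have := contract (A := x3 p - x3 q) (B := x2 p - x2 q) (C := x1 p - x1 q) (by linarith)
    linarith

/-- a nonvanishing function has constant sign on a connected set -/
theorem same_sign {K : Set Pil} (hK : IsPreconnected K) {u : Pil → ℝ} (hu : Continuous u)
    (h0 : ∀ p ∈ K, u p ≠ 0) {p q : Pil} (hp : p ∈ K) (hq : q ∈ K) : 0 < u p * u q := by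
  have h1 := (hK.image u hu.continuousOn).ordConnected
  have hp' := mem_image_of_mem u hp
  have hq' := mem_image_of_mem u hq
  by_contra hcon
  push Not at hcon
  have h2 : (0 : ℝ) ∈ u '' K := by
    rcases le_total (u p) (u q) with h | h
    · refine h1.out hp' hq' ⟨?_, ?_⟩
      · by_contra h3; push Not at h3; nlinarith
      · by_contra h3; push Not at h3; nlinarith
    · refine h1.out hq' hp' ⟨?_, ?_⟩
      · by_contra h3; push Not at h3; nlinarith
      · by_contra h3; push Not at h3; nlinarith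
  obtain ⟨r, hr, hr0⟩ := h2
  exact h0 r hr hr0

theorem sg_iterate {p : Pil} (h : sg p = 0) (n : ℕ) : sg (bf^[n] p) = 0 := by
  induction n with
  | zero => exact h
  | succ n ih => rw [Function.iterate_succ_apply']; exact sg_bf_eq_zero ih

theorem dd_le_of_connected {n : ℕ} : ∀ {K : Set Pil}, IsPreconnected K →
    K ⊆ bf^[n] ⁻¹' Curᶜ → ∀ p ∈ K, ∀ q ∈ K, dd p q ≤ 2 * (2 / 3) ^ n := by
  induction n with
  | zero =>
    intro K _ _ p _ q _
    simpa using dd_le_two p q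
  | succ n ih =>
    intro K hK hsub p hp q hq
    have h1 : ∀ r ∈ K, sg (bf r) ≠ 0 := by
      intro r hr h0
      have h2 : bf^[n + 1] r ∈ Curᶜ := hsub hr
      apply h2
      rw [Function.iterate_succ_apply]
      exact sg_iterate h0 n
    have h2 : dd (bf p) (bf q) ≤ 2 * (2 / 3) ^ n := by
      refine ih (hK.image bf continuous_bf.continuousOn) ?_ _ (mem_image_of_mem _ hp) _
        (mem_image_of_mem _ hq)
      rintro _ ⟨r, hr, rfl⟩
      have := hsub hr
      rwa [mem_preimage, Function.iterate_succ_apply] at this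
    have h3 := dd_contract (p := p) (q := q)
      (same_sign hK (u := fun r => x1 r - x2 r) (by fun_prop)
        (fun r hr => sub_ne_zero.2 (ms_ne_zero (h1 r hr)).2.1) hp hq)
      (same_sign hK (u := fun r => x2 r - x3 r) (by fun_prop)
        (fun r hr => sub_ne_zero.2 (ms_ne_zero (h1 r hr)).2.2.1) hp hq)
      (same_sign hK (u := fun r => x1 r - x3 r) (by fun_prop)
        (fun r hr => sub_ne_zero.2 (ms_ne_zero (h1 r hr)).2.2.2) hp hq)
    calc dd p q ≤ 2 / 3 * dd (bf p) (bf q) := h3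
      _ ≤ 2 / 3 * (2 * (2 / 3) ^ n) := by linarith
      _ = 2 * (2 / 3) ^ (n + 1) := by ring

theorem dist_le_dd {p q : Pil} (h : 0 < sg p * sg q) : dist p q ≤ dd p q := by
  have h1 := abs_nonneg (x1 p - x1 q)
  have h2 := abs_nonneg (x2 p - x2 q)
  have h3 := abs_nonneg (x3 p - x3 q)
  have h4 : |sg p - sg q| ≤ dd p q := by
    have e1 : |sg p - sg q| = |cc p - cc q| := by
      rw [← abs_sg', ← abs_sg']
      rcases lt_or_gt_of_ne (left_ne_zero_of_mul h.ne') with k | k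
      · have k' : sg q < 0 := by by_contra hc; nlinarith
        rw [abs_of_neg k, abs_of_neg k', ← abs_neg]
        congr 1
        ring
      · have k' : 0 < sg q := by by_contra hc; nlinarith
        rw [abs_of_pos k, abs_of_pos k']
    rw [e1]
    obtain ⟨a1, a2, a3⟩ := mn_le (x1 p) (x2 p) (x3 p)
    obtain ⟨b1, b2, b3⟩ := mn_le (x1 q) (x2 q) (x3 q)
    have k1 := abs_le.1 (le_refl |x1 p - x1 q|)
    have k2 := abs_le.1 (le_refl |x2 p - x2 q|)
    have k3 := abs_le.1 (le_refl |x3 p - x3 q|)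
    change cc p ≤ _ at a1 a2 a3
    change cc q ≤ _ at b1 b2 b3
    unfold dd
    rw [abs_le]
    constructor
    · rcases sorted p with ⟨-, -, -, -, k⟩ | ⟨-, -, -, -, k⟩ | ⟨-, -, -, -, k⟩ |
        ⟨-, -, -, -, k⟩ | ⟨-, -, -, -, k⟩ | ⟨-, -, -, -, k⟩ <;> linarith
    · rcases sorted q with ⟨-, -, -, -, k⟩ | ⟨-, -, -, -, k⟩ | ⟨-, -, -, -, k⟩ |
        ⟨-, -, -, -, k⟩ | ⟨-, -, -, -, k⟩ | ⟨-, -, -, -, k⟩ <;> linarith
  change dist p.1 q.1 ≤ _
  rw [Prod.dist_eq, Prod.dist_eq]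
  refine max_le ?_ (max_le ?_ ?_)
  · rw [Real.dist_eq]
    change |x2 p - x2 q| ≤ _
    unfold dd
    linarith
  · rw [Real.dist_eq]
    change |x3 p - x3 q| ≤ _
    unfold dd
    linarith
  · rw [Real.dist_eq]
    exact h4

theorem mesh_le (n : ℕ) : mesh bf n Cur ≤ ENNReal.ofReal (2 * (2 / 3) ^ n) := by
  refine iSup₂_le fun x hx => ?_
  refine Metric.ediam_le fun p hp q hq => ?_
  have hK : IsPreconnected (connectedComponentIn (bf^[n] ⁻¹' Curᶜ) x) :=
    isPreconnected_connectedComponentIn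
  have hsub : connectedComponentIn (bf^[n] ⁻¹' Curᶜ) x ⊆ bf^[n] ⁻¹' Curᶜ :=
    connectedComponentIn_subset _ _
  have h0 : ∀ r ∈ connectedComponentIn (bf^[n] ⁻¹' Curᶜ) x, sg r ≠ 0 := by
    intro r hr h0
    exact hsub hr (sg_iterate h0 n)
  rw [edist_dist]
  exact ENNReal.ofReal_le_ofReal ((dist_le_dd (same_sign hK continuous_sg h0 hp hq)).trans
    (dd_le_of_connected hK hsub p hp q hq))

theorem tendsto_mesh : Tendsto (fun n => mesh bf n Cur) atTop (𝓝 0) := by
  refine tendsto_of_tendsto_of_tendsto_of_le_of_le tendsto_const_nhds ?_ (fun n => bot_le)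
    mesh_le
  have h1 : Tendsto (fun n : ℕ => (2 : ℝ) * (2 / 3) ^ n) atTop (𝓝 (2 * 0)) :=
    (tendsto_pow_atTop_nhds_zero_of_lt_one (by norm_num) (by norm_num)).const_mul 2
  rw [mul_zero] at h1
  have h2 := ENNReal.tendsto_ofReal h1
  rwa [ENNReal.ofReal_zero] at h2

end Pool.Agent.N224.Bary
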