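import Mathlib

set_option autoImplicit false

open Topology Set Filter

namespace Pool.Agent.N224.Bary

/-! ### continuous functions on intervals -/

/-- at an interior maximum a continuous function is not locally injective -/
theorem not_inj_of_max {h : ℝ → ℝ} {a b c : ℝ} (hc : ContinuousOn h (Icc a b)) (h1 : a < c)
    (h2 : c < b) (hmax : ∀ t ∈ Icc a b, h t ≤ h c) {δ : ℝ} (hδ : 0 < δ) :
    ∃ t ∈ Icc a b, ∃ t' ∈ Icc a b, |t - c| < δ ∧ |t' - c| < δ ∧ t ≠ t' ∧ h t = h t' := by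
  obtain ⟨e, he0, he1, he2, he3⟩ : ∃ e, 0 < e ∧ e < δ ∧ a ≤ c - e ∧ c + e ≤ b := by
    refine ⟨min (δ / 2) (min (c - a) (b - c)), ?_, ?_, ?_, ?_⟩
    · exact lt_min (by linarith) (lt_min (by linarith) (by linarith))
    · exact (min_le_left _ _).trans_lt (by linarith)
    · have := (min_le_right (δ / 2) (min (c - a) (b - c))).trans (min_le_left _ _)
      linarith
    · have := (min_le_right (δ / 2) (min (c - a) (b - c))).trans (min_le_right _ _)
      linarith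
  have hl : ContinuousOn h (Icc (c - e) c) := hc.mono (Icc_subset_Icc he2 h2.le)
  have hr : ContinuousOn h (Icc c (c + e)) := hc.mono (Icc_subset_Icc h1.le he3)
  have hL := hmax (c - e) ⟨he2, by linarith⟩
  have hR := hmax (c + e) ⟨by linarith, he3⟩
  have hcm : c ∈ Icc a b := ⟨h1.le, h2.le⟩
  set y := max (h (c - e)) (h (c + e)) with hy
  have hyc : y ≤ h c := max_le hL hR
  obtain ⟨t, ht, hty⟩ := intermediate_value_Icc (by linarith) hl
    (show y ∈ Icc (h (c - e)) (h c) from ⟨le_max_left _ _, hyc⟩)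
  obtain ⟨t', ht', hty'⟩ := intermediate_value_Icc' (by linarith) hr
    (show y ∈ Icc (h (c + e)) (h c) from ⟨le_max_right _ _, hyc⟩)
  have ht1 : t ∈ Icc a b := ⟨by linarith [ht.1], by linarith [ht.2]⟩
  have ht1' : t' ∈ Icc a b := ⟨by linarith [ht'.1], by linarith [ht'.2]⟩
  have hta : |t - c| < δ := abs_lt.2 ⟨by linarith [ht.1], by linarith [ht.2]⟩
  have hta' : |t' - c| < δ := abs_lt.2 ⟨by linarith [ht'.1], by linarith [ht'.2]⟩
  by_cases hne : t = t'
  · -- then both are `c`, and the value at `c` is attained at an end point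
    have htc : t = c := le_antisymm ht.2 (by rw [hne]; exact ht'.1)
    have hyc' : h c = y := by rw [← hty, htc]
    rcases max_choice (h (c - e)) (h (c + e)) with hm | hm
    · refine ⟨c - e, ⟨he2, by linarith⟩, c, hcm, ?_, ?_, by linarith, ?_⟩
      · rw [abs_lt]; constructor <;> linarith
      · simpa using hδ
      · rw [hyc', hy, hm]
    · refine ⟨c + e, ⟨by linarith, he3⟩, c, hcm, ?_, ?_, by linarith, ?_⟩
      · rw [abs_lt]; constructor <;> linarith
      · simpa using hδ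
      · rw [hyc', hy, hm]
  · exact ⟨t, ht1, t', ht1', hta, hta', hne, by rw [hty, hty']⟩

/-- between two points with the same value there is a point where the function is not locally
injective -/
theorem exists_not_inj {h : ℝ → ℝ} {a b : ℝ} (hab : a < b) (hc : ContinuousOn h (Icc a b))
    (he : h a = h b) : ∃ c ∈ Ioo a b, ∀ δ > 0,
      ∃ t ∈ Icc a b, ∃ t' ∈ Icc a b, |t - c| < δ ∧ |t' - c| < δ ∧ t ≠ t' ∧ h t = h t' := by
  by_cases hcon : ∀ t ∈ Icc a b, h t = h a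
  · refine ⟨(a + b) / 2, ⟨by linarith, by linarith⟩, fun δ hδ => ?_⟩
    refine not_inj_of_max hc (by linarith) (by linarith) ?_ hδ
    intro t ht
    rw [hcon t ht, hcon ((a + b) / 2) ⟨by linarith, by linarith⟩]
  · push Not at hcon
    obtain ⟨t, ht, hne⟩ := hcon
    obtain ⟨c, hcm, hcmax⟩ := isCompact_Icc.exists_isMaxOn ⟨a, left_mem_Icc.2 hab.le⟩ hc
    obtain ⟨c', hcm', hcmin⟩ := isCompact_Icc.exists_isMinOn ⟨a, left_mem_Icc.2 hab.le⟩ hc
    have hmax : ∀ t ∈ Icc a b, h t ≤ h c := fun t ht => hcmax ht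
    have hmin : ∀ t ∈ Icc a b, h c' ≤ h t := fun t ht => hcmin ht
    rcases lt_or_gt_of_ne hne with hlt | hlt
    · -- the minimum is interior
      have h1 := hmin t ht
      have h2 : a < c' := lt_of_le_of_ne hcm'.1 (by rintro rfl; linarith)
      have h3 : c' < b := lt_of_le_of_ne hcm'.2 (by rintro rfl; linarith)
      refine ⟨c', ⟨h2, h3⟩, fun δ hδ => ?_⟩
      obtain ⟨u, hu, u', hu', e1, e2, e3, e4⟩ := not_inj_of_max (h := fun t => -h t) hc.neg h2 h3
        (fun t ht => by linarith [hmin t ht]) hδ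
      exact ⟨u, hu, u', hu', e1, e2, e3, neg_injective e4⟩
    · have h1 := hmax t ht
      have h2 : a < c := lt_of_le_of_ne hcm.1 (by rintro rfl; linarith)
      have h3 : c < b := lt_of_le_of_ne hcm.2 (by rintro rfl; linarith)
      exact ⟨c, ⟨h2, h3⟩, fun δ hδ => not_inj_of_max hc h2 h3 hmax hδ⟩

/-- a value between is attained on both sides of a strict peak -/
theorem peak {h : ℝ → ℝ} {a b c : ℝ} (hc : ContinuousOn h (Icc a b)) (h1 : a < c) (h2 : c < b)
    (ha : h a < h c) (hb : h b < h c) : ∃ t ∈ Icc a b, ∃ t' ∈ Icc a b, t ≠ t' ∧ h t = h t' := by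
  have hl : ContinuousOn h (Icc a c) := hc.mono (Icc_subset_Icc le_rfl h2.le)
  have hr : ContinuousOn h (Icc c b) := hc.mono (Icc_subset_Icc h1.le le_rfl)
  set y := max (h a) (h b) with hy
  have hyc : y < h c := max_lt ha hb
  obtain ⟨t, ht, hty⟩ := intermediate_value_Icc h1.le hl
    (show y ∈ Icc (h a) (h c) from ⟨le_max_left _ _, hyc.le⟩)
  obtain ⟨t', ht', hty'⟩ := intermediate_value_Icc' h2.le hr
    (show y ∈ Icc (h b) (h c) from ⟨le_max_right _ _, hyc.le⟩)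
  refine ⟨t, ⟨ht.1, ht.2.trans h2.le⟩, t', ⟨h1.le.trans ht'.1, ht'.2⟩, ?_, by rw [hty, hty']⟩
  rintro rfl
  have : t = c := le_antisymm ht.2 ht'.1
  rw [this] at hty
  linarith

/-! ### the rank at an isolated point of non-injectivity -/

theorem injOn_near_aux {G : ℝ × ℝ → ℝ × ℝ} {z₀ : ℝ × ℝ} (hG : ContDiffAt ℝ 1 G z₀)
    (hloc : ∀ᶠ z in 𝓝 z₀, z ≠ z₀ → ∃ U ∈ 𝓝 z, InjOn G U)
    (hne : (ContinuousLinearMap.fst ℝ ℝ ℝ).comp (fderiv ℝ G z₀) ≠ 0) : ∃ U ∈ 𝓝 z₀, InjOn G U := by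
  set D₁ := (ContinuousLinearMap.fst ℝ ℝ ℝ).comp (fderiv ℝ G z₀) with hD
  set α := D₁ (1, 0) with hα
  set β := D₁ (0, 1) with hβ
  have hD1 : ∀ v : ℝ × ℝ, D₁ v = α * v.1 + β * v.2 := by
    intro v
    have : v = v.1 • ((1, 0) : ℝ × ℝ) + v.2 • ((0, 1) : ℝ × ℝ) := by
      ext <;> simp
    conv_lhs => rw [this]
    rw [map_add, map_smul, map_smul, smul_eq_mul, smul_eq_mul, ← hα, ← hβ]
    ring
  have hαβ : 0 < α ^ 2 + β ^ 2 := by
    by_contra hcon
    have h1 : α = 0 := by nlinarith [sq_nonneg α, sq_nonneg β]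
    have h2 : β = 0 := by nlinarith [sq_nonneg α, sq_nonneg β]
    apply hne
    ext v
    ·       simp [hD1, h1, h2]
    ·       simp [hD1, h1, h2]
  let μ : ℝ × ℝ →L[ℝ] ℝ := α • ContinuousLinearMap.snd ℝ ℝ ℝ - β • ContinuousLinearMap.fst ℝ ℝ ℝ
  have hμ : ∀ v : ℝ × ℝ, μ v = α * v.2 - β * v.1 := fun v => by simp [μ]
  let T : ℝ × ℝ →L[ℝ] ℝ × ℝ := D₁.prod μ
  have hT : Function.Injective T := by
    rw [injective_iff_map_eq_zero]
    intro v hv
    have h1 : D₁ v = 0 := congrArg Prod.fst hv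
    have h2 : μ v = 0 := congrArg Prod.snd hv
    rw [hD1] at h1
    rw [hμ] at h2
    have h3 : (α ^ 2 + β ^ 2) * v.1 = 0 := by linear_combination α * h1 - β * h2
    have h4 : (α ^ 2 + β ^ 2) * v.2 = 0 := by linear_combination β * h1 + α * h2
    ext
    · exact (mul_eq_zero.1 h3).resolve_left hαβ.ne'
    · exact (mul_eq_zero.1 h4).resolve_left hαβ.ne'
  let Te : (ℝ × ℝ) ≃L[ℝ] (ℝ × ℝ) :=
    (LinearEquiv.ofInjectiveEndo (T : (ℝ × ℝ) →ₗ[ℝ] (ℝ × ℝ)) hT).toContinuousLinearEquiv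
  have hTe : (Te : (ℝ × ℝ) →L[ℝ] (ℝ × ℝ)) = T := by
    ext v <;> rfl
  let Φ : ℝ × ℝ → ℝ × ℝ := fun z => ((G z).1, μ z)
  have hΦ : HasStrictFDerivAt Φ (Te : (ℝ × ℝ) →L[ℝ] (ℝ × ℝ)) z₀ := by
    rw [hTe]
    have h1 : HasStrictFDerivAt G (fderiv ℝ G z₀) z₀ := hG.hasStrictFDerivAt (by simp)
    exact ((ContinuousLinearMap.fst ℝ ℝ ℝ).hasStrictFDerivAt.comp z₀ h1).prodMk
      μ.hasStrictFDerivAt
  let P := hΦ.toOpenPartialHomeomorph Φ
  have hP : ∀ z, P z = Φ z := fun z => rfl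
  have hz0 : z₀ ∈ P.source := hΦ.mem_toOpenPartialHomeomorph_source
  -- continuity of `G` near `z₀`
  have hGc : ∀ᶠ z in 𝓝 z₀, ContinuousAt G z := by
    have := hG.eventually (by simp)
    exact this.mono fun z hz => hz.continuousAt
  -- a box
  obtain ⟨ε, hε, hbox⟩ : ∃ ε > 0, ∀ s t : ℝ, |s - (Φ z₀).1| < ε → |t - (Φ z₀).2| < ε →
      (s, t) ∈ P.target ∧ ContinuousAt G (P.symm (s, t)) ∧
        (P.symm (s, t) ≠ z₀ → ∃ U ∈ 𝓝 (P.symm (s, t)), InjOn G U) := by
    have h1 : P.target ∈ 𝓝 (Φ z₀) := P.open_target.mem_nhds (P.map_source hz0)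
    have h2 : Tendsto P.symm (𝓝 (Φ z₀)) (𝓝 z₀) := by
      have := P.tendsto_symm hz0
      exact this
    have h3 := h2.eventually (hloc.and hGc)
    have h4 := (eventually_mem_set.2 h1).and h3
    obtain ⟨ε, hε, h5⟩ := Metric.eventually_nhds_iff.1 h4
    refine ⟨ε, hε, fun s t hs ht => ?_⟩
    have h6 : dist (s, t) (Φ z₀) < ε := by
      rw [Prod.dist_eq]
      exact max_lt (by rw [Real.dist_eq]; exact hs) (by rw [Real.dist_eq]; exact ht)
    obtain ⟨e1, e2, e3⟩ := h5 h6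
    exact ⟨e1, e3, e2⟩
  set s₀ := (Φ z₀).1 with hs0
  set t₀ := (Φ z₀).2 with ht0
  have hst : Φ z₀ = (s₀, t₀) := rfl
  -- the second component in the new coordinates
  let w : ℝ → ℝ → ℝ := fun s t => (G (P.symm (s, t))).2
  have hfst : ∀ s t : ℝ, |s - s₀| < ε → |t - t₀| < ε → (G (P.symm (s, t))).1 = s := by
    intro s t hs ht
    have := P.right_inv (hbox s t hs ht).1
    exact congrArg Prod.fst this
  have hwc : ∀ s t : ℝ, |s - s₀| < ε → |t - t₀| < ε →
      ContinuousAt (fun q : ℝ × ℝ => w q.1 q.2) (s, t) := by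
    intro s t hs ht
    obtain ⟨e1, e2, -⟩ := hbox s t hs ht
    have h1 : ContinuousAt P.symm (s, t) := P.continuousAt_symm e1
    have h2 : ContinuousAt (fun q : ℝ × ℝ => G (P.symm q)) (s, t) := ContinuousAt.comp (g := G) e2 h1
    exact continuous_snd.continuousAt.comp h2
  have hwt : ∀ s : ℝ, |s - s₀| < ε → ∀ a b : ℝ, |a - t₀| < ε → |b - t₀| < ε →
      ContinuousOn (w s) (Icc a b) := by
    intro s hs a b ha hb t ht
    have h1 : |t - t₀| < ε := by
      rw [abs_lt] at ha hb ⊢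
      constructor <;> linarith [ht.1, ht.2]
    have h2 := hwc s t hs h1
    have h3 : ContinuousAt (fun t : ℝ => (s, t)) t := by fun_prop
    exact (ContinuousAt.comp (g := fun q : ℝ × ℝ => w q.1 q.2) h2 h3).continuousWithinAt
  -- local injectivity off the centre
  have hinj : ∀ s t : ℝ, |s - s₀| < ε → |t - t₀| < ε → (s, t) ≠ (s₀, t₀) → ∃ δ > 0, ∀ u u' : ℝ,
      |u - t| < δ → |u' - t| < δ → |u - t₀| < ε → |u' - t₀| < ε → w s u = w s u' → u = u' := by
    intro s t hs ht hne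
    obtain ⟨e1, -, e3⟩ := hbox s t hs ht
    have h1 : P.symm (s, t) ≠ z₀ := by
      intro h2
      apply hne
      rw [← P.right_inv e1, h2]
      rfl
    obtain ⟨U, hU, hUi⟩ := e3 h1
    have h2 : ContinuousAt (fun u : ℝ => P.symm (s, u)) t :=
      ContinuousAt.comp (g := P.symm) (P.continuousAt_symm e1) (by fun_prop)
    obtain ⟨δ, hδ, h3⟩ := Metric.eventually_nhds_iff.1 (h2 hU)
    refine ⟨δ, hδ, fun u u' hu hu' hu1 hu1' he => ?_⟩
    have h4 : P.symm (s, u) ∈ U := h3 (by rw [Real.dist_eq]; exact hu)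
    have h5 : P.symm (s, u') ∈ U := h3 (by rw [Real.dist_eq]; exact hu')
    have h6 : G (P.symm (s, u)) = G (P.symm (s, u')) :=
      Prod.ext (by rw [hfst s u hs hu1, hfst s u' hs hu1']) he
    have h7 := hUi h4 h5 h6
    have h8 := congrArg P h7
    rw [P.right_inv (hbox s u hs hu1).1, P.right_inv (hbox s u' hs hu1').1] at h8
    exact congrArg Prod.snd h8
  -- a point of non-injectivity between must be the centre
  have hmid : ∀ s : ℝ, |s - s₀| < ε → ∀ a b : ℝ, a < b → |a - t₀| < ε → |b - t₀| < ε →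
      w s a = w s b → s = s₀ ∧ a < t₀ ∧ t₀ < b := by
    intro s hs a b hab ha hb he
    obtain ⟨c, hc, hcδ⟩ := exists_not_inj hab (hwt s hs a b ha hb) he
    have hIcc : ∀ t ∈ Icc a b, |t - t₀| < ε := by
      intro t ht
      rw [abs_lt] at ha hb ⊢
      constructor <;> linarith [ht.1, ht.2]
    by_cases hne : (s, c) = (s₀, t₀)
    · have h1 : s = s₀ := congrArg Prod.fst hne
      have h2 : c = t₀ := congrArg Prod.snd hne
      rw [← h2]
      exact ⟨h1, hc.1, hc.2⟩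
    · obtain ⟨δ, hδ, h1⟩ := hinj s c hs (hIcc c ⟨hc.1.le, hc.2.le⟩) hne
      obtain ⟨u, hu, u', hu', e1, e2, e3, e4⟩ := hcδ δ hδ
      exact absurd (h1 u u' e1 e2 (hIcc u hu) (hIcc u' hu') e4) e3
  have hinj2 : ∀ s : ℝ, |s - s₀| < ε → ∀ a b : ℝ, a < b → |a - t₀| < ε → |b - t₀| < ε →
      w s a ≠ w s b := by
    intro s hs a b hab ha hb he
    obtain ⟨-, h2, h3⟩ := hmid s hs a b hab ha hb he
    have ht0 : |t₀ - t₀| < ε := by simpa using hε
    have hne : w s a ≠ w s t₀ := by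
      intro h4
      exact lt_irrefl _ (hmid s hs a t₀ h2 ha ht0 h4).2.2
    -- nearby `s'`
    have hs' : ∃ s', s' ≠ s ∧ |s' - s₀| < ε ∧
        ((w s' a < w s' t₀ ∧ w s' b < w s' t₀) ∨ (w s' t₀ < w s' a ∧ w s' t₀ < w s' b)) := by
      have hcs : ∀ t : ℝ, |t - t₀| < ε → ContinuousAt (fun s' : ℝ => w s' t) s := by
        intro t ht
        have h5 : ContinuousAt (fun s' : ℝ => (s', t)) s := by fun_prop
        exact ContinuousAt.comp (f := fun s' : ℝ => (s', t)) (g := fun q : ℝ × ℝ => w q.1 q.2)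
          (hwc s t hs ht) h5
      have hnear : ∀ᶠ s' in 𝓝[≠] s, |s' - s₀| < ε := by
        have : Metric.ball s₀ ε ∈ 𝓝 s := Metric.isOpen_ball.mem_nhds (by
          rw [Metric.mem_ball, Real.dist_eq]
          exact hs)
        filter_upwards [nhdsWithin_le_nhds this] with s' h
        rw [Metric.mem_ball, Real.dist_eq] at h
        exact h
      have hself : ∀ᶠ s' in 𝓝[≠] s, s' ≠ s := self_mem_nhdsWithin
      rcases lt_or_gt_of_ne hne with hlt | hlt
      · have e1 : ∀ᶠ s' in 𝓝[≠] s, w s' a < w s' t₀ :=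
          nhdsWithin_le_nhds ((hcs a ha).eventually_lt (hcs t₀ ht0) hlt)
        have e2 : ∀ᶠ s' in 𝓝[≠] s, w s' b < w s' t₀ :=
          nhdsWithin_le_nhds ((hcs b hb).eventually_lt (hcs t₀ ht0) (by rw [← he]; exact hlt))
        obtain ⟨s', e3⟩ := (((e1.and e2).and hnear).and hself).exists
        exact ⟨s', e3.2, e3.1.2, Or.inl e3.1.1⟩
      · have e1 : ∀ᶠ s' in 𝓝[≠] s, w s' t₀ < w s' a :=
          nhdsWithin_le_nhds ((hcs t₀ ht0).eventually_lt (hcs a ha) hlt)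
        have e2 : ∀ᶠ s' in 𝓝[≠] s, w s' t₀ < w s' b :=
          nhdsWithin_le_nhds ((hcs t₀ ht0).eventually_lt (hcs b hb) (by rw [← he]; exact hlt))
        obtain ⟨s', e3⟩ := (((e1.and e2).and hnear).and hself).exists
        exact ⟨s', e3.2, e3.1.2, Or.inr e3.1.1⟩
    obtain ⟨s', hne', hs1, hcase⟩ := hs'
    have hIcc : ∀ t ∈ Icc a b, |t - t₀| < ε := by
      intro t ht
      rw [abs_lt] at ha hb ⊢
      constructor <;> linarith [ht.1, ht.2]
    have hfin : ∃ u ∈ Icc a b, ∃ u' ∈ Icc a b, u ≠ u' ∧ w s' u = w s' u' := by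
      rcases hcase with ⟨h4, h5⟩ | ⟨h4, h5⟩
      · exact peak (hwt s' hs1 a b ha hb) h2 h3 h4 h5
      · obtain ⟨u, hu, u', hu', e1, e2⟩ := peak (h := fun t => -w s' t)
          (hwt s' hs1 a b ha hb).neg h2 h3 (by linarith) (by linarith)
        exact ⟨u, hu, u', hu', e1, neg_injective e2⟩
    obtain ⟨u, hu, u', hu', e1, e2⟩ := hfin
    have hs0 : s = s₀ := (hmid s hs a b hab ha hb he).1
    rcases lt_or_gt_of_ne e1 with h6 | h6
    · exact hne' ((hmid s' hs1 u u' h6 (hIcc u hu) (hIcc u' hu') e2).1.trans hs0.symm)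
    · exact hne' ((hmid s' hs1 u' u h6 (hIcc u' hu') (hIcc u hu) e2.symm).1.trans hs0.symm)
  -- conclusion
  refine ⟨P.source ∩ P ⁻¹' Metric.ball (Φ z₀) ε, ?_, ?_⟩
  · exact (P.isOpen_inter_preimage Metric.isOpen_ball).mem_nhds
      ⟨hz0, Metric.mem_ball_self hε⟩
  · rintro z ⟨hz1, hz2⟩ z' ⟨hz1', hz2'⟩ he
    have k1 : ∀ z ∈ P.source, P.symm (Φ z) = z := fun z hz => P.left_inv hz
    have k2 : ∀ z, P z ∈ Metric.ball (Φ z₀) ε → |(Φ z).1 - s₀| < ε ∧ |(Φ z).2 - t₀| < ε := by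
      intro z hz
      rw [Metric.mem_ball, hP, Prod.dist_eq] at hz
      exact ⟨(le_max_left _ _).trans_lt hz, (le_max_right _ _).trans_lt hz⟩
    obtain ⟨a1, a2⟩ := k2 z hz2
    obtain ⟨b1, b2⟩ := k2 z' hz2'
    have hs : (Φ z).1 = (Φ z').1 := by
      have h1 : (G z).1 = (G z').1 := by rw [he]
      exact h1
    have hw : w (Φ z).1 (Φ z).2 = w (Φ z).1 (Φ z').2 := by
      change (G (P.symm (Φ z))).2 = (G (P.symm ((Φ z).1, (Φ z').2))).2
      rw [hs]
      change (G (P.symm (Φ z))).2 = (G (P.symm (Φ z'))).2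
      rw [k1 z hz1, k1 z' hz1', he]
    have ht : (Φ z).2 = (Φ z').2 := by
      by_contra hne
      rcases lt_or_gt_of_ne hne with h | h
      · exact hinj2 _ a1 _ _ h a2 b2 hw
      · exact hinj2 _ a1 _ _ h b2 a2 hw.symm
    rw [← k1 z hz1, ← k1 z' hz1', Prod.ext hs ht]

/-- a continuously differentiable map of the plane which is locally injective at all points different
from `z₀`, but not at `z₀`, has derivative zero at `z₀` -/
theorem fderiv_eq_zero {G : ℝ × ℝ → ℝ × ℝ} {z₀ : ℝ × ℝ} (hG : ContDiffAt ℝ 1 G z₀)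
    (hloc : ∀ᶠ z in 𝓝 z₀, z ≠ z₀ → ∃ U ∈ 𝓝 z, InjOn G U)
    (hnot : ∀ U ∈ 𝓝 z₀, ¬ InjOn G U) : fderiv ℝ G z₀ = 0 := by
  by_contra hne
  have h : (ContinuousLinearMap.fst ℝ ℝ ℝ).comp (fderiv ℝ G z₀) ≠ 0 ∨
      (ContinuousLinearMap.snd ℝ ℝ ℝ).comp (fderiv ℝ G z₀) ≠ 0 := by
    by_contra hcon
    push Not at hcon
    apply hne
    refine ContinuousLinearMap.ext fun v => ?_
    have h1 := DFunLike.congr_fun hcon.1 v
    have h2 := DFunLike.congr_fun hcon.2 v
    exact Prod.ext h1 h2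
  rcases h with h | h
  · obtain ⟨U, hU, hi⟩ := injOn_near_aux hG hloc h
    exact hnot U hU hi
  · let σ : (ℝ × ℝ) ≃L[ℝ] (ℝ × ℝ) := ContinuousLinearEquiv.prodComm ℝ ℝ ℝ
    have hG' : ContDiffAt ℝ 1 (fun z => σ (G z)) z₀ := σ.contDiff.contDiffAt.comp z₀ hG
    have hd : fderiv ℝ (fun z => σ (G z)) z₀ = (σ : (ℝ × ℝ) →L[ℝ] (ℝ × ℝ)).comp (fderiv ℝ G z₀) := by
      have := hG.differentiableAt (by simp)
      exact (σ.hasFDerivAt.comp z₀ this.hasFDerivAt).fderiv
    obtain ⟨U, hU, hi⟩ := injOn_near_aux (G := fun z => σ (G z)) hG' (hloc.mono fun z hz hne => by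
        obtain ⟨U, hU, hi⟩ := hz hne
        exact ⟨U, hU, fun x hx y hy hxy => hi hx hy (σ.injective hxy)⟩) (by
        rw [hd]
        intro h0
        apply h
        refine ContinuousLinearMap.ext fun v => ?_
        exact DFunLike.congr_fun h0 v)
    exact hnot U hU fun x hx y hy hxy => hi hx hy (congrArg σ hxy)

end Pool.Agent.N224.Bary
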