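import Pool.Agent.N224.Bary.Thurston
import Pool.Agent.N224.Bary.Rank

set_option autoImplicit false

open Topology Set Filter
open scoped Manifold ContDiff

namespace Pool.Agent.N224.Bary

/-- the points of the edge from `e₁` to `e₂` -/
def ed (t : ℝ) (h0 : 0 ≤ t) (h1 : t ≤ 1) : Pil :=
  mkP (1 - t) t 0 0 (by ring) (by
    unfold mn
    rw [min_eq_right h0, min_eq_right (by linarith), abs_zero])

theorem x1_ed (t : ℝ) (h0 : 0 ≤ t) (h1 : t ≤ 1) : x1 (ed t h0 h1) = 1 - t := x1_mkP _ _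

theorem bf_ed {t : ℝ} (h0 : 0 ≤ t) (h1 : t ≤ 1 / 2) :
    bf (ed t h0 (by linarith)) = ed (2 * t) (by linarith) (by linarith) := by
  have e1' := x1_ed t h0 (by linarith)
  have e2' : x2 (ed t h0 (by linarith)) = t := rfl
  have e3' : x3 (ed t h0 (by linarith)) = 0 := rfl
  have hc : ca (ed t h0 (by linarith)) = 1 - t ∧ cb (ed t h0 (by linarith)) = t ∧
      cc (ed t h0 (by linarith)) = 0 := by
    rcases sorted (ed t h0 (by linarith)) with ⟨k1, k2, k3, k4, k5⟩ | ⟨k1, k2, k3, k4, k5⟩ |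
      ⟨k1, k2, k3, k4, k5⟩ | ⟨k1, k2, k3, k4, k5⟩ | ⟨k1, k2, k3, k4, k5⟩ | ⟨k1, k2, k3, k4, k5⟩ <;>
    rw [e1', e2', e3'] at * <;> exact ⟨by linarith, by linarith, by linarith⟩
  refine Pil.ext ?_ ?_ ?_
  · rw [x2_bf, hc.2.1, hc.2.2, sub_zero]; rfl
  · rw [x3_bf, hc.2.2, mul_zero]; rfl
  · exact sg_bf_eq_zero rfl

theorem bf_fix : bf (ed (2 / 3) (by norm_num) (by norm_num)) =
    ed (2 / 3) (by norm_num) (by norm_num) := by
  have e1' := x1_ed (2 / 3) (by norm_num) (by norm_num)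
  have e2' : x2 (ed (2 / 3) (by norm_num) (by norm_num)) = 2 / 3 := rfl
  have e3' : x3 (ed (2 / 3) (by norm_num) (by norm_num)) = 0 := rfl
  have hc : cb (ed (2 / 3) (by norm_num) (by norm_num)) = 1 / 3 ∧
      cc (ed (2 / 3) (by norm_num) (by norm_num)) = 0 := by
    rcases sorted (ed (2 / 3) (by norm_num) (by norm_num)) with ⟨k1, k2, k3, k4, k5⟩ |
      ⟨k1, k2, k3, k4, k5⟩ |
      ⟨k1, k2, k3, k4, k5⟩ | ⟨k1, k2, k3, k4, k5⟩ | ⟨k1, k2, k3, k4, k5⟩ | ⟨k1, k2, k3, k4, k5⟩ <;>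
    rw [e1', e2', e3'] at * <;> exact ⟨by linarith, by linarith⟩
  refine Pil.ext ?_ ?_ ?_
  · rw [x2_bf, hc.1, hc.2, sub_zero, e2']; norm_num
  · rw [x3_bf, hc.2, mul_zero]; rfl
  · exact sg_bf_eq_zero rfl

theorem ed_pow (k : ℕ) : ∃ (t : ℝ) (h0 : 0 ≤ t) (h1 : t ≤ 1), t = 2 / 3 * (1 / 2) ^ k ∧
    ∀ n, k ≤ n → bf^[n] (ed t h0 h1) = ed (2 / 3) (by norm_num) (by norm_num) := by
  induction k with
  | zero =>
    refine ⟨2 / 3, by norm_num, by norm_num, by norm_num, fun n _ => ?_⟩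
    exact Function.iterate_fixed bf_fix n
  | succ k ih =>
    obtain ⟨t, h0, h1, ht, hn⟩ := ih
    have hpow : (1 / 2 : ℝ) ^ k ≤ 1 := pow_le_one₀ (by norm_num) (by norm_num)
    refine ⟨t / 2, by linarith, by linarith, by rw [ht]; ring, fun n hkn => ?_⟩
    obtain ⟨j, rfl⟩ : ∃ j, n = j + 1 := ⟨n - 1, by omega⟩
    rw [Function.iterate_succ_apply, bf_ed (by linarith) (by linarith)]
    have e : ed (2 * (t / 2)) (by linarith) (by linarith) = ed t h0 h1 :=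
      Pil.ext (by change 2 * (t / 2) = t; ring) rfl rfl
    rw [e]
    exact hn j (by omega)

theorem dist_ed (t : ℝ) (h0 : 0 ≤ t) (h1 : t ≤ 1) : dist (ed t h0 h1) e1 = t := by
  change dist (t, ((0 : ℝ), (0 : ℝ))) ((0 : ℝ), ((0 : ℝ), (0 : ℝ))) = t
  rw [Prod.dist_eq, Prod.dist_eq]
  simp [abs_of_nonneg h0, h0]

theorem cha_eq_zero {p : Pil} (hp : p ∈ cha.source) (h : cha p = 0) : p = e1 := by
  rw [mem_cha] at hp
  rw [cha_apply] at h
  have h1 := congrArg Complex.re h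
  have h2 := congrArg Complex.im h
  rw [re_add_im_aux, Complex.zero_re] at h1
  rw [im_add_im_aux, Complex.zero_im] at h2
  have h3 : cc p = 0 := by rw [← abs_sg', h2, abs_zero]
  have h4 : x2 p = x3 p := by linarith
  rw [cc_eq_x2 hp.1.le h4.le] at h3
  exact eq_e1 (by linarith [sum_eq p])

theorem injOn_off {p : Pil} (hp : p ∈ cha.source) (h : p ≠ e1) : ∃ U ∈ 𝓝 p, InjOn bf U := by
  have hS : Star p 2 cha ps1 := ⟨by norm_num, good_cha, good_ps1, hp,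
    fun _ hx => star_a (mem_cha.1 hx).1 (mem_cha.1 hx).2, fun _ _ h => ps1_zero h⟩
  exact hS.injOn fun h0 => h (cha_eq_zero hp h0)

theorem e1_mem_cha : e1 ∈ cha.source := by
  rw [mem_cha, x1_e1]
  exact ⟨by change (0 : ℝ) < 1; norm_num, by change (0 : ℝ) < 1; norm_num⟩

/-- near `e₁` the map is not injective -/
theorem not_injOn_e1 {U : Set Pil} (hU : U ∈ 𝓝 e1) : ¬ InjOn bf U := by
  intro hi
  -- the points `(1 - t, t, 0)` and `(1 - t, 0, t)`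
  obtain ⟨ε, hε, hb⟩ := Metric.mem_nhds_iff.1 hU
  set t : ℝ := min (ε / 2) (1 / 2) with ht
  have ht0 : 0 < t := lt_min (by linarith) (by norm_num)
  have ht1 : t ≤ 1 / 2 := min_le_right _ _
  have htε : t < ε := (min_le_left _ _).trans_lt (by linarith)
  let p := ed t ht0.le (by linarith)
  have hp : p ∈ U := hb (by rw [Metric.mem_ball, dist_ed]; exact htε)
  have hq : flip p ∈ U := hb (by
    rw [Metric.mem_ball]
    change dist ((0 : ℝ), (t, -(0 : ℝ))) ((0 : ℝ), ((0 : ℝ), (0 : ℝ))) < ε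
    rw [Prod.dist_eq, Prod.dist_eq]
    simp [abs_of_pos ht0, ht0.le, htε])
  have := hi hq hp (bf_flip p)
  have h1 : x2 (flip p) = x2 p := by rw [this]
  rw [x2_flip] at h1
  change (0 : ℝ) = t at h1
  linarith

/-- in no chart around `e₁` is the map continuously differentiable at `e₁` -/
theorem no_smooth_chart (Ψ : OpenPartialHomeomorph Pil (ℝ × ℝ)) (h1 : e1 ∈ Ψ.source)
    (hG : ContDiffAt ℝ 1 (fun z => Ψ (bf (Ψ.symm z))) (Ψ e1)) : False := by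
  set z₀ := Ψ e1 with hz₀
  set G : ℝ × ℝ → ℝ × ℝ := fun z => Ψ (bf (Ψ.symm z)) with hGdef
  have hz₀t : z₀ ∈ Ψ.target := Ψ.map_source h1
  have hsymm : Ψ.symm z₀ = e1 := Ψ.left_inv h1
  have hG0 : G z₀ = z₀ := by
    change Ψ (bf (Ψ.symm z₀)) = z₀
    rw [hsymm, bf_e1]
  -- a good neighbourhood
  let A : Set Pil := bf ⁻¹' Ψ.source ∩ cha.source
  have hA : IsOpen A := (Ψ.open_source.preimage continuous_bf).inter cha.open_source
  have hA1 : e1 ∈ A := ⟨by change bf e1 ∈ Ψ.source; rw [bf_e1]; exact h1, e1_mem_cha⟩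
  have hAn : ∀ᶠ z in 𝓝 z₀, z ∈ Ψ.target ∧ Ψ.symm z ∈ A := by
    have k1 : ∀ᶠ z in 𝓝 z₀, z ∈ Ψ.target := Ψ.open_target.mem_nhds hz₀t
    have k2 : ∀ᶠ z in 𝓝 z₀, Ψ.symm z ∈ A := (Ψ.tendsto_symm h1) (hA.mem_nhds hA1)
    exact k1.and k2
  have hder : fderiv ℝ G z₀ = 0 := by
    refine fderiv_eq_zero hG ?_ ?_
    · filter_upwards [hAn] with z hz hne
      have hp : Ψ.symm z ≠ e1 := by
        intro h
        apply hne
        rw [← Ψ.right_inv hz.1, h]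
      obtain ⟨U, hU, hi⟩ := injOn_off hz.2.2 hp
      refine ⟨Ψ.target ∩ Ψ.symm ⁻¹' (U ∩ A), ?_, ?_⟩
      · refine inter_mem (Ψ.open_target.mem_nhds hz.1) ((Ψ.continuousAt_symm hz.1) ?_)
        exact inter_mem hU (hA.mem_nhds hz.2)
      · rintro x ⟨hx1, hx2, hx3⟩ y ⟨hy1, hy2, hy3⟩ hxy
        have h2 : bf (Ψ.symm x) = bf (Ψ.symm y) := Ψ.injOn hx3.1 hy3.1 hxy
        have h3 := hi hx2 hy2 h2
        rw [← Ψ.right_inv hx1, ← Ψ.right_inv hy1, h3]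
    · intro U hU hi
      refine not_injOn_e1 (U := Ψ.source ∩ Ψ ⁻¹' U) ?_ ?_
      · exact inter_mem (Ψ.open_source.mem_nhds h1) ((Ψ.continuousAt h1) hU)
      · rintro x ⟨hx1, hx2⟩ y ⟨hy1, hy2⟩ hxy
        have h2 : Ψ x = Ψ y := by
          apply hi hx2 hy2
          change Ψ (bf (Ψ.symm (Ψ x))) = Ψ (bf (Ψ.symm (Ψ y)))
          rw [Ψ.left_inv hx1, Ψ.left_inv hy1, hxy]
        exact Ψ.injOn hx1 hy1 h2
  -- attraction
  have hd : HasFDerivAt G (0 : ℝ × ℝ →L[ℝ] ℝ × ℝ) z₀ := by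
    rw [← hder]
    exact (hG.differentiableAt (by simp)).hasFDerivAt
  have hlo := hd.isLittleO.def (show (0 : ℝ) < 1 / 2 by norm_num)
  obtain ⟨r, hr, hball⟩ := Metric.eventually_nhds_iff_ball.1 (hlo.and hAn)
  have step : ∀ p : Pil, p ∈ Ψ.source → ‖Ψ p - z₀‖ < r →
      bf p ∈ Ψ.source ∧ ‖Ψ (bf p) - z₀‖ ≤ 1 / 2 * ‖Ψ p - z₀‖ := by
    intro p hp hpr
    obtain ⟨k1, k2⟩ := hball (Ψ p) (mem_ball_iff_norm.2 hpr)
    rw [Ψ.left_inv hp] at k2
    refine ⟨k2.2.1, ?_⟩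
    rw [hG0] at k1
    have e : G (Ψ p) = Ψ (bf p) := by
      change Ψ (bf (Ψ.symm (Ψ p))) = _
      rw [Ψ.left_inv hp]
    rw [e] at k1
    simpa using k1
  have iter : ∀ n : ℕ, ∀ p : Pil, p ∈ Ψ.source → ‖Ψ p - z₀‖ < r →
      bf^[n] p ∈ Ψ.source ∧ ‖Ψ (bf^[n] p) - z₀‖ ≤ (1 / 2) ^ n * ‖Ψ p - z₀‖ := by
    intro n
    induction n with
    | zero => intro p hp _; exact ⟨hp, by simp⟩
    | succ n ih =>
      intro p hp hpr
      obtain ⟨k1, k2⟩ := ih p hp hpr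
      have hpow : (1 / 2 : ℝ) ^ n ≤ 1 := pow_le_one₀ (by norm_num) (by norm_num)
      have k3 : ‖Ψ (bf^[n] p) - z₀‖ < r := by
        have := mul_le_mul_of_nonneg_right hpow (norm_nonneg (Ψ p - z₀))
        linarith
      obtain ⟨k4, k5⟩ := step _ k1 k3
      rw [Function.iterate_succ_apply']
      refine ⟨k4, k5.trans ?_⟩
      rw [pow_succ]
      linarith
  -- a point close to `e₁` whose orbit does not tend to `e₁`
  have hN : Ψ.source ∩ Ψ ⁻¹' Metric.ball z₀ r ∈ 𝓝 e1 :=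
    inter_mem (Ψ.open_source.mem_nhds h1) ((Ψ.continuousAt h1) (Metric.ball_mem_nhds _ hr))
  obtain ⟨ε, hε, hb⟩ := Metric.mem_nhds_iff.1 hN
  obtain ⟨k, hk⟩ := exists_pow_lt_of_lt_one hε (show (1 / 2 : ℝ) < 1 by norm_num)
  obtain ⟨t, h0, h1', ht, hn⟩ := ed_pow k
  have hpow0 : (0 : ℝ) < (1 / 2) ^ k := by positivity
  have hp := hb (show ed t h0 h1' ∈ Metric.ball e1 ε by
    rw [Metric.mem_ball, dist_ed, ht]; linarith)
  have hpr : ‖Ψ (ed t h0 h1') - z₀‖ < r := mem_ball_iff_norm.1 hp.2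
  have hmem : ed (2 / 3) (by norm_num) (by norm_num) ∈ Ψ.source := by
    have := (iter k _ hp.1 hpr).1
    rwa [hn k le_rfl] at this
  have hlim : ∀ n, k ≤ n → ‖Ψ (ed (2 / 3) (by norm_num) (by norm_num)) - z₀‖ ≤ (1 / 2) ^ n * r := by
    intro n hkn
    have := (iter n _ hp.1 hpr).2
    rw [hn n hkn] at this
    exact this.trans (mul_le_mul_of_nonneg_left hpr.le (by positivity))
  have hzero : ‖Ψ (ed (2 / 3) (by norm_num) (by norm_num)) - z₀‖ ≤ 0 := by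
    have ht : Tendsto (fun n : ℕ => (1 / 2 : ℝ) ^ n * r) atTop (𝓝 (0 * r)) :=
      (tendsto_pow_atTop_nhds_zero_of_lt_one (by norm_num) (by norm_num)).mul_const r
    rw [zero_mul] at ht
    exact ge_of_tendsto ht (eventually_atTop.2 ⟨k, hlim⟩)
  have heq : Ψ (ed (2 / 3) (by norm_num) (by norm_num)) = Ψ e1 :=
    sub_eq_zero.1 (norm_le_zero_iff.1 hzero)
  have := Ψ.injOn hmem h1 heq
  have h2 : x2 (ed (2 / 3) (by norm_num) (by norm_num)) = x2 e1 := by rw [this]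
  change (2 / 3 : ℝ) = 0 at h2
  norm_num at h2

/-- the map is not conjugate to a continuously differentiable map of the sphere -/
theorem no_smooth_model (g : Metric.sphere (0 : EuclideanSpace ℝ (Fin 3)) 1 →
    Metric.sphere (0 : EuclideanSpace ℝ (Fin 3)) 1) (hg : ContMDiff (𝓡 2) (𝓡 2) 1 g)
    (h : Pil ≃ₜ Metric.sphere (0 : EuclideanSpace ℝ (Fin 3)) 1) : ¬ ∀ x, h (bf x) = g (h x) := by
  intro hconj
  have hq : g (h e1) = h e1 := by rw [← hconj, bf_e1]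
  have hfin : Module.finrank ℝ (EuclideanSpace ℝ (Fin 2)) = Module.finrank ℝ (ℝ × ℝ) := by
    simp
  let Λ : EuclideanSpace ℝ (Fin 2) ≃L[ℝ] (ℝ × ℝ) := ContinuousLinearEquiv.ofFinrankEq hfin
  let c := chartAt (EuclideanSpace ℝ (Fin 2)) (h e1)
  let Ψ : OpenPartialHomeomorph Pil (ℝ × ℝ) :=
    h.transOpenPartialHomeomorph (c.trans Λ.toHomeomorph.toOpenPartialHomeomorph)
  have h1 : e1 ∈ Ψ.source := by
    change h e1 ∈ (c.trans Λ.toHomeomorph.toOpenPartialHomeomorph).source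
    exact ⟨mem_chart_source _ _, mem_univ _⟩
  refine no_smooth_chart Ψ h1 ?_
  have h2 := (contMDiffAt_iff.1 (hg (h e1))).2
  rw [hq] at h2
  have h3 : ContDiffAt ℝ 1 (fun v : EuclideanSpace ℝ (Fin 2) => c (g (c.symm v))) (c (h e1)) := by
    have h4 : range (𝓡 2 : ModelWithCorners ℝ (EuclideanSpace ℝ (Fin 2)) (EuclideanSpace ℝ (Fin 2))) =
        univ := ModelWithCorners.range_eq_univ _
    rw [h4, contDiffWithinAt_univ] at h2
    exact h2
  have e : (fun z => Ψ (bf (Ψ.symm z))) = fun z => Λ (c (g (c.symm (Λ.symm z)))) := by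
    funext z
    change Λ (c (h (bf (h.symm (c.symm (Λ.symm z)))))) = _
    rw [hconj, h.apply_symm_apply]
  rw [e]
  have h5 : Ψ e1 = Λ (c (h e1)) := rfl
  rw [h5]
  have h6 : ContDiffAt ℝ 1 (fun v : EuclideanSpace ℝ (Fin 2) => c (g (c.symm v)))
      (Λ.symm (Λ (c (h e1)))) := by
    rw [Λ.symm_apply_apply]; exact h3
  exact Λ.contDiff.contDiffAt.comp _ (h6.comp _ Λ.symm.contDiff.contDiffAt)

end Pool.Agent.N224.Bary
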