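import Pool.Agent.N224.Bary.Defs

set_option autoImplicit false

open Topology Set Filter unitInterval

namespace Pool.Agent.N224.Bary

/-! ### the winding number in families -/

/-- a continuous function with values in a discrete group is constant -/
theorem int_const {F : I → ℂ} (hF : Continuous F)
    (h : ∀ s, ∃ n : ℤ, F s = n * (2 * Real.pi * Complex.I)) : F 1 = F 0 := by
  choose N hN using h
  have hNc : Continuous N := by
    rw [Int.isClosedEmbedding_coe_real.isInducing.continuous_iff]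
    have : (fun n : ℤ => (n : ℝ)) ∘ N = fun s : I => (F s / (2 * Real.pi * Complex.I)).re := by
      funext s
      simp only [Function.comp]
      rw [hN s, mul_div_assoc, div_self Complex.two_pi_I_ne_zero, mul_one]
      simp
    rw [this]
    exact Complex.continuous_re.comp (hF.div_const _)
  have hN1 : N 1 = N 0 := by
    have := isPreconnected_univ (α := I) |>.image N hNc.continuousOn
    exact this.subsingleton (mem_image_of_mem _ (mem_univ _)) (mem_image_of_mem _ (mem_univ _))
  rw [hN, hN, hN1]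

/-- Winding once is invariant under homotopy through nonvanishing loops. -/
theorem WindsOnce.homotopy {K : ℝ → ℝ → ℂ}
    (hK : ContinuousOn (fun q : ℝ × ℝ => K q.1 q.2) (Icc 0 1 ×ˢ Icc 0 1))
    (h0 : ∀ s ∈ Icc (0 : ℝ) 1, ∀ t ∈ Icc (0 : ℝ) 1, K s t ≠ 0)
    (hl : ∀ s ∈ Icc (0 : ℝ) 1, K s 0 = K s 1) (h : WindsOnce (K 0)) : WindsOnce (K 1) := by
  have cov := Complex.isCoveringMap_exp
  -- the homotopy as a map into the punctured plane; first variable: time along the loop
  let H : C(I × I, {z : ℂ // z ≠ 0}) :=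
    ⟨fun q => ⟨K q.2 q.1, h0 _ q.2.2 _ q.1.2⟩, by
      refine Continuous.subtype_mk ?_ _
      have h1 : Continuous fun q : I × I => ((q.2 : ℝ), (q.1 : ℝ)) := by fun_prop
      exact hK.comp_continuous h1 fun q => ⟨q.2.2, q.1.2⟩⟩
  let β : C(I, {z : ℂ // z ≠ 0}) := ⟨fun s => H (0, s), by fun_prop⟩
  obtain ⟨B, hB, -⟩ := cov.exists_path_lifts β (Complex.log (K 0 0))
    (by
      apply Subtype.ext
      change K (0 : I) (0 : I) = Complex.exp (Complex.log (K 0 0))
      rw [Complex.exp_log (h0 0 ⟨le_rfl, zero_le_one⟩ 0 ⟨le_rfl, zero_le_one⟩)]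
      simp)
  have hB' : ∀ s, H (0, s) = (fun z : ℂ => (⟨_, z.exp_ne_zero⟩ : {z : ℂ // z ≠ 0})) (B s) := by
    intro s
    exact (congrFun hB s).symm
  obtain ⟨Λ, hΛ⟩ : ∃ Λ : C(I × I, ℂ), ∀ q : I × I, Complex.exp (Λ q) = K q.2 q.1 := by
    refine ⟨cov.liftHomotopy H B hB', fun q => ?_⟩
    have := congrFun (cov.liftHomotopy_lifts H B hB') q
    exact congrArg Subtype.val this
  -- the increment is constant
  have hconst : Λ (1, 1) - Λ (0, 1) = Λ (1, 0) - Λ (0, 0) := by
    refine int_const (F := fun s : I => Λ (1, s) - Λ (0, s)) (by fun_prop) fun s => ?_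
    have h1 : Complex.exp (Λ (1, s)) = Complex.exp (Λ (0, s)) := by
      rw [hΛ, hΛ]
      simpa using (hl s s.2).symm
    obtain ⟨n, hn⟩ := Complex.exp_eq_exp_iff_exists_int.1 h1
    exact ⟨n, by rw [hn]; ring⟩
  -- compare with the given logarithm at time zero
  obtain ⟨M, hM1, hM2, hM3⟩ := h
  have hcmp : Λ (1, 0) - M ((1 : I) : ℝ) = Λ (0, 0) - M ((0 : I) : ℝ) := by
    have hMc : Continuous fun t : I => M t := hM1.comp_continuous continuous_subtype_val fun t => t.2
    have hΛc : Continuous fun t : I => Λ (t, 0) := by fun_prop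
    refine int_const (F := fun t : I => Λ (t, 0) - M t) (hΛc.sub hMc) fun t => ?_
    have h1 : Complex.exp (Λ (t, 0)) = Complex.exp (M t) := by
      rw [hΛ, hM2 t t.2]
      rfl
    obtain ⟨n, hn⟩ := Complex.exp_eq_exp_iff_exists_int.1 h1
    exact ⟨n, by rw [hn]; ring⟩
  refine ⟨fun t => Λ (projIcc 0 1 zero_le_one t, 1), ?_, ?_, ?_⟩
  · apply Continuous.continuousOn
    exact Λ.continuous.comp (continuous_projIcc.prodMk continuous_const)
  · intro t ht
    rw [hΛ, projIcc_of_mem zero_le_one ht]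
    rfl
  · have e1 : projIcc (0 : ℝ) 1 zero_le_one 1 = 1 := projIcc_right _
    have e0 : projIcc (0 : ℝ) 1 zero_le_one 0 = 0 := projIcc_left _
    simp only [e1, e0]
    have h4 : M ((1 : I) : ℝ) = M ((0 : I) : ℝ) + 2 * Real.pi * Complex.I := by simpa using hM3
    linear_combination hconst + hcmp + h4

/-- the circle of radius `r` around `z` -/
noncomputable def circ (z : ℂ) (r t : ℝ) : ℂ := z + r * Complex.exp (2 * Real.pi * t * Complex.I)

theorem circ_zero_one (z : ℂ) (r : ℝ) : circ z r 0 = circ z r 1 := by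
  unfold circ
  have h1 : Complex.exp (2 * Real.pi * ((0 : ℝ) : ℂ) * Complex.I) = 1 := by simp
  have h2 : Complex.exp (2 * Real.pi * ((1 : ℝ) : ℂ) * Complex.I) = 1 := by
    have : (2 * Real.pi * ((1 : ℝ) : ℂ) * Complex.I) = 2 * Real.pi * Complex.I := by push_cast; ring
    rw [this, Complex.exp_two_pi_mul_I]
  rw [h1, h2]

theorem norm_exp_circ (t : ℝ) : ‖Complex.exp (2 * Real.pi * t * Complex.I)‖ = 1 := by
  have : (2 * Real.pi * t * Complex.I : ℂ) = ((2 * Real.pi * t : ℝ) : ℂ) * Complex.I := by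
    push_cast; ring
  rw [this, Complex.norm_exp_ofReal_mul_I]

theorem norm_circ_sub (z : ℂ) {r : ℝ} (hr : 0 ≤ r) (t : ℝ) : ‖circ z r t - z‖ = r := by
  unfold circ
  rw [add_sub_cancel_left, norm_mul, norm_exp_circ, mul_one, Complex.norm_real, Real.norm_eq_abs,
    abs_of_nonneg hr]

/-- the winding numbers of the images of small circles under an injective map do not depend on the
centre and the radius -/
theorem winds_transfer {τ : ℂ → ℂ} {z₀ z₁ : ℂ} {R r₀ r₁ : ℝ}
    (hc : ContinuousOn τ (Metric.ball z₀ R)) (hi : InjOn τ (Metric.ball z₀ R))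
    (h0 : 0 < r₀) (h1 : 0 < r₁) (hR0 : r₀ < R) (hR1 : ‖z₁ - z₀‖ + r₁ < R)
    (hw : WindsOnce fun t => τ (circ z₁ r₁ t) - τ z₁) : WindsOnce fun t => τ (circ z₀ r₀ t) - τ z₀ := by
  -- centre and radius at time s
  let zz : ℝ → ℂ := fun s => z₁ + s * (z₀ - z₁)
  let rr : ℝ → ℝ := fun s => (1 - s) * r₁ + s * r₀
  have hrr : ∀ s ∈ Icc (0 : ℝ) 1, 0 < rr s := by
    intro s hs
    rcases hs.2.eq_or_lt with h | h
    · simp only [rr, h]; linarith
    · have := mul_pos (by linarith : 0 < 1 - s) h1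
      have := mul_nonneg hs.1 h0.le
      simp only [rr]; linarith
  have hin : ∀ s ∈ Icc (0 : ℝ) 1, ‖zz s - z₀‖ + rr s < R := by
    intro s hs
    have e : zz s - z₀ = ((1 - s : ℝ) : ℂ) * (z₁ - z₀) := by simp only [zz]; push_cast; ring
    rw [e, norm_mul, Complex.norm_real, Real.norm_eq_abs, abs_of_nonneg (by linarith [hs.2])]
    simp only [rr]
    have h2 : (1 - s) * (‖z₁ - z₀‖ + r₁) + s * r₀ < R := by
      rcases hs.2.eq_or_lt with h | h
      · rw [h]; linarith
      · have h3 := mul_lt_mul_of_pos_left hR1 (by linarith : 0 < 1 - s)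
        have h4 := mul_le_mul_of_nonneg_left hR0.le hs.1
        linarith
    linarith
  have hball : ∀ s ∈ Icc (0 : ℝ) 1, zz s ∈ Metric.ball z₀ R := by
    intro s hs
    rw [mem_ball_iff_norm]
    linarith [hin s hs, hrr s hs]
  have hball' : ∀ s ∈ Icc (0 : ℝ) 1, ∀ t, circ (zz s) (rr s) t ∈ Metric.ball z₀ R := by
    intro s hs t
    rw [mem_ball_iff_norm]
    have h2 := norm_circ_sub (zz s) (hrr s hs).le t
    have h3 := norm_add_le (circ (zz s) (rr s) t - zz s) (zz s - z₀)
    rw [sub_add_sub_cancel, h2] at h3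
    linarith [hin s hs]
  have e0 : zz 0 = z₁ := by simp [zz]
  have e0' : rr 0 = r₁ := by simp [rr]
  have e1 : zz 1 = z₀ := by simp [zz]
  have e1' : rr 1 = r₀ := by simp [rr]
  have key := WindsOnce.homotopy (K := fun s t => τ (circ (zz s) (rr s) t) - τ (zz s)) ?_ ?_ ?_ ?_
  · simpa only [e1, e1'] using key
  · refine ContinuousOn.sub ?_ ?_
    · refine hc.comp ?_ ?_
      · apply Continuous.continuousOn
        simp only [circ, zz, rr]
        fun_prop
      · rintro ⟨s, t⟩ ⟨hs, ht⟩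
        exact hball' s hs t
    · refine hc.comp ?_ ?_
      · apply Continuous.continuousOn
        simp only [zz]
        fun_prop
      · rintro ⟨s, t⟩ ⟨hs, ht⟩
        exact hball s hs
  · intro s hs t ht h
    have h2 := hi (hball' s hs t) (hball s hs) (sub_eq_zero.1 h)
    have h3 := norm_circ_sub (zz s) (hrr s hs).le t
    rw [h2, sub_self, norm_zero] at h3
    linarith [hrr s hs]
  · intro s hs
    simp only [circ_zero_one]
  · simpa only [e0, e0'] using hw

/-- an injective map which preserves the orientation at a dense set of points preserves the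
orientation -/
theorem orientedAt_of_dense {τ : ℂ → ℂ} {U : Set ℂ} (hU : IsOpen U) (hc : ContinuousOn τ U)
    (hi : InjOn τ U) (hd : ∀ z ∈ U, ∀ V ∈ 𝓝 z, ∃ w ∈ V, w ∈ U ∧ OrientedAt τ w) {z : ℂ} (hz : z ∈ U) :
    OrientedAt τ z := by
  obtain ⟨R, hR, hRU⟩ := Metric.isOpen_iff.1 hU z hz
  obtain ⟨w, hw1, -, hw2⟩ := hd z hz (Metric.ball z R) (Metric.ball_mem_nhds z hR)
  rw [mem_ball_iff_norm] at hw1
  have h1 : ∀ᶠ r : ℝ in 𝓝[>] 0, r < R - ‖w - z‖ := by
    have : Iio (R - ‖w - z‖) ∈ 𝓝 (0 : ℝ) := Iio_mem_nhds (by linarith)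
    exact nhdsWithin_le_nhds this
  have h2 : ∀ᶠ r : ℝ in 𝓝[>] 0, (0 : ℝ) < r := self_mem_nhdsWithin
  obtain ⟨r₁, hr1, hr2, hr3⟩ := (hw2.and (h1.and h2)).exists
  have h3 : ∀ᶠ r : ℝ in 𝓝[>] 0, r < R := nhdsWithin_le_nhds (Iio_mem_nhds hR)
  filter_upwards [h2, h3] with r hr hr'
  exact winds_transfer (hc.mono hRU) (hi.mono hRU) hr hr3 hr' (by linarith) hr1

/-! ### differentiable maps -/

/-- the Jacobian determinant of a real linear map of the plane -/
noncomputable def jac (L : ℂ →L[ℝ] ℂ) : ℝ := (L 1).re * (L Complex.I).im - (L 1).im * (L Complex.I).re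

theorem apply_eq (L : ℂ →L[ℝ] ℂ) (z : ℂ) : L z = z.re • L 1 + z.im • L Complex.I := by
  conv_lhs => rw [← Complex.re_add_im z]
  rw [map_add]
  have h1 : ((z.re : ℝ) : ℂ) = z.re • (1 : ℂ) := by simp
  have h2 : ((z.im : ℝ) : ℂ) * Complex.I = z.im • Complex.I := by simp
  rw [h1, h2, map_smul, map_smul]

theorem jac_comp (L M : ℂ →L[ℝ] ℂ) : jac (L.comp M) = jac L * jac M := by
  unfold jac
  simp only [ContinuousLinearMap.comp_apply]
  rw [apply_eq L (M 1), apply_eq L (M Complex.I)]
  simp only [Complex.add_re, Complex.add_im, Complex.real_smul, Complex.mul_re, Complex.mul_im,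
    Complex.ofReal_re, Complex.ofReal_im]
  ring

theorem jac_id : jac (ContinuousLinearMap.id ℝ ℂ) = 1 := by simp [jac]

/-- the derivative criterion -/
theorem orientedAt_of_jac {τ : ℂ → ℂ} {z : ℂ} {L : ℂ →L[ℝ] ℂ} (hL : HasFDerivAt τ L z)
    (hJ : 0 < jac L) (hc : ∀ᶠ w in 𝓝 z, ContinuousAt τ w) : OrientedAt τ z := by
  set a : ℂ := (L 1 - Complex.I * L Complex.I) / 2 with ha
  set b : ℂ := (L 1 + Complex.I * L Complex.I) / 2 with hb
  have hLab : ∀ v : ℂ, L v = a * v + b * (starRingEnd ℂ) v := by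
    intro v
    rw [apply_eq L v, ha, hb]
    apply Complex.ext <;> simp <;> ring
  have hab : ‖b‖ < ‖a‖ := by
    have h1 : ‖b‖ ^ 2 < ‖a‖ ^ 2 := by
      rw [← Complex.normSq_eq_norm_sq, ← Complex.normSq_eq_norm_sq, Complex.normSq_apply,
        Complex.normSq_apply, ha, hb]
      unfold jac at hJ
      simp
      nlinarith
    exact lt_of_pow_lt_pow_left₀ 2 (norm_nonneg a) h1
  have ha0 : 0 < ‖a‖ := (norm_nonneg b).trans_lt hab
  have ha0' : a ≠ 0 := norm_pos_iff.1 ha0
  have hε : 0 < (‖a‖ - ‖b‖) / 2 := by linarith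
  have h1 := hL.isLittleO.def hε
  obtain ⟨R, hR, hR'⟩ := Metric.eventually_nhds_iff_ball.1 (h1.and hc)
  have h2 : ∀ᶠ r : ℝ in 𝓝[>] 0, (0 : ℝ) < r := self_mem_nhdsWithin
  have h3 : ∀ᶠ r : ℝ in 𝓝[>] 0, r < R := nhdsWithin_le_nhds (Iio_mem_nhds hR)
  filter_upwards [h2, h3] with r hr hr'
  have hmem : ∀ t : ℝ, circ z r t ∈ Metric.ball z R := by
    intro t
    rw [mem_ball_iff_norm, norm_circ_sub z hr.le]
    exact hr'
  -- the quotient by the linear part
  set Q : ℝ → ℂ := fun t => (τ (circ z r t) - τ z) /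
    (a * r * Complex.exp (2 * Real.pi * t * Complex.I)) with hQ
  have hr0 : (r : ℂ) ≠ 0 := by exact_mod_cast hr.ne'
  have hQ1 : ∀ t : ℝ, ‖Q t - 1‖ < 1 := by
    intro t
    have hE : Complex.exp (2 * Real.pi * t * Complex.I) ≠ 0 := Complex.exp_ne_zero _
    have hden : a * r * Complex.exp (2 * Real.pi * t * Complex.I) ≠ 0 :=
      mul_ne_zero (mul_ne_zero ha0' hr0) hE
    have h4 := (hR' _ (hmem t)).1
    have e : circ z r t - z = r * Complex.exp (2 * Real.pi * t * Complex.I) := by simp [circ]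
    rw [e, hLab, norm_mul _ (Complex.exp _), norm_exp_circ, mul_one, Complex.norm_real,
      Real.norm_eq_abs, abs_of_pos hr] at h4
    set E := Complex.exp (2 * Real.pi * t * Complex.I) with hEdef
    have hEn : ‖E‖ = 1 := norm_exp_circ t
    have e2 : Q t - 1 = (τ (circ z r t) - τ z - a * (r * E)) / (a * r * E) := by
      rw [hQ]
      simp only
      rw [← hEdef]
      field_simp
    rw [e2, norm_div, norm_mul, norm_mul, hEn, mul_one, Complex.norm_real, Real.norm_eq_abs,
      abs_of_pos hr, div_lt_one (by positivity)]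
    have h5 : ‖τ (circ z r t) - τ z - a * (r * E)‖ ≤
        ‖τ (circ z r t) - τ z - (a * (r * E) + b * (starRingEnd ℂ) (r * E))‖ +
          ‖b * (starRingEnd ℂ) (r * E)‖ := by
      have := norm_add_le (τ (circ z r t) - τ z - (a * (r * E) + b * (starRingEnd ℂ) (r * E)))
        (b * (starRingEnd ℂ) (r * E))
      have e3 : τ (circ z r t) - τ z - (a * (r * E) + b * (starRingEnd ℂ) (r * E)) +
          b * (starRingEnd ℂ) (r * E) = τ (circ z r t) - τ z - a * (r * E) := by ring
      rwa [e3] at this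
    have h6 : ‖b * (starRingEnd ℂ) (r * E)‖ = ‖b‖ * r := by
      rw [norm_mul, RCLike.norm_conj, norm_mul, hEn, mul_one, Complex.norm_real, Real.norm_eq_abs,
        abs_of_pos hr]
    rw [h6] at h5
    nlinarith
  have hslit : ∀ t : ℝ, Q t ∈ Complex.slitPlane := by
    intro t
    left
    have h4 := hQ1 t
    have h5 := (Complex.abs_re_le_norm (Q t - 1)).trans_lt h4
    rw [Complex.sub_re, Complex.one_re] at h5
    linarith [(abs_lt.1 h5).1]
  have hQc : ContinuousOn Q (Icc 0 1) := by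
    apply Continuous.continuousOn
    rw [continuous_iff_continuousAt]
    intro t
    have hE : Complex.exp (2 * Real.pi * t * Complex.I) ≠ 0 := Complex.exp_ne_zero _
    refine ContinuousAt.div ?_ ?_ (mul_ne_zero (mul_ne_zero ha0' hr0) hE)
    · refine ContinuousAt.sub ?_ continuousAt_const
      refine ContinuousAt.comp (g := τ) (hR' _ (hmem t)).2 ?_
      unfold circ
      fun_prop
    · fun_prop
  refine ⟨fun t => Complex.log (a * r) + 2 * Real.pi * t * Complex.I + Complex.log (Q t), ?_, ?_, ?_⟩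
  · refine ContinuousOn.add (by fun_prop) ?_
    exact hQc.clog fun t _ => hslit t
  · intro t _
    rw [Complex.exp_add, Complex.exp_add, Complex.exp_log (mul_ne_zero ha0' hr0),
      Complex.exp_log (Complex.slitPlane_ne_zero (hslit t))]
    have hE : Complex.exp (2 * Real.pi * t * Complex.I) ≠ 0 := Complex.exp_ne_zero _
    have : circ z r t = z + r * Complex.exp (2 * Real.pi * t * Complex.I) := rfl
    rw [hQ]
    simp only [this]
    field_simp
  · have e : Q 1 = Q 0 := by
      rw [hQ]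
      simp only
      rw [circ_zero_one]
      congr 2
      have := circ_zero_one 0 1
      simp only [circ, zero_add, Complex.ofReal_one, one_mul] at this
      exact this.symm
    simp only [e]
    push_cast
    ring

end Pool.Agent.N224.Bary
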