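import Pool.Agent.N224.Bary.Map
import Pool.Agent.N224.Bary.Wind

set_option autoImplicit false

open Topology Set Filter

namespace Pool.Agent.N224.Bary

/-! ### charts from bijections -/

/-- a bijection of an open subset of a compact space onto a plane domain which is piecewise given by
continuous maps on closed sets is a chart -/
theorem exists_chart {S : Type*} [TopologicalSpace S] [CompactSpace S] [Nonempty S] {F F₁ F₂ : S → ℂ}
    {U K₁ K₂ : Set S} {T : Set ℂ} (hU : IsOpen U) (hT : IsOpen T) (hK₁ : IsClosed K₁)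
    (hK₂ : IsClosed K₂) (hUK : U ⊆ K₁ ∪ K₂) (hF₁ : ContinuousOn F₁ K₁) (hF₂ : ContinuousOn F₂ K₂)
    (e₁ : ∀ x ∈ K₁ ∩ U, F x = F₁ x) (e₂ : ∀ x ∈ K₂ ∩ U, F x = F₂ x)
    (hinj : InjOn F U) (hmaps : MapsTo F U T) (hsurj : SurjOn F U T)
    (d₁ : ∀ x ∈ K₁, F₁ x ∈ T → x ∈ U) (d₂ : ∀ x ∈ K₂, F₂ x ∈ T → x ∈ U) :
    ∃ φ : OpenPartialHomeomorph S ℂ, φ.source = U ∧ φ.target = T ∧ ∀ x, φ x = F x := by
  classical
  let g : ℂ → S := Function.invFunOn F U
  have hg1 : ∀ w ∈ T, g w ∈ U ∧ F (g w) = w := by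
    intro w hw
    obtain ⟨x, hx, hxw⟩ := hsurj hw
    exact ⟨Function.invFunOn_mem ⟨x, hx, hxw⟩, Function.invFunOn_eq ⟨x, hx, hxw⟩⟩
  have hg2 : ∀ x ∈ U, g (F x) = x := by
    intro x hx
    obtain ⟨h1, h2⟩ := hg1 _ (hmaps hx)
    exact hinj h1 hx h2
  have hFc : ContinuousOn F U := by
    intro x hx
    have hsplit : U = (K₁ ∩ U) ∪ (K₂ ∩ U) := by
      rw [← union_inter_distrib_right]
      exact (inter_eq_right.2 hUK).symm
    have aux : ∀ (K : Set S) (F' : S → ℂ), IsClosed K → ContinuousOn F' K →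
        (∀ x ∈ K ∩ U, F x = F' x) → Tendsto F (𝓝[K ∩ U] x) (𝓝 (F x)) := by
      intro K F' hK hF' he
      by_cases hxK : x ∈ K
      · have h1 : Tendsto F' (𝓝[K ∩ U] x) (𝓝 (F' x)) :=
          (hF' x hxK).mono_left (nhdsWithin_mono _ inter_subset_left)
        rw [he x ⟨hxK, hx⟩]
        refine h1.congr' ?_
        filter_upwards [self_mem_nhdsWithin] with y hy
        exact (he y hy).symm
      · have h1 : 𝓝[K ∩ U] x = ⊥ := by
          rw [← notMem_closure_iff_nhdsWithin_eq_bot]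
          intro h2
          exact hxK (hK.closure_subset_iff.2 inter_subset_left h2)
        rw [h1]
        exact tendsto_bot
    change Tendsto F (𝓝[U] x) (𝓝 (F x))
    have h2 : 𝓝[U] x = 𝓝[K₁ ∩ U] x ⊔ 𝓝[K₂ ∩ U] x := by
      conv_lhs => rw [hsplit]
      exact nhdsWithin_union _ _ _
    rw [h2]
    exact (aux K₁ F₁ hK₁ hF₁ e₁).sup (aux K₂ F₂ hK₂ hF₂ e₂)
  have hgc : ContinuousOn g T := by
    rw [continuousOn_iff_isClosed]
    intro A hA
    refine ⟨F₁ '' (K₁ ∩ A) ∪ F₂ '' (K₂ ∩ A), ?_, ?_⟩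
    · have c1 : IsCompact (F₁ '' (K₁ ∩ A)) :=
        ((hK₁.inter hA).isCompact).image_of_continuousOn (hF₁.mono inter_subset_left)
      have c2 : IsCompact (F₂ '' (K₂ ∩ A)) :=
        ((hK₂.inter hA).isCompact).image_of_continuousOn (hF₂.mono inter_subset_left)
      exact c1.isClosed.union c2.isClosed
    · ext w
      constructor
      · rintro ⟨h1, h2⟩
        obtain ⟨h3, h4⟩ := hg1 w h2
        refine ⟨?_, h2⟩
        rcases hUK h3 with h5 | h5
        · exact Or.inl ⟨g w, ⟨h5, h1⟩, by rw [← e₁ _ ⟨h5, h3⟩, h4]⟩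
        · exact Or.inr ⟨g w, ⟨h5, h1⟩, by rw [← e₂ _ ⟨h5, h3⟩, h4]⟩
      · rintro ⟨h1 | h1, h2⟩
        · obtain ⟨x, ⟨hx1, hx2⟩, rfl⟩ := h1
          have hxU := d₁ x hx1 h2
          refine ⟨?_, h2⟩
          rw [mem_preimage, ← e₁ x ⟨hx1, hxU⟩, hg2 x hxU]
          exact hx2
        · obtain ⟨x, ⟨hx1, hx2⟩, rfl⟩ := h1
          have hxU := d₂ x hx1 h2
          refine ⟨?_, h2⟩
          rw [mem_preimage, ← e₂ x ⟨hx1, hxU⟩, hg2 x hxU]
          exact hx2
  refine ⟨{ toFun := F
            invFun := g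
            source := U
            target := T
            map_source' := fun x hx => hmaps hx
            map_target' := fun w hw => (hg1 w hw).1
            left_inv' := fun x hx => hg2 x hx
            right_inv' := fun w hw => (hg1 w hw).2
            open_source := hU
            open_target := hT
            continuousOn_toFun := hFc
            continuousOn_invFun := hgc }, rfl, rfl, fun _ => rfl⟩

/-! ### the power map on a sector -/

/-- the direction of the second side of the sector of angle `π / m` -/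
noncomputable def eta (m : ℕ) : ℂ := ⟨Real.cos (Real.pi / m), Real.sin (Real.pi / m)⟩

variable {m : ℕ}

theorem angle_bounds (hm : 2 ≤ m) : 0 < Real.pi / m ∧ Real.pi / m ≤ Real.pi / 2 ∧
    (m : ℝ) * (Real.pi / m) = Real.pi := by
  have hm' : (2 : ℝ) ≤ m := by exact_mod_cast hm
  have hpi := Real.pi_pos
  refine ⟨by positivity, div_le_div_of_nonneg_left hpi.le (by norm_num) hm', ?_⟩
  field_simp

theorem sin_pos_m (hm : 2 ≤ m) : 0 < Real.sin (Real.pi / m) := by
  obtain ⟨h1, h2, -⟩ := angle_bounds hm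
  exact Real.sin_pos_of_pos_of_lt_pi h1 (by linarith [Real.pi_pos])

/-- polar coordinates in the sector -/
theorem sector_polar (hm : 2 ≤ m) {α β : ℝ} (hα : 0 ≤ α) (hβ : 0 ≤ β) :
    ∃ r θ : ℝ, 0 ≤ r ∧ 0 ≤ θ ∧ θ ≤ Real.pi / m ∧ (α : ℂ) + β * eta m = r * Complex.exp (θ * Complex.I) := by
  obtain ⟨h1, h2, -⟩ := angle_bounds hm
  have hs := sin_pos_m hm
  set z : ℂ := (α : ℂ) + β * eta m with hz
  have him : z.im = β * Real.sin (Real.pi / m) := by rw [hz]; simp [eta]
  have hre : z.re = α + β * Real.cos (Real.pi / m) := by rw [hz]; simp [eta]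
  by_cases h0 : z = 0
  · exact ⟨0, 0, le_rfl, le_rfl, h1.le, by rw [h0]; simp⟩
  have hr : 0 < ‖z‖ := norm_pos_iff.2 h0
  have hθ0 : 0 ≤ Complex.arg z := Complex.arg_nonneg_iff.2 (by rw [him]; positivity)
  have hpol : z = ‖z‖ * Complex.exp (Complex.arg z * Complex.I) := (Complex.norm_mul_exp_arg_mul_I z).symm
  have hre' : z.re = ‖z‖ * Real.cos (Complex.arg z) := by
    conv_lhs => rw [hpol]
    rw [Complex.exp_mul_I, ← Complex.ofReal_cos, ← Complex.ofReal_sin]
    simp
  have him' : z.im = ‖z‖ * Real.sin (Complex.arg z) := by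
    conv_lhs => rw [hpol]
    rw [Complex.exp_mul_I, ← Complex.ofReal_cos, ← Complex.ofReal_sin]
    simp
  refine ⟨‖z‖, Complex.arg z, norm_nonneg _, hθ0, ?_, hpol⟩
  by_contra hcon
  push Not at hcon
  have h3 : Real.sin (Complex.arg z - Real.pi / m) > 0 := by
    apply Real.sin_pos_of_pos_of_lt_pi
    · linarith
    · linarith [Complex.arg_le_pi z]
  rw [Real.sin_sub] at h3
  have h4 : α * Real.sin (Real.pi / m) = -(‖z‖ * (Real.sin (Complex.arg z) * Real.cos (Real.pi / m) -
      Real.cos (Complex.arg z) * Real.sin (Real.pi / m))) := by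
    have e1 : α = z.re - β * Real.cos (Real.pi / m) := by rw [hre]; ring
    have e2 : α * Real.sin (Real.pi / m) =
        z.re * Real.sin (Real.pi / m) - z.im * Real.cos (Real.pi / m) := by
      rw [e1, him]; ring
    rw [e2, hre', him']
    ring
  have h5 : 0 ≤ α * Real.sin (Real.pi / m) := by positivity
  have h6 := mul_pos hr h3
  linarith

theorem pow_polar (r θ : ℝ) : ((r : ℂ) * Complex.exp (θ * Complex.I)) ^ m =
    ((r ^ m * Real.cos (m * θ) : ℝ) : ℂ) + ((r ^ m * Real.sin (m * θ) : ℝ) : ℂ) * Complex.I := by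
  rw [mul_pow, ← Complex.exp_nat_mul]
  have : (m : ℂ) * (θ * Complex.I) = ((m * θ : ℝ) : ℂ) * Complex.I := by push_cast; ring
  rw [this, Complex.exp_mul_I, ← Complex.ofReal_cos, ← Complex.ofReal_sin]
  push_cast
  ring

theorem re_add_im_aux (a b : ℝ) : ((a : ℂ) + (b : ℂ) * Complex.I).re = a := by simp

theorem im_add_im_aux (a b : ℝ) : ((a : ℂ) + (b : ℂ) * Complex.I).im = b := by simp

theorem pow_polar_re (r θ : ℝ) : (((r : ℂ) * Complex.exp (θ * Complex.I)) ^ m).re =
    r ^ m * Real.cos (m * θ) := by rw [pow_polar, re_add_im_aux]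

theorem pow_polar_im (r θ : ℝ) : (((r : ℂ) * Complex.exp (θ * Complex.I)) ^ m).im =
    r ^ m * Real.sin (m * θ) := by rw [pow_polar, im_add_im_aux]

theorem polar_re (r θ : ℝ) : ((r : ℂ) * Complex.exp (θ * Complex.I)).re = r * Real.cos θ := by
  have := pow_polar_re (m := 1) r θ
  simpa only [pow_one, Nat.cast_one, one_mul] using this

theorem polar_im (r θ : ℝ) : ((r : ℂ) * Complex.exp (θ * Complex.I)).im = r * Real.sin θ := by
  have := pow_polar_im (m := 1) r θ
  simpa only [pow_one, Nat.cast_one, one_mul] using this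

theorem eta_re_aux (α β : ℝ) : ((α : ℂ) + β * eta m).re = α + β * Real.cos (Real.pi / m) := by
  simp [eta]

theorem eta_im_aux (α β : ℝ) : ((α : ℂ) + β * eta m).im = β * Real.sin (Real.pi / m) := by
  simp [eta]

theorem coords_unique (hm : 2 ≤ m) {α β α' β' : ℝ}
    (h : (α : ℂ) + β * eta m = α' + β' * eta m) : α = α' ∧ β = β' := by
  have hs := sin_pos_m hm
  have h1 := congrArg Complex.im h
  have h2 := congrArg Complex.re h
  simp [eta] at h1 h2
  have h3 : β = β' := by
    rcases h1 with h1 | h1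
    · exact h1
    · exact absurd h1 hs.ne'
  rw [h3] at h2
  exact ⟨by linarith, h3⟩

theorem sector_im (hm : 2 ≤ m) {α β : ℝ} (hα : 0 ≤ α) (hβ : 0 ≤ β) :
    0 ≤ (((α : ℂ) + β * eta m) ^ m).im := by
  obtain ⟨h1, h2, h3⟩ := angle_bounds hm
  obtain ⟨r, θ, hr, h0, hθ, e⟩ := sector_polar hm hα hβ
  rw [e, pow_polar_im]
  have h4 : (m : ℝ) * θ ≤ Real.pi := by
    rw [← h3]
    exact mul_le_mul_of_nonneg_left hθ (by positivity)
  have h5 : 0 ≤ Real.sin (m * θ) := Real.sin_nonneg_of_nonneg_of_le_pi (by positivity) h4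
  positivity

theorem sector_real (hm : 2 ≤ m) {α β : ℝ} (hα : 0 ≤ α) (hβ : 0 ≤ β)
    (h : (((α : ℂ) + β * eta m) ^ m).im = 0) : α = 0 ∨ β = 0 := by
  obtain ⟨h1, h2, h3⟩ := angle_bounds hm
  have hs := sin_pos_m hm
  have hm0 : m ≠ 0 := by omega
  have hm0' : (0 : ℝ) < m := by exact_mod_cast (by omega : 0 < m)
  obtain ⟨r, θ, hr, h0, hθ, e⟩ := sector_polar hm hα hβ
  have h' : r ^ m * Real.sin (m * θ) = 0 := by rw [e, pow_polar_im] at h; exact h
  have him : β * Real.sin (Real.pi / m) = r * Real.sin θ := by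
    have := congrArg Complex.im e
    rwa [eta_im_aux, polar_im] at this
  have hre : α + β * Real.cos (Real.pi / m) = r * Real.cos θ := by
    have := congrArg Complex.re e
    rwa [eta_re_aux, polar_re] at this
  have h4 : (m : ℝ) * θ ≤ Real.pi := by
    rw [← h3]
    exact mul_le_mul_of_nonneg_left hθ (by positivity)
  rcases mul_eq_zero.1 h' with h5 | h5
  · have hr0 : r = 0 := pow_eq_zero_iff hm0 |>.1 h5
    rw [hr0, zero_mul] at him
    right
    rcases mul_eq_zero.1 him with h6 | h6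
    · exact h6
    · exact absurd h6 hs.ne'
  · rcases (by positivity : (0 : ℝ) ≤ m * θ).eq_or_lt with h6 | h6
    · have h7 : θ = 0 := by
        rcases mul_eq_zero.1 h6.symm with h8 | h8
        · exact absurd h8 hm0'.ne'
        · exact h8
      rw [h7, Real.sin_zero, mul_zero] at him
      right
      rcases mul_eq_zero.1 him with h8 | h8
      · exact h8
      · exact absurd h8 hs.ne'
    · rcases h4.eq_or_lt with h7 | h7
      · have h8 : θ = Real.pi / m := by
          rw [eq_div_iff hm0'.ne', mul_comm]; exact h7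
        left
        rw [h8] at him hre
        have h9 : β = r := mul_right_cancel₀ hs.ne' him
        rw [h9] at hre
        linarith
      · exact absurd h5 (Real.sin_pos_of_pos_of_lt_pi h6 h7).ne'

theorem sector_inj (hm : 2 ≤ m) {α β α' β' : ℝ} (hα : 0 ≤ α) (hβ : 0 ≤ β) (hα' : 0 ≤ α')
    (hβ' : 0 ≤ β') (h : ((α : ℂ) + β * eta m) ^ m = ((α' : ℂ) + β' * eta m) ^ m) :
    α = α' ∧ β = β' := by
  obtain ⟨h1, h2, h3⟩ := angle_bounds hm
  have hm0 : m ≠ 0 := by omega
  have hm0' : (0 : ℝ) < m := by exact_mod_cast (by omega : 0 < m)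
  obtain ⟨r, θ, hr, h0, hθ, e⟩ := sector_polar hm hα hβ
  obtain ⟨r', θ', hr', h0', hθ', e'⟩ := sector_polar hm hα' hβ'
  apply coords_unique hm
  rw [e, e'] at h ⊢
  have hn : r = r' := by
    have h4 := congrArg norm h
    rw [norm_pow, norm_pow, norm_mul, norm_mul, Complex.norm_exp_ofReal_mul_I,
      Complex.norm_exp_ofReal_mul_I, mul_one, mul_one, Complex.norm_real, Complex.norm_real,
      Real.norm_eq_abs, Real.norm_eq_abs, abs_of_nonneg hr, abs_of_nonneg hr'] at h4
    exact (pow_left_inj₀ hr hr' hm0).1 h4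
  subst hn
  rcases hr.eq_or_lt with h4 | h4
  · rw [← h4]; simp
  have h5 : Real.cos (m * θ) = Real.cos (m * θ') := by
    have h6 := congrArg Complex.re h
    rw [pow_polar_re, pow_polar_re] at h6
    exact mul_left_cancel₀ (by positivity) h6
  have h6 : (m : ℝ) * θ = m * θ' := by
    refine Real.injOn_cos ⟨by positivity, ?_⟩ ⟨by positivity, ?_⟩ h5
    · rw [← h3]
      exact mul_le_mul_of_nonneg_left hθ (by positivity)
    · rw [← h3]
      exact mul_le_mul_of_nonneg_left hθ' (by positivity)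
  rw [mul_left_cancel₀ hm0'.ne' h6]

theorem sector_surj (hm : 2 ≤ m) {w : ℂ} (hw : 0 ≤ w.im) : ∃ α β : ℝ, 0 ≤ α ∧ 0 ≤ β ∧
    ((α : ℂ) + β * eta m) ^ m = w := by
  obtain ⟨h1, h2, h3⟩ := angle_bounds hm
  have hs := sin_pos_m hm
  have hm0 : m ≠ 0 := by omega
  have hm0' : (0 : ℝ) < m := by exact_mod_cast (by omega : 0 < m)
  set θ : ℝ := Complex.arg w / m with hθ
  set r : ℝ := ‖w‖ ^ (1 / (m : ℝ)) with hr
  have hθ0 : 0 ≤ θ := div_nonneg (Complex.arg_nonneg_iff.2 hw) hm0'.le
  have hθ1 : θ ≤ Real.pi / m := div_le_div_of_nonneg_right (Complex.arg_le_pi w) hm0'.le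
  have hr0 : 0 ≤ r := Real.rpow_nonneg (norm_nonneg _) _
  have hrm : r ^ m = ‖w‖ := by
    rw [hr, ← Real.rpow_natCast, ← Real.rpow_mul (norm_nonneg _), one_div, inv_mul_cancel₀ hm0'.ne',
      Real.rpow_one]
  refine ⟨r * Real.sin (Real.pi / m - θ) / Real.sin (Real.pi / m),
    r * Real.sin θ / Real.sin (Real.pi / m), ?_, ?_, ?_⟩
  · have : 0 ≤ Real.sin (Real.pi / m - θ) :=
      Real.sin_nonneg_of_nonneg_of_le_pi (by linarith) (by linarith [Real.pi_pos])
    positivity
  · have : 0 ≤ Real.sin θ :=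
      Real.sin_nonneg_of_nonneg_of_le_pi hθ0 (by linarith [Real.pi_pos])
    positivity
  · have e : ((r * Real.sin (Real.pi / m - θ) / Real.sin (Real.pi / m) : ℝ) : ℂ) +
        ((r * Real.sin θ / Real.sin (Real.pi / m) : ℝ) : ℂ) * eta m = r * Complex.exp (θ * Complex.I) := by
      rw [Complex.exp_mul_I, ← Complex.ofReal_cos, ← Complex.ofReal_sin]
      apply Complex.ext
      · simp only [eta, Complex.add_re, Complex.mul_re, Complex.ofReal_re, Complex.ofReal_im,
          Complex.I_re, Complex.I_im, zero_mul, mul_zero, sub_zero, add_zero, mul_one]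
        rw [Real.sin_sub]
        field_simp
        ring
      · simp only [eta, Complex.add_im, Complex.mul_im, Complex.add_re, Complex.mul_re, Complex.ofReal_re,
          Complex.ofReal_im, Complex.I_re, Complex.I_im, zero_mul, mul_zero, sub_zero, add_zero,
          mul_one, zero_add]
        field_simp
    rw [e, mul_pow, ← Complex.exp_nat_mul]
    have h4 : (m : ℂ) * (θ * Complex.I) = Complex.arg w * Complex.I := by
      rw [hθ]
      push_cast
      have : (m : ℂ) ≠ 0 := by exact_mod_cast hm0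
      field_simp
    rw [h4, ← Complex.ofReal_pow, hrm]
    exact Complex.norm_mul_exp_arg_mul_I w

end Pool.Agent.N224.Bary
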