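import Pool.Agent.N224.Bary.Defs

set_option autoImplicit false

open Topology Set Filter

namespace Pool.Agent.N224.Bary

/-- the smallest of three numbers -/
def mn (x y z : ℝ) : ℝ := min x (min y z)

/-- The double of a triangle: two copies (`s ≥ 0` and `s ≤ 0`) of the triangle
`{(x₁, x₂, x₃) : xᵢ ≥ 0, x₁ + x₂ + x₃ = 1}`, glued along the boundary; realized as the surface
`|s| = min (x₁, x₂, x₃)` with coordinates `(x₂, x₃, s)`. -/
abbrev Pil : Type := {q : ℝ × ℝ × ℝ // |q.2.2| = mn (1 - q.1 - q.2.1) q.1 q.2.1}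

def x1 (p : Pil) : ℝ := 1 - p.1.1 - p.1.2.1
def x2 (p : Pil) : ℝ := p.1.1
def x3 (p : Pil) : ℝ := p.1.2.1
def sg (p : Pil) : ℝ := p.1.2.2

theorem continuous_x1 : Continuous x1 := by unfold x1; fun_prop
theorem continuous_x2 : Continuous x2 := by unfold x2; fun_prop
theorem continuous_x3 : Continuous x3 := by unfold x3; fun_prop
theorem continuous_sg : Continuous sg := by unfold sg; fun_prop

attribute [fun_prop] continuous_x1 continuous_x2 continuous_x3 continuous_sg

theorem mn_le (x y z : ℝ) : mn x y z ≤ x ∧ mn x y z ≤ y ∧ mn x y z ≤ z :=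
  ⟨min_le_left _ _, (min_le_right _ _).trans (min_le_left _ _),
    (min_le_right _ _).trans (min_le_right _ _)⟩

theorem continuous_mn : Continuous fun q : ℝ × ℝ × ℝ => mn q.1 q.2.1 q.2.2 := by
  unfold mn; fun_prop

@[fun_prop]
theorem Continuous.mn {X : Type*} [TopologicalSpace X] {f g h : X → ℝ} (hf : Continuous f)
    (hg : Continuous g) (hh : Continuous h) : Continuous fun x => mn (f x) (g x) (h x) := by
  unfold Bary.mn; fun_prop

theorem abs_sg (p : Pil) : |sg p| = mn (x1 p) (x2 p) (x3 p) := p.2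

theorem sum_eq (p : Pil) : x1 p + x2 p + x3 p = 1 := by unfold x1 x2 x3; ring

theorem x_nonneg (p : Pil) : 0 ≤ x1 p ∧ 0 ≤ x2 p ∧ 0 ≤ x3 p := by
  have h := abs_sg p
  have h1 := mn_le (x1 p) (x2 p) (x3 p)
  have h2 := abs_nonneg (sg p)
  exact ⟨by linarith, by linarith, by linarith⟩

theorem Pil.ext {p q : Pil} (h2 : x2 p = x2 q) (h3 : x3 p = x3 q) (hs : sg p = sg q) : p = q :=
  Subtype.ext (Prod.ext h2 (Prod.ext h3 hs))

/-- the point with given coordinates -/
def mkP (x y z s : ℝ) (h : x + y + z = 1) (hs : |s| = mn x y z) : Pil :=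
  ⟨(y, z, s), by
    have : (1 : ℝ) - y - z = x := by linarith
    simpa [this] using hs⟩

@[simp] theorem x1_mkP {x y z s : ℝ} (h : x + y + z = 1) (hs : |s| = mn x y z) :
    x1 (mkP x y z s h hs) = x := by
  change 1 - y - z = x
  linarith

@[simp] theorem x2_mkP {x y z s : ℝ} (h : x + y + z = 1) (hs : |s| = mn x y z) :
    x2 (mkP x y z s h hs) = y := rfl

@[simp] theorem x3_mkP {x y z s : ℝ} (h : x + y + z = 1) (hs : |s| = mn x y z) :
    x3 (mkP x y z s h hs) = z := rfl

@[simp] theorem sg_mkP {x y z s : ℝ} (h : x + y + z = 1) (hs : |s| = mn x y z) :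
    sg (mkP x y z s h hs) = s := rfl

/-! ### `Pil` is a sphere -/

theorem frontier_convex {E : Type*} [NormedAddCommGroup E] [NormedSpace ℝ E] {g : E → ℝ}
    (hg : Continuous g) (hc : ∀ v w : E, ∀ t ∈ Icc (0 : ℝ) 1,
      g ((1 - t) • v + t • w) ≤ (1 - t) * g v + t * g w) {c : E} (h0 : g c < 0) :
    IsClosed {v | g v ≤ 0} ∧ Convex ℝ {v | g v ≤ 0} ∧ (interior {v | g v ≤ 0}).Nonempty ∧
      frontier {v | g v ≤ 0} = {v | g v = 0} := by
  have hcl : IsClosed {v | g v ≤ 0} := isClosed_le hg continuous_const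
  have hop : {v | g v < 0} ⊆ interior {v | g v ≤ 0} :=
    interior_maximal (fun v (hv : g v < 0) => show g v ≤ 0 from hv.le) (isOpen_lt hg continuous_const)
  refine ⟨hcl, ?_, ⟨c, hop h0⟩, ?_⟩
  · intro v hv w hw a b ha hb hab
    have h1 := hc v w b ⟨hb, by linarith⟩
    have h2 : 1 - b = a := by linarith
    rw [h2] at h1
    have h3 : a * g v ≤ 0 := mul_nonpos_of_nonneg_of_nonpos ha hv
    have h4 : b * g w ≤ 0 := mul_nonpos_of_nonneg_of_nonpos hb hw
    change g _ ≤ 0
    linarith
  · rw [hcl.frontier_eq]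
    ext v
    constructor
    · rintro ⟨h1, h2⟩
      have h1' : g v ≤ 0 := h1
      by_contra hne
      exact h2 (hop (lt_of_le_of_ne h1' hne))
    · intro hv
      have hv' : g v = 0 := hv
      refine ⟨hv'.le, fun hint => ?_⟩
      -- points beyond `v`
      have hcont : Tendsto (fun t : ℝ => v + t • (v - c)) (𝓝[>] 0) (𝓝 v) := by
        have : Continuous fun t : ℝ => v + t • (v - c) := by fun_prop
        have h3 := this.tendsto 0
        rw [zero_smul, add_zero] at h3
        exact h3.mono_left nhdsWithin_le_nhds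
      have h4 := hcont.eventually (mem_interior_iff_mem_nhds.1 hint)
      have h5 : ∀ᶠ t : ℝ in 𝓝[>] 0, 0 < t := self_mem_nhdsWithin
      obtain ⟨t, ht1, ht2⟩ := (h4.and h5).exists
      have ht1' : g (v + t • (v - c)) ≤ 0 := ht1
      have h6 := hc (v + t • (v - c)) c (t / (1 + t)) ⟨by positivity, by
        rw [div_le_one (by positivity)]; linarith⟩
      have h7 : (1 - t / (1 + t)) • (v + t • (v - c)) + (t / (1 + t)) • c = v := by
        have e1 : 1 - t / (1 + t) = 1 / (1 + t) := by field_simp; ring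
        rw [e1, smul_add, smul_sub, smul_sub, smul_smul, smul_smul]
        have e2 : (1 / (1 + t)) • v + ((1 / (1 + t) * t) • v - (1 / (1 + t) * t) • c) +
            (t / (1 + t)) • c = (1 / (1 + t) + 1 / (1 + t) * t) • v := by
          have : 1 / (1 + t) * t = t / (1 + t) := by ring
          rw [this, add_smul]
          abel
        rw [e2]
        have e3 : 1 / (1 + t) + 1 / (1 + t) * t = 1 := by field_simp
        rw [e3, one_smul]
      rw [h7, hv'] at h6
      have h8 : (1 - t / (1 + t)) * g (v + t • (v - c)) ≤ 0 := by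
        refine mul_nonpos_of_nonneg_of_nonpos ?_ ht1'
        have e1 : 1 - t / (1 + t) = 1 / (1 + t) := by field_simp; ring
        rw [e1]
        positivity
      have h9 : t / (1 + t) * g c < 0 := mul_neg_of_pos_of_neg (by positivity) h0
      linarith

theorem mn_concave {x y z x' y' z' t : ℝ} (ht : t ∈ Icc (0 : ℝ) 1) :
    (1 - t) * mn x y z + t * mn x' y' z' ≤
      mn ((1 - t) * x + t * x') ((1 - t) * y + t * y') ((1 - t) * z + t * z') := by
  obtain ⟨h1, h2, h3⟩ := mn_le x y z
  obtain ⟨h1', h2', h3'⟩ := mn_le x' y' z'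
  have ht0 := ht.1
  have ht1 : 0 ≤ 1 - t := by linarith [ht.2]
  refine le_min ?_ (le_min ?_ ?_)
  · exact add_le_add (mul_le_mul_of_nonneg_left h1 ht1) (mul_le_mul_of_nonneg_left h1' ht0)
  · exact add_le_add (mul_le_mul_of_nonneg_left h2 ht1) (mul_le_mul_of_nonneg_left h2' ht0)
  · exact add_le_add (mul_le_mul_of_nonneg_left h3 ht1) (mul_le_mul_of_nonneg_left h3' ht0)

/-- The surface `Pil` is homeomorphic to the sphere. -/
theorem exists_homeo_sphere :
    Nonempty (Pil ≃ₜ Metric.sphere (0 : EuclideanSpace ℝ (Fin 3)) 1) := by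
  have hfin : Module.finrank ℝ (ℝ × ℝ × ℝ) = Module.finrank ℝ (EuclideanSpace ℝ (Fin 3)) := by
    simp
  let Λ : (ℝ × ℝ × ℝ) ≃L[ℝ] EuclideanSpace ℝ (Fin 3) := ContinuousLinearEquiv.ofFinrankEq hfin
  let G : ℝ × ℝ × ℝ → ℝ := fun q => |q.2.2| - mn (1 - q.1 - q.2.1) q.1 q.2.1
  have hG : Continuous G := by
    simp only [G]
    fun_prop
  have hGc : ∀ v w : ℝ × ℝ × ℝ, ∀ t ∈ Icc (0 : ℝ) 1,
      G ((1 - t) • v + t • w) ≤ (1 - t) * G v + t * G w := by
    intro v w t ht
    have h1 := mn_concave (x := 1 - v.1 - v.2.1) (y := v.1) (z := v.2.1) (x' := 1 - w.1 - w.2.1)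
      (y' := w.1) (z' := w.2.1) ht
    have h2 : |(1 - t) * v.2.2 + t * w.2.2| ≤ (1 - t) * |v.2.2| + t * |w.2.2| := by
      have := abs_add_le ((1 - t) * v.2.2) (t * w.2.2)
      rwa [abs_mul, abs_mul, abs_of_nonneg ht.1, abs_of_nonneg (by linarith [ht.2] : 0 ≤ 1 - t)]
        at this
    simp only [G, Prod.fst_add, Prod.snd_add, Prod.smul_fst, Prod.smul_snd, smul_eq_mul]
    have e : 1 - ((1 - t) * v.1 + t * w.1) - ((1 - t) * v.2.1 + t * w.2.1) =
        (1 - t) * (1 - v.1 - v.2.1) + t * (1 - w.1 - w.2.1) := by ring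
    rw [e]
    nlinarith
  let g : EuclideanSpace ℝ (Fin 3) → ℝ := fun v => G (Λ.symm v)
  have hg : Continuous g := hG.comp Λ.symm.continuous
  have hgc : ∀ v w : EuclideanSpace ℝ (Fin 3), ∀ t ∈ Icc (0 : ℝ) 1,
      g ((1 - t) • v + t • w) ≤ (1 - t) * g v + t * g w := by
    intro v w t ht
    simp only [g, map_add, map_smul]
    exact hGc _ _ t ht
  have h0 : g (Λ (1 / 3, 1 / 3, 0)) < 0 := by
    simp only [g, ContinuousLinearEquiv.symm_apply_apply, G]
    norm_num [mn]
  obtain ⟨hcl, hconv, hint, hfr⟩ := frontier_convex hg hgc h0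
  have hbd : Bornology.IsBounded {v | g v ≤ 0} := by
    have h1 : {v | g v ≤ 0} ⊆ Λ '' (Metric.closedBall 0 1) := by
      intro v hv
      refine ⟨Λ.symm v, ?_, by simp⟩
      have hv' : |(Λ.symm v).2.2| ≤ mn (1 - (Λ.symm v).1 - (Λ.symm v).2.1) (Λ.symm v).1
        (Λ.symm v).2.1 := by
        have : g v ≤ 0 := hv
        simp only [g, G] at this
        linarith
      obtain ⟨k1, k2, k3⟩ := mn_le (1 - (Λ.symm v).1 - (Λ.symm v).2.1) (Λ.symm v).1
        (Λ.symm v).2.1
      have k4 := abs_nonneg (Λ.symm v).2.2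
      rw [mem_closedBall_zero_iff, Prod.norm_def, Prod.norm_def]
      refine max_le ?_ (max_le ?_ ?_)
      · rw [Real.norm_eq_abs, abs_le]; constructor <;> linarith
      · rw [Real.norm_eq_abs, abs_le]; constructor <;> linarith
      · rw [Real.norm_eq_abs]; linarith
    exact (((isCompact_closedBall (0 : ℝ × ℝ × ℝ) 1).image Λ.continuous).isBounded).subset h1
  obtain ⟨h, -, -, hh⟩ := exists_homeomorph_image_interior_closure_frontier_eq_unitBall hconv hint hbd
  rw [hfr] at hh
  let e : (ℝ × ℝ × ℝ) ≃ₜ EuclideanSpace ℝ (Fin 3) := Λ.toHomeomorph.trans h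
  refine ⟨e.subtype (p := fun q : ℝ × ℝ × ℝ => |q.2.2| = mn (1 - q.1 - q.2.1) q.1 q.2.1)
    (q := fun v => v ∈ Metric.sphere (0 : EuclideanSpace ℝ (Fin 3)) 1) ?_⟩
  intro q
  have h3 : e q = h (Λ q) := rfl
  rw [h3, ← hh]
  constructor
  · intro hq
    refine ⟨Λ q, ?_, rfl⟩
    change G (Λ.symm (Λ q)) = 0
    rw [ContinuousLinearEquiv.symm_apply_apply]
    simp only [G]
    linarith
  · rintro ⟨v, hv, he⟩
    have hv2 : v = Λ q := h.injective he
    have hv' : G (Λ.symm v) = 0 := hv
    rw [hv2, ContinuousLinearEquiv.symm_apply_apply] at hv'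
    simp only [G] at hv'
    linarith

/-- the common boundary of the two triangles -/
def Cur : Set Pil := {p | sg p = 0}

theorem isJordanCurve_Cur : IsJordanCurve Cur := by
  let g : ℂ → ℝ := fun v => -mn (1 - v.re - v.im) v.re v.im
  have hg : Continuous g := by
    simp only [g]
    fun_prop
  have hgc : ∀ v w : ℂ, ∀ t ∈ Icc (0 : ℝ) 1,
      g ((1 - t) • v + t • w) ≤ (1 - t) * g v + t * g w := by
    intro v w t ht
    have h1 := mn_concave (x := 1 - v.re - v.im) (y := v.re) (z := v.im) (x' := 1 - w.re - w.im)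
      (y' := w.re) (z' := w.im) ht
    simp only [g, Complex.add_re, Complex.add_im, Complex.real_smul, Complex.mul_re, Complex.mul_im,
      Complex.ofReal_re, Complex.ofReal_im, zero_mul, sub_zero, add_zero]
    have e : 1 - ((1 - t) * v.re + t * w.re) - ((1 - t) * v.im + t * w.im) =
        (1 - t) * (1 - v.re - v.im) + t * (1 - w.re - w.im) := by ring
    rw [e]
    linarith
  have h0 : g ⟨1 / 3, 1 / 3⟩ < 0 := by
    simp only [g]
    norm_num [mn]
  obtain ⟨hcl, hconv, hint, hfr⟩ := frontier_convex hg hgc h0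
  have hbd : Bornology.IsBounded {v | g v ≤ 0} := by
    refine (Metric.isBounded_closedBall (x := (0 : ℂ)) (r := 2)).subset ?_
    intro v hv
    have hv' : g v ≤ 0 := hv
    simp only [g] at hv'
    obtain ⟨k1, k2, k3⟩ := mn_le (1 - v.re - v.im) v.re v.im
    rw [mem_closedBall_zero_iff]
    have := Complex.norm_le_abs_re_add_abs_im v
    rw [abs_of_nonneg (by linarith), abs_of_nonneg (by linarith)] at this
    linarith
  obtain ⟨h, -, -, hh⟩ := exists_homeomorph_image_interior_closure_frontier_eq_unitBall hconv hint hbd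
  rw [hfr] at hh
  have key : ∀ z : Circle, mn (1 - (h.symm z).re - (h.symm z).im) (h.symm z).re (h.symm z).im = 0 := by
    intro z
    have h1 : (z : ℂ) ∈ Metric.sphere (0 : ℂ) 1 := by
      rw [mem_sphere_zero_iff_norm]
      exact z.norm_coe
    rw [← hh] at h1
    obtain ⟨v, hv, hvz⟩ := h1
    have h2 : h.symm z = v := by rw [← hvz, h.symm_apply_apply]
    rw [h2]
    have h3 : g v = 0 := hv
    simp only [g] at h3
    linarith
  refine ⟨fun z => ⟨((h.symm z).re, (h.symm z).im, 0), by simp [key z]⟩, ?_, ?_, ?_⟩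
  · refine Continuous.subtype_mk ?_ _
    have : Continuous fun z : Circle => h.symm (z : ℂ) :=
      h.symm.continuous.comp continuous_subtype_val
    fun_prop
  · intro z w hzw
    have h1 := congrArg Subtype.val hzw
    have h2 : (h.symm z).re = (h.symm w).re := congrArg Prod.fst h1
    have h3 : (h.symm z).im = (h.symm w).im := congrArg (fun q => q.2.1) h1
    exact Subtype.ext (h.symm.injective (Complex.ext h2 h3))
  · ext p
    constructor
    · rintro ⟨z, rfl⟩
      rfl
    · intro hp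
      have hp' : sg p = 0 := hp
      have h1 : (⟨x2 p, x3 p⟩ : ℂ) ∈ {v | g v = 0} := by
        have h2 := abs_sg p
        rw [hp', abs_zero] at h2
        change -mn (x1 p) (x2 p) (x3 p) = 0
        linarith
      have h2 : h ⟨x2 p, x3 p⟩ ∈ Metric.sphere (0 : ℂ) 1 := by
        rw [← hh]
        exact mem_image_of_mem _ h1
      rw [mem_sphere_zero_iff_norm] at h2
      refine ⟨⟨h ⟨x2 p, x3 p⟩, by simpa [Submonoid.unitSphere] using h2⟩, ?_⟩
      apply Subtype.ext
      simp only [h.symm_apply_apply]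
      exact Prod.ext rfl (Prod.ext rfl hp'.symm)

instance : CompactSpace Pil := by
  obtain ⟨e⟩ := exists_homeo_sphere
  exact e.symm.compactSpace

end Pool.Agent.N224.Bary
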