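import Pool.Agent.N224.Bary.Obst

/-!
# The standard two-sphere
-/

set_option autoImplicit false

open scoped Manifold ContDiff

namespace Pool.Agent.N224.Bary

/-- The unit sphere of `ℝ³`, that is, the Riemann sphere with its standard smooth structure. -/
def Sph : Type := Metric.sphere (0 : EuclideanSpace ℝ (Fin 3)) 1

/-- the topology of the unit sphere (as a subspace of `ℝ³`, from Mathlib) -/
instance : TopologicalSpace Sph :=
  inferInstanceAs (TopologicalSpace (Metric.sphere (0 : EuclideanSpace ℝ (Fin 3)) 1))

/-- the standard atlas of the unit sphere (stereographic projections, from Mathlib) -/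
noncomputable instance : ChartedSpace (EuclideanSpace ℝ (Fin 2)) Sph :=
  inferInstanceAs
    (ChartedSpace (EuclideanSpace ℝ (Fin 2)) (Metric.sphere (0 : EuclideanSpace ℝ (Fin 3)) 1))

/-- The map `g` of the standard sphere is continuously differentiable. -/
def IsC1 (g : Sph → Sph) : Prop := ContMDiff (𝓡 2) (𝓡 2) 1 g

theorem exists_homeo_Sph : Nonempty (Pil ≃ₜ Sph) := exists_homeo_sphere

theorem no_C1_model (g : Sph → Sph) (hg : IsC1 g) (h : Pil ≃ₜ Sph) : ¬ ∀ x, h (bf x) = g (h x) :=
  no_smooth_model g hg h

end Pool.Agent.N224.Bary
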