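import Pool.Agent.N224.Bary.Branched

set_option autoImplicit false

open Topology Set Filter ComplexConjugate

namespace Pool.Agent.N224.Bary

/-- the vertices -/
def Vs : Set Pil := {y | x1 y = 1 ∨ x2 y = 1 ∨ x3 y = 1}

/-- charts in which the map is a power -/
def Star (p : Pil) (m : ℕ) (φ ψ : OpenPartialHomeomorph Pil ℂ) : Prop :=
  1 ≤ m ∧ Good φ ∧ Good ψ ∧ p ∈ φ.source ∧ (∀ x ∈ φ.source, bf x ∈ ψ.source ∧ ψ (bf x) = φ x ^ m) ∧
    ∀ y ∈ ψ.source, ψ y = 0 → y ∈ Vs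

theorem zz_eq_zero {m : ℕ} {a b : ℝ} (hm : 2 ≤ m) (ha : 0 < a) (hb : 0 < b) {p : Pil}
    (h : vf m a b p = 0) : x3 p = 1 := by
  have h1 : zz m a b p = 0 := by
    unfold vf at h
    split_ifs at h with h0
    · exact pow_eq_zero_iff (by omega : m ≠ 0) |>.1 h
    · rw [map_eq_zero] at h
      exact pow_eq_zero_iff (by omega : m ≠ 0) |>.1 h
  have h2 : ((x1 p / a : ℝ) : ℂ) + ((x2 p / b : ℝ) : ℂ) * eta m = ((0 : ℝ) : ℂ) + ((0 : ℝ) : ℂ) * eta m := by
    rw [Complex.ofReal_zero, zero_mul, add_zero]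
    exact h1
  obtain ⟨h3, h4⟩ := coords_unique hm h2
  have h5 : x1 p = 0 := by
    rcases div_eq_zero_iff.1 h3 with h6 | h6
    · exact h6
    · exact absurd h6 ha.ne'
  have h6 : x2 p = 0 := by
    rcases div_eq_zero_iff.1 h4 with h6 | h6
    · exact h6
    · exact absurd h6 hb.ne'
  linarith [sum_eq p]

theorem ps1_zero {y : Pil} (h : ps1 y = 0) : y ∈ Vs := by
  rw [ps1_apply] at h
  have := zz_eq_zero le_rfl (by norm_num) (by norm_num) h
  rw [x3_rot] at this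
  exact Or.inl this

theorem ps2_zero {y : Pil} (h : ps2 y = 0) : y ∈ Vs := by
  rw [ps2_apply] at h
  have := zz_eq_zero le_rfl (by norm_num) (by norm_num) h
  rw [x3_rot, x1_rot] at this
  exact Or.inr (Or.inl this)

theorem ps3_zero {y : Pil} (h : ps3 y = 0) : y ∈ Vs := by
  rw [ps3_apply] at h
  exact Or.inr (Or.inr (zz_eq_zero (by norm_num) (by norm_num) (by norm_num) h))

theorem exists_star_a {p : Pil} (h2 : x2 p < x1 p) (h3 : x3 p < x1 p) : ∃ m φ ψ, Star p m φ ψ :=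
  ⟨2, cha, ps1, by norm_num, good_cha, good_ps1, mem_cha.2 ⟨h2, h3⟩,
    fun _ hx => star_a (mem_cha.1 hx).1 (mem_cha.1 hx).2, fun _ _ h => ps1_zero h⟩

theorem exists_star_b {p : Pil} (h1 : x3 p < x1 p) (h2 : x3 p < x2 p) : ∃ m φ ψ, Star p m φ ψ :=
  ⟨2, chb, ps2, by norm_num, good_chb, good_ps2, mem_chb.2 ⟨h1, h2⟩,
    fun _ hx => star_b (mem_chb.1 hx).1 (mem_chb.1 hx).2, fun _ _ h => ps2_zero h⟩

theorem exists_star_c {p : Pil} (h : 0 < sg p) : ∃ m φ ψ, Star p m φ ψ :=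
  ⟨3, chc, ps3, by norm_num, good_chc, good_ps3, mem_chc.2 h,
    fun _ hx => star_c (mem_chc.1 hx), fun _ _ h => ps3_zero h⟩

theorem exists_star_rot {p : Pil} (h : ∃ m φ ψ, Star (rot p) m φ ψ) : ∃ m φ ψ, Star p m φ ψ := by
  obtain ⟨m, φ, ψ, h1, h2, h3, h4, h5, h6⟩ := h
  refine ⟨m, rot.transOpenPartialHomeomorph φ, ψ, h1, h2.rot, h3, h4, ?_, h6⟩
  intro x hx
  have := h5 (rot x) hx
  rw [bf_rot] at this
  exact this

theorem exists_star_flip {p : Pil} (h : ∃ m φ ψ, Star (flip p) m φ ψ) : ∃ m φ ψ, Star p m φ ψ := by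
  obtain ⟨m, φ, ψ, h1, h2, h3, h4, h5, h6⟩ := h
  refine ⟨m, flip.transOpenPartialHomeomorph φ, ψ, h1, h2.flip, h3, h4, ?_, h6⟩
  intro x hx
  have := h5 (flip x) hx
  rw [bf_flip] at this
  exact this

theorem exists_star (p : Pil) : ∃ m φ ψ, Star p m φ ψ := by
  rcases lt_trichotomy (sg p) 0 with h | h | h
  · exact exists_star_flip (exists_star_c (by rw [sg_flip]; linarith))
  · have hcc : cc p = 0 := by rw [← abs_sg', h, abs_zero]
    have hsum := sum_eq p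
    by_cases a1 : x2 p < x1 p ∧ x3 p < x1 p
    · exact exists_star_a a1.1 a1.2
    by_cases a2 : x3 p < x2 p ∧ x1 p < x2 p
    · exact exists_star_rot (exists_star_a (by simpa using a2.1) (by simpa using a2.2))
    by_cases a3 : x1 p < x3 p ∧ x2 p < x3 p
    · exact exists_star_rot (exists_star_rot
        (exists_star_a (by simpa using a3.1) (by simpa using a3.2)))
    by_cases b1 : x3 p < x1 p ∧ x3 p < x2 p
    · exact exists_star_b b1.1 b1.2
    by_cases b2 : x1 p < x2 p ∧ x1 p < x3 p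
    · exact exists_star_rot (exists_star_b (by simpa using b2.1) (by simpa using b2.2))
    by_cases b3 : x2 p < x3 p ∧ x2 p < x1 p
    · exact exists_star_rot (exists_star_rot
        (exists_star_b (by simpa using b3.1) (by simpa using b3.2)))
    exfalso
    rw [not_and_or, not_lt, not_lt] at a1 a2 a3 b1 b2 b3
    rcases sorted p with ⟨k1, k2, k3, k4, k5⟩ | ⟨k1, k2, k3, k4, k5⟩ | ⟨k1, k2, k3, k4, k5⟩ |
      ⟨k1, k2, k3, k4, k5⟩ | ⟨k1, k2, k3, k4, k5⟩ | ⟨k1, k2, k3, k4, k5⟩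
    · rcases a1 with a1 | a1 <;> rcases b1 with b1 | b1 <;> linarith
    · rcases a1 with a1 | a1 <;> rcases b3 with b3 | b3 <;> linarith
    · rcases a2 with a2 | a2 <;> rcases b1 with b1 | b1 <;> linarith
    · rcases a2 with a2 | a2 <;> rcases b2 with b2 | b2 <;> linarith
    · rcases a3 with a3 | a3 <;> rcases b3 with b3 | b3 <;> linarith
    · rcases a3 with a3 | a3 <;> rcases b2 with b2 | b2 <;> linarith
  · exact exists_star_c h

/-! ### orientation -/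

/-- the orientation of the surface -/
def orient : Orientation Pil where
  charts := {φ | Good φ}
  cover p := by
    obtain ⟨m, φ, ψ, h⟩ := exists_star p
    exact ⟨φ, h.2.1, h.2.2.2.1⟩
  oriented _ hφ _ hψ := Good.orientationPreserving hφ hψ

theorem Good.positive {φ : OpenPartialHomeomorph Pil ℂ} (h : Good φ) : orient.Positive φ :=
  fun _ hψ => Good.orientationPreserving hψ h

/-! ### normal forms -/

theorem exists_powhomeo {m : ℕ} (hm : 1 ≤ m) {c : ℂ} (hc : c ≠ 0) :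
    ∃ h : OpenPartialHomeomorph ℂ ℂ, c ∈ h.source ∧ (∀ z, h z = z ^ m - c ^ m) ∧
      ∀ z ∈ h.source, ∃ d : ℂ, d ≠ 0 ∧ HasDerivAt h d z := by
  have hm0 : (m : ℂ) ≠ 0 := by exact_mod_cast (by omega : m ≠ 0)
  have hd : HasStrictDerivAt (fun z : ℂ => z ^ m - c ^ m) (m * c ^ (m - 1)) c :=
    (hasStrictDerivAt_pow m c).sub_const _
  have hne : (m : ℂ) * c ^ (m - 1) ≠ 0 := mul_ne_zero hm0 (pow_ne_zero _ hc)
  have hf := hd.hasStrictFDerivAt_equiv hne
  let R : OpenPartialHomeomorph ℂ ℂ := hf.toOpenPartialHomeomorph _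
  have hR : c ∈ R.source := hf.mem_toOpenPartialHomeomorph_source
  refine ⟨R.restrOpen {z | z ≠ 0} isOpen_ne, ⟨hR, hc⟩, fun z => rfl, ?_⟩
  intro z hz
  refine ⟨m * z ^ (m - 1), mul_ne_zero hm0 (pow_ne_zero _ hz.2), ?_⟩
  exact (hasDerivAt_pow m z).sub_const _

theorem Star.normal {p : Pil} {m : ℕ} {φ ψ : OpenPartialHomeomorph Pil ℂ} (h : Star p m φ ψ) :
    ∃ (d : ℕ) (φ' ψ' : OpenPartialHomeomorph Pil ℂ), 1 ≤ d ∧
    orient.Positive φ' ∧ orient.Positive ψ' ∧ p ∈ φ'.source ∧ bf p ∈ ψ'.source ∧ φ' p = 0 ∧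
      ψ' (bf p) = 0 ∧ MapsTo bf φ'.source ψ'.source ∧ ∀ x ∈ φ'.source, ψ' (bf x) = φ' x ^ d := by
  obtain ⟨hm, hφ, hψ, hp, hφψ, -⟩ := h
  by_cases h0 : φ p = 0
  · refine ⟨m, φ, ψ, hm, hφ.positive, hψ.positive, hp, (hφψ p hp).1, h0, ?_,
      fun x hx => (hφψ x hx).1, fun x hx => (hφψ x hx).2⟩
    rw [(hφψ p hp).2, h0, zero_pow (by omega)]
  · obtain ⟨g, hg1, hg2, hg3⟩ := exists_powhomeo hm h0
    let τ : OpenPartialHomeomorph ℂ ℂ := (Homeomorph.subRight (φ p ^ m)).toOpenPartialHomeomorph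
    have hτ : ∀ z, τ z = z - φ p ^ m := fun z => rfl
    have hτd : ∀ z ∈ τ.source, ∃ d : ℂ, d ≠ 0 ∧ HasDerivAt τ d z := fun z _ =>
      ⟨1, one_ne_zero, (hasDerivAt_id z).sub_const _⟩
    refine ⟨1, φ.trans g, ψ.trans τ, le_rfl, (hφ.holo g hg3).positive, (hψ.holo τ hτd).positive,
      ⟨hp, hg1⟩, ⟨(hφψ p hp).1, mem_univ _⟩, ?_, ?_, ?_, ?_⟩
    · change g (φ p) = 0
      rw [hg2, sub_self]
    · change τ (ψ (bf p)) = 0
      rw [hτ, (hφψ p hp).2, sub_self]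
    · rintro x ⟨hx1, -⟩
      exact ⟨(hφψ x hx1).1, mem_univ _⟩
    · rintro x ⟨hx1, -⟩
      change τ (ψ (bf x)) = g (φ x) ^ 1
      rw [hτ, (hφψ x hx1).2, hg2, pow_one]

/-- the map is locally injective off the centres of the stars -/
theorem Star.injOn {p : Pil} {m : ℕ} {φ ψ : OpenPartialHomeomorph Pil ℂ} (h : Star p m φ ψ)
    (h0 : φ p ≠ 0) : ∃ U ∈ 𝓝 p, InjOn bf U := by
  obtain ⟨hm, hφ, hψ, hp, hφψ, -⟩ := h
  obtain ⟨g, hg1, hg2, hg3⟩ := exists_powhomeo hm h0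
  refine ⟨(φ.trans g).source, (φ.trans g).open_source.mem_nhds ⟨hp, hg1⟩, ?_⟩
  intro x hx y hy hxy
  apply (φ.trans g).injOn hx hy
  change g (φ x) = g (φ y)
  rw [hg2, hg2, ← (hφψ x hx.1).2, ← (hφψ y hy.1).2, hxy]

theorem isBranchedCovering : IsBranchedCovering orient bf := by
  refine ⟨continuous_bf, fun p => ?_⟩
  obtain ⟨m, φ, ψ, h⟩ := exists_star p
  exact h.normal

theorem bf_crit {p : Pil} (hp : p ∈ crit bf) : bf p ∈ Vs := by
  obtain ⟨m, φ, ψ, h⟩ := exists_star p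
  by_cases h0 : φ p = 0
  · have h1 := h.2.2.2.2.1 p h.2.2.2.1
    refine h.2.2.2.2.2 _ h1.1 ?_
    rw [h1.2, h0, zero_pow (by have := h.1; omega)]
  · obtain ⟨U, hU, hi⟩ := h.injOn h0
    exact absurd hi (hp U hU)

theorem bf_Vs {y : Pil} (h : y ∈ Vs) : x1 (bf y) = 1 := by
  obtain ⟨n1, n2, n3⟩ := x_nonneg y
  have hs := sum_eq y
  rw [x1_bf]
  rcases h with h | h | h
  · rcases sorted y with ⟨k1, k2, k3, k4, k5⟩ | ⟨k1, k2, k3, k4, k5⟩ | ⟨k1, k2, k3, k4, k5⟩ |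
      ⟨k1, k2, k3, k4, k5⟩ | ⟨k1, k2, k3, k4, k5⟩ | ⟨k1, k2, k3, k4, k5⟩ <;> linarith
  · rcases sorted y with ⟨k1, k2, k3, k4, k5⟩ | ⟨k1, k2, k3, k4, k5⟩ | ⟨k1, k2, k3, k4, k5⟩ |
      ⟨k1, k2, k3, k4, k5⟩ | ⟨k1, k2, k3, k4, k5⟩ | ⟨k1, k2, k3, k4, k5⟩ <;> linarith
  · rcases sorted y with ⟨k1, k2, k3, k4, k5⟩ | ⟨k1, k2, k3, k4, k5⟩ | ⟨k1, k2, k3, k4, k5⟩ |
      ⟨k1, k2, k3, k4, k5⟩ | ⟨k1, k2, k3, k4, k5⟩ | ⟨k1, k2, k3, k4, k5⟩ <;> linarith

theorem post_subset : post bf ⊆ Vs := by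
  have key : ∀ n : ℕ, ∀ p ∈ crit bf, bf^[n + 1] p ∈ Vs := by
    intro n
    induction n with
    | zero => intro p hp; exact bf_crit hp
    | succ n ih =>
      intro p hp
      rw [Function.iterate_succ_apply']
      exact Or.inl (bf_Vs (ih p hp))
  intro y hy
  simp only [post, mem_iUnion] at hy
  obtain ⟨n, hn, p, hp, rfl⟩ := hy
  obtain ⟨k, rfl⟩ : ∃ k, n = k + 1 := ⟨n - 1, by have : 1 ≤ n := hn; omega⟩
  exact key k p hp

theorem Vs_sub {y : Pil} (h : y ∈ Vs) : sg y = 0 := by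
  obtain ⟨n1, n2, n3⟩ := x_nonneg y
  have hs := sum_eq y
  obtain ⟨h1, h2, h3⟩ := mn_le (x1 y) (x2 y) (x3 y)
  change cc y ≤ _ at h1 h2 h3
  have h4 : cc y = 0 := by
    have := (c_order y).1
    rcases h with h | h | h <;> linarith
  rw [← abs_sg'] at h4
  exact abs_eq_zero.1 h4

/-- the vertices -/
def e1 : Pil := mkP 1 0 0 0 (by norm_num) (by norm_num [mn])
def e2 : Pil := mkP 0 1 0 0 (by norm_num) (by norm_num [mn])
def e3 : Pil := mkP 0 0 1 0 (by norm_num) (by norm_num [mn])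

theorem Vs_finite : Vs.Finite := by
  refine (Set.toFinite ({e1, e2, e3} : Set Pil)).subset ?_
  intro y hy
  have hs := Vs_sub hy
  obtain ⟨n1, n2, n3⟩ := x_nonneg y
  have hsum := sum_eq y
  rcases hy with h | h | h
  · left
    exact Pil.ext (by change x2 y = 0; linarith) (by change x3 y = 0; linarith) hs
  · right; left
    exact Pil.ext h (by change x3 y = 0; linarith) hs
  · right; right
    exact Pil.ext (by change x2 y = 0; linarith) h hs

theorem eq_e1 {y : Pil} (h : x1 y = 1) : y = e1 := by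
  have hs := Vs_sub (Or.inl h)
  obtain ⟨n1, n2, n3⟩ := x_nonneg y
  have hsum := sum_eq y
  exact Pil.ext (by change x2 y = 0; linarith) (by change x3 y = 0; linarith) hs

theorem x1_e1 : x1 e1 = 1 := x1_mkP _ _

theorem e1_mem : e1 ∈ Vs := Or.inl x1_e1

theorem bf_e1 : bf e1 = e1 := eq_e1 (bf_Vs e1_mem)

theorem bf_e2 : bf e2 = e1 := eq_e1 (bf_Vs (Or.inr (Or.inl rfl)))

theorem e1_ne_e2 : e1 ≠ e2 := by
  intro h
  have h1 : x2 e1 = x2 e2 := by rw [h]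
  have h2 : x2 e1 = 0 := rfl
  have h3 : x2 e2 = 1 := rfl
  rw [h2, h3] at h1
  norm_num at h1

theorem isThurstonMap : IsThurstonMap orient bf where
  branched := isBranchedCovering
  degree := by
    refine le_trans ?_ (le_iSup (fun y => (bf ⁻¹' {y}).encard) e1)
    have h1 : ({e1, e2} : Set Pil) ⊆ bf ⁻¹' {e1} := by
      rintro y (rfl | rfl)
      · exact bf_e1
      · exact bf_e2
    refine le_trans ?_ (encard_le_encard h1)
    rw [encard_pair e1_ne_e2]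
  post := Vs_finite.subset post_subset

theorem isExpanding : IsExpanding bf :=
  ⟨Cur, isJordanCurve_Cur, fun _ hy => Vs_sub (post_subset hy), tendsto_mesh⟩

end Pool.Agent.N224.Bary
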