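import Pool.Agent.N224.Bary.Charts

set_option autoImplicit false

open Topology Set Filter ComplexConjugate

namespace Pool.Agent.N224.Bary

/-! ### charts at the vertices -/

/-- the position in the sector -/
noncomputable def zz (m : ℕ) (a b : ℝ) (p : Pil) : ℂ := ((x1 p / a : ℝ) : ℂ) + ((x2 p / b : ℝ) : ℂ) * eta m

theorem continuous_zz (m : ℕ) (a b : ℝ) : Continuous (zz m a b) := by
  unfold zz
  fun_prop

/-- opening the cone at the vertex `e₃` -/
noncomputable def vf (m : ℕ) (a b : ℝ) (p : Pil) : ℂ :=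
  if 0 ≤ sg p then zz m a b p ^ m else conj (zz m a b p ^ m)

variable {m : ℕ} {a b : ℝ}

theorem vf_front {p : Pil} (h : 0 ≤ sg p) : vf m a b p = zz m a b p ^ m := if_pos h

theorem zz_real {p : Pil} (h : sg p = 0) (h3 : 0 < x3 p) (hm : 2 ≤ m) (ha : 0 < a) (hb : 0 < b) :
    (zz m a b p ^ m).im = 0 := by
  have h1 : cc p = 0 := by rw [← abs_sg', h, abs_zero]
  obtain ⟨n1, n2, -⟩ := x_nonneg p
  have h2 : x1 p = 0 ∨ x2 p = 0 := by
    rcases sorted p with ⟨-, -, -, -, k⟩ | ⟨-, -, -, -, k⟩ | ⟨-, -, -, -, k⟩ |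
      ⟨-, -, -, -, k⟩ | ⟨-, -, -, -, k⟩ | ⟨-, -, -, -, k⟩
    · linarith
    · right; linarith
    · linarith
    · left; linarith
    · right; linarith
    · left; linarith
  obtain ⟨a1, a2, a3⟩ := angle_bounds hm
  rcases h2 with h2 | h2
  · have e : eta m = Complex.exp ((Real.pi / m : ℝ) * Complex.I) := by
      rw [Complex.exp_mul_I, ← Complex.ofReal_cos, ← Complex.ofReal_sin]
      exact (Complex.re_add_im (eta m)).symm
    unfold zz
    rw [h2, zero_div, Complex.ofReal_zero, zero_add, e, pow_polar_im, a3, Real.sin_pi, mul_zero]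
  · unfold zz
    rw [h2, zero_div, Complex.ofReal_zero, zero_mul, add_zero, ← Complex.ofReal_pow]
    exact Complex.ofReal_im _

theorem vf_back {p : Pil} (h : sg p ≤ 0) (h3 : 0 < x3 p) (hm : 2 ≤ m) (ha : 0 < a) (hb : 0 < b) :
    vf m a b p = conj (zz m a b p ^ m) := by
  rcases h.eq_or_lt with h0 | h0
  · rw [vf_front h0.ge]
    exact (Complex.conj_eq_iff_im.2 (zz_real h0 h3 hm ha hb)).symm
  · exact if_neg (not_le.2 h0)

theorem zz_inj (hm : 2 ≤ m) (ha : 0 < a) (hb : 0 < b) {p q : Pil}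
    (h : zz m a b p ^ m = zz m a b q ^ m) : x1 p = x1 q ∧ x2 p = x2 q := by
  obtain ⟨n1, n2, -⟩ := x_nonneg p
  obtain ⟨n1', n2', -⟩ := x_nonneg q
  obtain ⟨h1, h2⟩ := sector_inj hm (div_nonneg n1 ha.le) (div_nonneg n2 hb.le)
    (div_nonneg n1' ha.le) (div_nonneg n2' hb.le) h
  exact ⟨(div_left_inj' ha.ne').1 h1, (div_left_inj' hb.ne').1 h2⟩

theorem zz_im (hm : 2 ≤ m) (ha : 0 < a) (hb : 0 < b) (p : Pil) : 0 ≤ (zz m a b p ^ m).im := by
  obtain ⟨n1, n2, -⟩ := x_nonneg p
  exact sector_im hm (div_nonneg n1 ha.le) (div_nonneg n2 hb.le)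

theorem zz_im_zero (hm : 2 ≤ m) (ha : 0 < a) (hb : 0 < b) {p : Pil} (h : (zz m a b p ^ m).im = 0) :
    sg p = 0 := by
  obtain ⟨n1, n2, n3⟩ := x_nonneg p
  have h1 : cc p = 0 := by
    obtain ⟨h1, h2, h3⟩ := mn_le (x1 p) (x2 p) (x3 p)
    change cc p ≤ _ at h1 h2 h3
    have h4 : 0 ≤ cc p := (c_order p).1
    rcases sector_real hm (div_nonneg n1 ha.le) (div_nonneg n2 hb.le) h with h5 | h5
    · have h6 : x1 p = 0 := by
        rcases div_eq_zero_iff.1 h5 with h6 | h6
        · exact h6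
        · exact absurd h6 ha.ne'
      linarith
    · have h6 : x2 p = 0 := by
        rcases div_eq_zero_iff.1 h5 with h6 | h6
        · exact h6
        · exact absurd h6 hb.ne'
      linarith
  rw [← abs_sg'] at h1
  exact abs_eq_zero.1 h1

/-- the complement of the target of the chart -/
def Zs (m : ℕ) (a b : ℝ) : Set ℂ :=
  {z | 0 ≤ z.im ∧ 0 ≤ z.re * Real.sin (Real.pi / m) - z.im * Real.cos (Real.pi / m) ∧
    Real.sin (Real.pi / m) ≤ a * (z.re * Real.sin (Real.pi / m) - z.im * Real.cos (Real.pi / m)) +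
      b * z.im}

theorem isClosed_Zs : IsClosed (Zs m a b) := by
  refine (isClosed_le (f := fun _ : ℂ => (0 : ℝ)) (g := fun z : ℂ => z.im) continuous_const
    (by fun_prop)).inter ((isClosed_le (f := fun _ : ℂ => (0 : ℝ)) (g := fun z : ℂ =>
      z.re * Real.sin (Real.pi / m) - z.im * Real.cos (Real.pi / m)) continuous_const
      (by fun_prop)).inter (isClosed_le (f := fun _ : ℂ => Real.sin (Real.pi / m)) (g := fun z : ℂ =>
        a * (z.re * Real.sin (Real.pi / m) - z.im * Real.cos (Real.pi / m)) + b * z.im)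
        continuous_const (by fun_prop)))

theorem mem_Zs (hm : 2 ≤ m) {α β : ℝ} : (α : ℂ) + β * eta m ∈ Zs m a b ↔
    0 ≤ α ∧ 0 ≤ β ∧ 1 ≤ a * α + b * β := by
  have hs := sin_pos_m hm
  change (0 ≤ _ ∧ 0 ≤ _ ∧ _ ≤ _) ↔ _
  rw [eta_re_aux, eta_im_aux]
  have e : (α + β * Real.cos (Real.pi / m)) * Real.sin (Real.pi / m) -
      β * Real.sin (Real.pi / m) * Real.cos (Real.pi / m) = α * Real.sin (Real.pi / m) := by ring
  rw [e]
  constructor
  · rintro ⟨h1, h2, h3⟩
    refine ⟨?_, ?_, ?_⟩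
    · exact nonneg_of_mul_nonneg_left h2 hs
    · exact nonneg_of_mul_nonneg_left h1 hs
    · by_contra hcon
      push Not at hcon
      nlinarith
  · rintro ⟨h1, h2, h3⟩
    refine ⟨by positivity, by positivity, ?_⟩
    nlinarith

/-- the target of the chart -/
def Ts (m : ℕ) (a b : ℝ) : Set ℂ :=
  {w | w ∉ (fun z : ℂ => z ^ m) '' Zs m a b ∧ conj w ∉ (fun z : ℂ => z ^ m) '' Zs m a b}

theorem isOpen_Ts : IsOpen (Ts m a b) := by
  have h1 : IsClosed ((fun z : ℂ => z ^ m) '' Zs m a b) := isClosedMap_pow ℂ m _ isClosed_Zs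
  exact h1.isOpen_compl.inter (h1.isOpen_compl.preimage Complex.continuous_conj)

theorem zz_mem_Zs (hm : 2 ≤ m) (ha : 0 < a) (hb : 0 < b) (p : Pil) :
    zz m a b p ∈ Zs m a b ↔ x3 p = 0 := by
  obtain ⟨n1, n2, n3⟩ := x_nonneg p
  unfold zz
  rw [mem_Zs hm]
  have e : a * (x1 p / a) + b * (x2 p / b) = x1 p + x2 p := by field_simp
  rw [e]
  constructor
  · rintro ⟨-, -, h⟩
    linarith [sum_eq p]
  · intro h
    exact ⟨div_nonneg n1 ha.le, div_nonneg n2 hb.le, by linarith [sum_eq p]⟩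

/-- a power of a point of the sector is in the target iff the point is in the open star -/
theorem pow_mem_Ts (hm : 2 ≤ m) (ha : 0 < a) (hb : 0 < b) (p : Pil) :
    zz m a b p ^ m ∈ Ts m a b ↔ 0 < x3 p := by
  obtain ⟨n1, n2, n3⟩ := x_nonneg p
  constructor
  · rintro ⟨h1, -⟩
    refine lt_of_le_of_ne n3 fun h0 => h1 ⟨zz m a b p, (zz_mem_Zs hm ha hb p).2 h0.symm, rfl⟩
  · intro h3
    have key : ∀ w : ℂ, w = zz m a b p ^ m → w ∉ (fun z : ℂ => z ^ m) '' Zs m a b := by
      rintro w hw ⟨z, hz, hzw⟩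
      have hzw' : z ^ m = w := hzw
      -- coordinates of z
      have hs := sin_pos_m hm
      set β := z.im / Real.sin (Real.pi / m) with hβ
      set α := (z.re * Real.sin (Real.pi / m) - z.im * Real.cos (Real.pi / m)) /
        Real.sin (Real.pi / m) with hα
      have hz' : z = (α : ℂ) + β * eta m := by
        apply Complex.ext
        · rw [eta_re_aux, hα, hβ]
          field_simp
          ring
        · rw [eta_im_aux, hβ]
          field_simp
      rw [hz', mem_Zs hm] at hz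
      rw [hz', hw] at hzw'
      obtain ⟨k1, k2⟩ := sector_inj hm hz.1 hz.2.1 (div_nonneg n1 ha.le) (div_nonneg n2 hb.le) hzw'
      have h5 := hz.2.2
      rw [k1, k2] at h5
      have e : a * (x1 p / a) + b * (x2 p / b) = x1 p + x2 p := by field_simp
      rw [e] at h5
      linarith [sum_eq p]
    refine ⟨key _ rfl, fun hcon => ?_⟩
    -- the conjugate is in the image of the sector only if it is real
    have h4 : 0 ≤ (conj (zz m a b p ^ m)).im := by
      obtain ⟨z, hz, hzw⟩ := hcon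
      have hzw' : z ^ m = conj (zz m a b p ^ m) := hzw
      have hs := sin_pos_m hm
      set β := z.im / Real.sin (Real.pi / m) with hβ
      set α := (z.re * Real.sin (Real.pi / m) - z.im * Real.cos (Real.pi / m)) /
        Real.sin (Real.pi / m) with hα
      have hz' : z = (α : ℂ) + β * eta m := by
        apply Complex.ext
        · rw [eta_re_aux, hα, hβ]
          field_simp
          ring
        · rw [eta_im_aux, hβ]
          field_simp
      rw [hz', mem_Zs hm] at hz
      rw [← hzw', hz']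
      exact sector_im hm hz.1 hz.2.1
    have h5 := zz_im hm ha hb p
    rw [Complex.conj_im] at h4
    have h6 : (zz m a b p ^ m).im = 0 := by linarith
    exact key _ (Complex.conj_eq_iff_im.2 h6) hcon

theorem conj_mem_Ts {w : ℂ} : conj w ∈ Ts m a b ↔ w ∈ Ts m a b := by
  unfold Ts
  simp only [mem_ofPred_eq, Complex.conj_conj]
  exact and_comm

theorem exists_chv (hm : 2 ≤ m) (ha : 0 < a) (hb : 0 < b) :
    ∃ φ : OpenPartialHomeomorph Pil ℂ, φ.source = {p | 0 < x3 p} ∧ φ.target = Ts m a b ∧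
    ∀ p, φ p = vf m a b p := by
  have hc := continuous_zz m a b
  refine exists_chart (F := vf m a b) (F₁ := fun p => zz m a b p ^ m)
    (F₂ := fun p => conj (zz m a b p ^ m)) (K₁ := {p | 0 ≤ sg p}) (K₂ := {p | sg p ≤ 0})
    (isOpen_lt continuous_const continuous_x3) isOpen_Ts
    (isClosed_le continuous_const continuous_sg) (isClosed_le continuous_sg continuous_const)
    (fun p _ => le_total 0 (sg p)) (hc.pow m).continuousOn
    (Complex.continuous_conj.comp (hc.pow m)).continuousOn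
    (fun p hp => vf_front hp.1) (fun p hp => vf_back hp.1 hp.2 hm ha hb) ?_ ?_ ?_
    (fun p _ h => (pow_mem_Ts hm ha hb p).1 h)
    (fun p _ h => (pow_mem_Ts hm ha hb p).1 (conj_mem_Ts.1 h))
  · intro p hp q hq h
    have hp' : 0 < x3 p := hp
    have hq' : 0 < x3 q := hq
    have fin : zz m a b p ^ m = zz m a b q ^ m → (0 ≤ sg p ∧ 0 ≤ sg q ∨ sg p ≤ 0 ∧ sg q ≤ 0) →
        p = q := by
      intro h1 h2
      obtain ⟨k1, k2⟩ := zz_inj hm ha hb h1
      have k3 : x3 p = x3 q := by linarith [sum_eq p, sum_eq q]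
      have k4 : cc p = cc q := by unfold cc; rw [k1, k2, k3]
      refine Pil.ext k2 k3 ?_
      rw [← abs_sg', ← abs_sg'] at k4
      rcases h2 with ⟨s1, s2⟩ | ⟨s1, s2⟩
      · rwa [abs_of_nonneg s1, abs_of_nonneg s2] at k4
      · rw [abs_of_nonpos s1, abs_of_nonpos s2] at k4
        linarith
    have mixed : ∀ p q : Pil, 0 ≤ sg p → sg q ≤ 0 → 0 < x3 q → vf m a b p = vf m a b q →
        sg q = 0 ∧ zz m a b p ^ m = zz m a b q ^ m := by
      intro p q s1 s2 h3 h
      rw [vf_front s1, vf_back s2 h3 hm ha hb] at h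
      have h4 := zz_im hm ha hb p
      have h5 := zz_im hm ha hb q
      have h6 := congrArg Complex.im h
      rw [Complex.conj_im] at h6
      have h7 : (zz m a b q ^ m).im = 0 := by linarith
      refine ⟨zz_im_zero hm ha hb h7, ?_⟩
      rw [h]
      exact Complex.conj_eq_iff_im.2 h7
    rcases le_total 0 (sg p) with s1 | s1 <;> rcases le_total 0 (sg q) with s2 | s2
    · rw [vf_front s1, vf_front s2] at h
      exact fin h (Or.inl ⟨s1, s2⟩)
    · obtain ⟨k1, k2⟩ := mixed p q s1 s2 hq' h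
      exact fin k2 (Or.inl ⟨s1, k1.ge⟩)
    · obtain ⟨k1, k2⟩ := mixed q p s2 s1 hp' h.symm
      exact fin k2.symm (Or.inl ⟨k1.ge, s2⟩)
    · rw [vf_back s1 hp' hm ha hb, vf_back s2 hq' hm ha hb] at h
      exact fin ((starRingEnd ℂ).injective h) (Or.inr ⟨s1, s2⟩)
  · intro p hp
    have hp' : 0 < x3 p := hp
    rcases le_total 0 (sg p) with s1 | s1
    · rw [vf_front s1]
      exact (pow_mem_Ts hm ha hb p).2 hp'
    · rw [vf_back s1 hp' hm ha hb]
      exact conj_mem_Ts.2 ((pow_mem_Ts hm ha hb p).2 hp')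
  · intro w hw
    have key : ∀ w : ℂ, w ∈ Ts m a b → 0 ≤ w.im → ∀ σ : ℝ, |σ| = 1 → ∃ p : Pil, 0 < x3 p ∧
        sg p = σ * cc p ∧ zz m a b p ^ m = w := by
      intro w hw him σ hσ
      obtain ⟨α, β, hα, hβ, e⟩ := sector_surj hm him
      have h1 : a * α + b * β < 1 := by
        by_contra hcon
        push Not at hcon
        exact hw.1 ⟨(α : ℂ) + β * eta m, (mem_Zs hm).2 ⟨hα, hβ, hcon⟩, e⟩
      have h2 : 0 ≤ mn (a * α) (b * β) (1 - a * α - b * β) :=
        le_min (by positivity) (le_min (by positivity) (by linarith))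
      refine ⟨mkP (a * α) (b * β) (1 - a * α - b * β) (σ * mn (a * α) (b * β) (1 - a * α - b * β))
        (by ring) (by rw [abs_mul, hσ, one_mul, abs_of_nonneg h2]), ?_, ?_, ?_⟩
      · rw [x3_mkP]; linarith
      · unfold cc
        rw [sg_mkP, x1_mkP, x2_mkP, x3_mkP]
      · unfold zz
        rw [x1_mkP, x2_mkP, mul_div_cancel_left₀ _ ha.ne', mul_div_cancel_left₀ _ hb.ne']
        exact e
    rcases le_total 0 w.im with h | h
    · obtain ⟨p, h1, h2, h3⟩ := key w hw h 1 (by simp)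
      refine ⟨p, h1, ?_⟩
      rw [vf_front (by rw [h2, one_mul]; exact (c_order p).1)]
      exact h3
    · obtain ⟨p, h1, h2, h3⟩ := key (conj w) (conj_mem_Ts.2 hw) (by rw [Complex.conj_im]; linarith)
        (-1) (by simp)
      refine ⟨p, h1, ?_⟩
      rw [vf_back (by rw [h2]; linarith [(c_order p).1]) h1 hm ha hb, h3, Complex.conj_conj]

/-- the chart at `e₃` with cone angle parameter `m` -/
noncomputable def chv (m : ℕ) (a b : ℝ) : OpenPartialHomeomorph Pil ℂ := by
  classical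
  exact if h : 2 ≤ m ∧ 0 < a ∧ 0 < b then (exists_chv h.1 h.2.1 h.2.2).choose else kap

theorem mem_chv (hm : 2 ≤ m) (ha : 0 < a) (hb : 0 < b) {p : Pil} :
    p ∈ (chv m a b).source ↔ 0 < x3 p := by
  have h : 2 ≤ m ∧ 0 < a ∧ 0 < b := ⟨hm, ha, hb⟩
  have := (exists_chv h.1 h.2.1 h.2.2).choose_spec.1
  unfold chv
  rw [dif_pos h, this]
  rfl

theorem chv_apply (hm : 2 ≤ m) (ha : 0 < a) (hb : 0 < b) (p : Pil) : chv m a b p = vf m a b p := by
  have h : 2 ≤ m ∧ 0 < a ∧ 0 < b := ⟨hm, ha, hb⟩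
  have := (exists_chv h.1 h.2.1 h.2.2).choose_spec.2.2
  unfold chv
  rw [dif_pos h, this]

theorem good_chv (hm : 2 ≤ m) (ha : 0 < a) (hb : 0 < b) : Good (chv m a b) := by
  intro p hp hO
  have hs := sin_pos_m hm
  have hcc : 0 < cc p := (cc_pos_iff p).2 hO.1
  have hx2 : 0 < x2 p := hcc.trans_le (mn_le _ _ _).2.1
  have hzim : 0 < (zz m a b p).im := by
    unfold zz
    rw [eta_im_aux]
    positivity
  constructor
  · intro hk
    have e : ∀ q : Pil, zz m a b q = ((1 / a : ℝ) : ℂ) +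
        lin (((1 / b : ℝ) : ℂ) * eta m - ((1 / a : ℝ) : ℂ)) (-((1 / a : ℝ) : ℂ)) (kap q) := by
      intro q
      rw [kap_apply, lin_apply, re_add_im_aux, im_add_im_aux]
      unfold zz
      rw [show x1 q = 1 - x2 q - x3 q by linarith [sum_eq q]]
      push_cast
      ring
    have hne : ((1 / a : ℝ) : ℂ) +
        lin (((1 / b : ℝ) : ℂ) * eta m - ((1 / a : ℝ) : ℂ)) (-((1 / a : ℝ) : ℂ)) (kap p) ≠ 0 := by
      rw [← e p]
      intro h0
      rw [h0] at hzim
      simp at hzim
    obtain ⟨L, hL, hJ⟩ := exists_pow_lin (m := m) (by omega) hne (by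
      simp only [Complex.sub_re, Complex.sub_im, Complex.mul_re, Complex.mul_im, Complex.ofReal_re,
        Complex.ofReal_im, Complex.neg_re, Complex.neg_im, eta]
      have : 0 < (1 / b) * Real.sin (Real.pi / m) * (1 / a) := by positivity
      linarith)
    refine posAt_of hk univ_mem hL hJ ?_
    intro q _ hq
    rw [chv_apply hm ha hb, vf_front (mem_kap.1 hq).le, e q]
  · intro hk
    have e : ∀ q : Pil, conj (zz m a b q) = ((1 / a : ℝ) : ℂ) +
        lin (-((1 / a : ℝ) : ℂ)) (((1 / b : ℝ) : ℂ) * conj (eta m) - ((1 / a : ℝ) : ℂ)) (kapm q) := by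
      intro q
      rw [kapm_apply, lin_apply, re_add_im_aux, im_add_im_aux]
      unfold zz
      rw [show x1 q = 1 - x2 q - x3 q by linarith [sum_eq q]]
      simp only [map_add, map_mul, Complex.conj_ofReal]
      push_cast
      ring
    have hne : ((1 / a : ℝ) : ℂ) +
        lin (-((1 / a : ℝ) : ℂ)) (((1 / b : ℝ) : ℂ) * conj (eta m) - ((1 / a : ℝ) : ℂ)) (kapm p) ≠ 0 := by
      rw [← e p]
      intro h0
      have h1 := congrArg Complex.im h0
      rw [Complex.conj_im] at h1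
      simp at h1
      linarith
    obtain ⟨L, hL, hJ⟩ := exists_pow_lin (m := m) (by omega) hne (by
      simp only [Complex.sub_re, Complex.sub_im, Complex.mul_re, Complex.mul_im, Complex.ofReal_re,
        Complex.ofReal_im, Complex.neg_re, Complex.neg_im, Complex.conj_re, Complex.conj_im, eta]
      have : 0 < (1 / b) * Real.sin (Real.pi / m) * (1 / a) := by positivity
      linarith)
    have hV : (chv m a b).source ∈ 𝓝 p := (chv m a b).open_source.mem_nhds hp
    refine posAt_of hk hV hL hJ ?_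
    intro q hqV hq
    rw [chv_apply hm ha hb, vf_back (mem_kapm.1 hq).le ((mem_chv hm ha hb).1 hqV) hm ha hb, map_pow,
      e q]

end Pool.Agent.N224.Bary
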